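import Pool.Agent.W5h90.CP.Fun

/-!
Isomorphisms of integral schemes and function fields.
-/

set_option autoImplicit false
set_option linter.unusedSectionVars false

open AlgebraicGeometry CategoryTheory

universe u

namespace Pool.Agent.W5h90.CP

variable {W X Y : Scheme.{u}} [IsIntegral W] [IsIntegral X] [IsIntegral Y]

/-- A dominant morphism of integral schemes maps the generic point to the generic point. -/
lemma specializes_of_isDominant (f : W ⟶ X) [IsDominant f] :
    f (genericPoint W) ⤳ genericPoint X := by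
  have h1 := (genericPoint_spec W).image f.continuous
  have h2 : closure (f '' (Set.univ : Set W)) = Set.univ := by
    rw [Set.image_univ]
    exact f.denseRange.closure_range
  rw [h2] at h1
  exact h1.specializes trivial

/-- The map on function fields `f^* : K(X) → K(W)` induced by a dominant morphism `f : W → X` of
integral schemes. -/
noncomputable def ffm (f : W ⟶ X) [IsDominant f] : X.functionField →+* W.functionField :=
  (X.presheaf.stalkSpecializes (specializes_of_isDominant f) ≫ f.stalkMap (genericPoint W)).hom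

lemma preimage_nonempty (f : W ⟶ X) [IsDominant f] {U : X.Opens} (hU : (U : Set X).Nonempty) :
    ((f ⁻¹ᵁ U : W.Opens) : Set W).Nonempty :=
  ⟨genericPoint W, (specializes_of_isDominant f).mem_open U.isOpen (gen_mem hU)⟩

lemma ffm_ev (f : W ⟶ X) [IsDominant f] {U : X.Opens} (hU : (U : Set X).Nonempty) (s : Γ(X, U)) :
    ffm f (ev hU s) = ev (preimage_nonempty f hU) (f.app U s) := by
  show (X.presheaf.stalkSpecializes (specializes_of_isDominant f) ≫ f.stalkMap (genericPoint W)).hom
    ((X.presheaf.germ U (genericPoint X) (gen_mem hU)).hom s) =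
      (W.presheaf.germ (f ⁻¹ᵁ U) (genericPoint W) (gen_mem (preimage_nonempty f hU))).hom
        ((f.app U).hom s)
  rw [← CommRingCat.comp_apply, ← CommRingCat.comp_apply]
  congr 2
  rw [TopCat.Presheaf.germ_stalkSpecializes_assoc, Scheme.Hom.germ_stalkMap]

lemma ev_app_eq_id (f : Y ⟶ Y) (hf : f = 𝟙 Y) {V : Y.Opens} (hV : (V : Set Y).Nonempty)
    (hV' : ((f ⁻¹ᵁ V : Y.Opens) : Set Y).Nonempty) (t : Γ(Y, V)) :
    ev hV' (f.app V t) = ev hV t := by
  subst hf
  rfl

/-- The isomorphism of function fields `K(X) → K(Y)` induced by an isomorphism `e : X ≅ Y`. -/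
noncomputable def tau (e : X ≅ Y) : X.functionField →+* Y.functionField :=
  ffm e.inv

lemma tau_ev (e : X ≅ Y) {U : X.Opens} (hU : (U : Set X).Nonempty) (s : Γ(X, U)) :
    tau e (ev hU s) = ev (preimage_nonempty e.inv hU) (e.inv.app U s) :=
  ffm_ev e.inv hU s

lemma exists_tau_ev (e : X ≅ Y) {V : Y.Opens} (hV : (V : Set Y).Nonempty) (t : Γ(Y, V)) :
    ∃ s : Γ(X, e.hom ⁻¹ᵁ V), tau e (ev (preimage_nonempty e.hom hV) s) = ev hV t := by
  refine ⟨e.hom.app V t, ?_⟩
  rw [tau_ev]
  have h := ev_app_eq_id (e.inv ≫ e.hom) e.inv_hom_id hV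
    (preimage_nonempty e.inv (preimage_nonempty e.hom hV)) t
  rw [← h]
  congr 1

lemma hom_inv_apply (e : X ≅ Y) (y : Y) : e.hom (e.inv y) = y := by
  rw [← Scheme.Hom.comp_apply, e.inv_hom_id]
  rfl

lemma inv_hom_apply (e : X ≅ Y) (x : X) : e.inv (e.hom x) = x := by
  rw [← Scheme.Hom.comp_apply, e.hom_inv_id]
  rfl

/-- `tau` maps the local ring at `x` into the local ring at `e x` -/
lemma tau_stalk (e : X ≅ Y) (x : X) (a : X.presheaf.stalk x) :
    ∃ b : Y.presheaf.stalk (e.hom x),
      algebraMap _ Y.functionField b = tau e (algebraMap _ X.functionField a) := by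
  obtain ⟨U, hxU, s, rfl⟩ := X.presheaf.exists_germ_eq a
  have hU : (U : Set X).Nonempty := ⟨x, hxU⟩
  have hy : e.hom x ∈ e.inv ⁻¹ᵁ U := by
    show e.inv (e.hom x) ∈ U
    rw [inv_hom_apply]
    exact hxU
  refine ⟨Y.presheaf.germ _ _ hy (e.inv.app U s), ?_⟩
  rw [algebraMap_germ hU hxU, tau_ev, algebraMap_germ (preimage_nonempty e.inv hU) hy]

/-- every element of the local ring at `e x` comes from the local ring at `x` -/
lemma exists_tau_stalk (e : X ≅ Y) (x : X) (b : Y.presheaf.stalk (e.hom x)) :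
    ∃ a : X.presheaf.stalk x,
      tau e (algebraMap _ X.functionField a) = algebraMap _ Y.functionField b := by
  obtain ⟨V, hyV, t, rfl⟩ := Y.presheaf.exists_germ_eq b
  have hV : (V : Set Y).Nonempty := ⟨_, hyV⟩
  obtain ⟨s, hs⟩ := exists_tau_ev e hV t
  refine ⟨X.presheaf.germ (e.hom ⁻¹ᵁ V) x hyV s, ?_⟩
  rw [algebraMap_germ (preimage_nonempty e.hom hV) hyV, hs, algebraMap_germ hV hyV]

end Pool.Agent.W5h90.CP
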