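import Mathlib

/-!
# Definitions: smooth projective varieties, ample line bundles and maps to the tangent sheaf

`k` is a field, and a `k`-scheme is a scheme `X` with a morphism `p : X ⟶ Spec k`.
-/

set_option autoImplicit false

open AlgebraicGeometry CategoryTheory

universe u

namespace Pool.Agent.W5h90.CP

attribute [local instance] MvPolynomial.gradedAlgebra

/-- Projective space `ℙⁿ` over the field `k`: the `Proj` of the graded ring `k[x₀, …, xₙ]`. -/
noncomputable abbrev PP (k : Type u) [Field k] (n : ℕ) : Scheme.{u} :=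
  Proj (MvPolynomial.homogeneousSubmodule (Fin (n + 1)) k)

/-- The structure morphism `ℙⁿ ⟶ Spec k`. -/
noncomputable def PPstr (k : Type u) [Field k] (n : ℕ) : PP k n ⟶ Spec (CommRingCat.of k) :=
  Proj.toSpecZero (MvPolynomial.homogeneousSubmodule (Fin (n + 1)) k) ≫
    Spec.map (CommRingCat.ofHom
      (algebraMap k (MvPolynomial.homogeneousSubmodule (Fin (n + 1)) k 0)))

/-- `p : X ⟶ Spec k` is a smooth projective variety of dimension `n` over `k`: `X` is an integral
scheme, `p` is smooth of relative dimension `n`, and there is a closed immersion of `X` in some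
projective space `ℙᴺ`, over `k`. -/
structure IsSmoothProjectiveVariety {k : Type u} [Field k] {X : Scheme.{u}}
    (p : X ⟶ Spec (CommRingCat.of k)) (n : ℕ) : Prop where
  isIntegral : IsIntegral X
  smooth : SmoothOfRelativeDimension n p
  projective : ∃ (N : ℕ) (i : X ⟶ PP k N), IsClosedImmersion i ∧ i ≫ PPstr k N = p

/-- Restriction of regular functions to a smaller open set. -/
noncomputable def res {X : Scheme.{u}} {V W : X.Opens} (h : W ≤ V) : Γ(X, V) →+* Γ(X, W) :=
  (X.presheaf.map (homOfLE h).op).hom

/-- The constant functions on the open set `V` of the `k`-scheme `X`. -/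
noncomputable def const {k : Type u} [Field k] {X : Scheme.{u}} (p : X ⟶ Spec (CommRingCat.of k))
    (V : X.Opens) : k →+* Γ(X, V) :=
  (res le_top).comp (p.appTop.hom.comp (Scheme.ΓSpecIso (CommRingCat.of k)).inv.hom)

/-- A section over the open set `U` of the tangent sheaf `T_X` of `X` over `k`, that is, of the
sheaf of `k`-derivations of `O_X`: a family of derivations `Γ(X, V) → Γ(X, V)`, one for every
open `V ⊆ U`, which vanish on the constants and are compatible with restrictions. -/
structure TangentSection {k : Type u} [Field k] {X : Scheme.{u}}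
    (p : X ⟶ Spec (CommRingCat.of k)) (U : X.Opens) where
  /-- the derivation of the ring of functions on `V ⊆ U` -/
  der : ∀ V : X.Opens, V ≤ U → Γ(X, V) → Γ(X, V)
  map_add : ∀ (V : X.Opens) (h : V ≤ U) (a b : Γ(X, V)), der V h (a + b) = der V h a + der V h b
  map_mul : ∀ (V : X.Opens) (h : V ≤ U) (a b : Γ(X, V)),
    der V h (a * b) = a * der V h b + b * der V h a
  map_const : ∀ (V : X.Opens) (h : V ≤ U) (c : k), der V h (const p V c) = 0
  map_res : ∀ (V W : X.Opens) (h : V ≤ U) (h' : W ≤ V) (a : Γ(X, V)),
    der W (h'.trans h) (res h' a) = res h' (der V h a)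

/-- A line bundle (invertible sheaf) `L` on `X`, given by a cocycle: an open cover `U i` with frames
`e i` of `L` over `U i` and functions `g i j` on `U i ∩ U j` with `e j = g i j • e i`. So a section
of `L` is a family of functions `s i` on `U i` with `s i = g i j * s j` on `U i ∩ U j`. -/
structure LineBundle (X : Scheme.{u}) where
  /-- the index set of the open cover -/
  ι : Type
  /-- the open cover -/
  U : ι → X.Opens
  covers : ∀ x : X, ∃ i, x ∈ U i
  /-- the transition functions -/
  g : ∀ i j : ι, Γ(X, U i ⊓ U j)
  g_self : ∀ i : ι, g i i = 1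
  cocycle : ∀ (i j l : ι) (W : X.Opens) (hi : W ≤ U i) (hj : W ≤ U j) (hl : W ≤ U l),
    res (le_inf hi hj) (g i j) * res (le_inf hj hl) (g j l) = res (le_inf hi hl) (g i l)

/-- A global section of the tensor power `Lᵐ` of the line bundle `L`. -/
structure LineBundle.Section {X : Scheme.{u}} (L : LineBundle X) (m : ℕ) where
  /-- the coordinate of the section in the frame over `U i` -/
  s : ∀ i : L.ι, Γ(X, L.U i)
  compat : ∀ (i j : L.ι) (W : X.Opens) (hi : W ≤ L.U i) (hj : W ≤ L.U j),
    res hi (s i) = res (le_inf hi hj) (L.g i j) ^ m * res hj (s j)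

/-- The open set where a section of `Lᵐ` does not vanish. -/
noncomputable def LineBundle.Section.nonvanishing {X : Scheme.{u}} {L : LineBundle X} {m : ℕ}
    (s : L.Section m) : X.Opens := ⨆ i, X.basicOpen (s.s i)

/-- The line bundle `L` on `X` is ample: `X` is quasi-compact and every point of `X` has an affine
neighbourhood of the form `X_s`, where `s` is a section of some power `Lᵐ`, `m > 0`. -/
def LineBundle.IsAmple {X : Scheme.{u}} (L : LineBundle X) : Prop :=
  CompactSpace X ∧ ∀ x : X, ∃ m : ℕ, 0 < m ∧ ∃ s : L.Section m,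
    x ∈ s.nonvanishing ∧ IsAffineOpen s.nonvanishing

/-- A morphism of `O_X`-modules `L ⟶ T_X` from a line bundle to the tangent sheaf: the family of
the images `D i`, sections of `T_X` over `U i`, of the frames `e i`. Since `e j = g i j • e i`, the
condition is that `D j = g i j • D i` on `U i ∩ U j`. -/
structure ToTangent {k : Type u} [Field k] {X : Scheme.{u}} (L : LineBundle X)
    (p : X ⟶ Spec (CommRingCat.of k)) where
  /-- the image of the frame over `U i` -/
  D : ∀ i : L.ι, TangentSection p (L.U i)
  compat : ∀ (i j : L.ι) (V : X.Opens) (hi : V ≤ L.U i) (hj : V ≤ L.U j) (a : Γ(X, V)),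
    (D j).der V hj a = res (le_inf hi hj) (L.g i j) * (D i).der V hi a

/-- The morphism `L ⟶ T_X` is not zero. -/
def ToTangent.NonZero {k : Type u} [Field k] {X : Scheme.{u}} {L : LineBundle X}
    {p : X ⟶ Spec (CommRingCat.of k)} (φ : ToTangent L p) : Prop :=
  ∃ (i : L.ι) (V : X.Opens) (h : V ≤ L.U i) (a : Γ(X, V)), (φ.D i).der V h a ≠ 0

/-- The morphism `L ⟶ T_X` vanishes at no point, so that `L` is a subbundle of `T_X`: near every
point `x` of `U i` there is a function `a` whose derivative along the image `D i` of the frame is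
invertible. -/
def ToTangent.NowhereZero {k : Type u} [Field k] {X : Scheme.{u}} {L : LineBundle X}
    {p : X ⟶ Spec (CommRingCat.of k)} (φ : ToTangent L p) : Prop :=
  ∀ (i : L.ι) (x : X), x ∈ L.U i → ∃ (V : X.Opens) (h : V ≤ L.U i) (_ : x ∈ V) (a : Γ(X, V)),
    IsUnit ((φ.D i).der V h a)

end Pool.Agent.W5h90.CP
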