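import Pool.Agent.W5h90.CP.Geo
import Pool.Agent.W5h90.CP.Defs

/-!
The constant functions on the charts of `Proj`.
-/

set_option autoImplicit false

open AlgebraicGeometry CategoryTheory HomogeneousLocalization

universe u

namespace Pool.Agent.W5h90.CP

variable {k R : Type u} [Field k] [CommRing R] [Algebra k R]
    (ℬ : ℕ → Submodule k R) [GradedAlgebra ℬ]

lemma ι_strK {t : R} {m : ℕ} (ht : t ∈ ℬ m) (hm : 0 < m) :
    (Proj.basicOpen ℬ t).ι ≫ strK ℬ = Proj.basicOpenToSpec ℬ t ≫ Spec.map (CommRingCat.ofHom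
      ((fromZeroRingHom ℬ (Submonoid.powers t)).comp (algebraMap k (ℬ 0)))) := by
  rw [← awayι_strK ℬ ht hm, ← Proj.basicOpenIsoSpec_hom ℬ t ht hm, ← Proj.basicOpenIsoSpec_inv_ι,
    Category.assoc, Iso.hom_inv_id_assoc]

lemma appTop_strK {t : R} {m : ℕ} (ht : t ∈ ℬ m) (hm : 0 < m) :
    (strK ℬ).appTop ≫ (Proj ℬ).presheaf.map (homOfLE (le_top (a := Proj.basicOpen ℬ t))).op =
      (Scheme.ΓSpecIso _).hom ≫ CommRingCat.ofHom
      ((fromZeroRingHom ℬ (Submonoid.powers t)).comp (algebraMap k (ℬ 0))) ≫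
        Proj.awayToSection ℬ t := by
  have h := congrArg Scheme.Hom.appTop (ι_strK ℬ ht hm)
  have h1 : (Proj.basicOpenToSpec ℬ t).appTop = (Scheme.ΓSpecIso _).hom ≫ Proj.awayToSection ℬ t ≫
      (Proj.basicOpen ℬ t).topIso.inv := Proj.basicOpenToSpec_app_top ℬ t
  rw [Scheme.Hom.comp_appTop, Scheme.Hom.comp_appTop, h1, Scheme.ΓSpecIso_naturality_assoc] at h
  have h2 := congrArg (fun f => f ≫ (Proj.basicOpen ℬ t).topIso.hom) h
  simp only [Category.assoc, Iso.inv_hom_id, Category.comp_id] at h2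
  rw [← h2]
  congr 1

theorem const_strK {t : R} {m : ℕ} (ht : t ∈ ℬ m) (hm : 0 < m) (c : k) :
    const (strK ℬ) (Proj.basicOpen ℬ t) c =
      Proj.awayToSection ℬ t (fromZeroRingHom ℬ (Submonoid.powers t) (algebraMap k (ℬ 0) c)) := by
  have h := appTop_strK ℬ ht hm
  have h1 : const (strK ℬ) (Proj.basicOpen ℬ t) c =
      ((Scheme.ΓSpecIso (CommRingCat.of k)).inv ≫ ((strK ℬ).appTop ≫
        (Proj ℬ).presheaf.map (homOfLE (le_top (a := Proj.basicOpen ℬ t))).op)).hom c := rfl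
  rw [h1, h, Iso.inv_hom_id_assoc]
  rfl

theorem kap_const {F : Type u} [Field F] (i : R →+* F) (hi : Function.Injective i)
    [IsIntegral (Proj ℬ)] {t : R} {m : ℕ} (ht : t ∈ ℬ m) (hm : 0 < m)
    (hU : (Proj.basicOpen ℬ t : Set (Proj ℬ)).Nonempty) (c : k) :
    kap ℬ i hi (ev univ_nonempty (const (strK ℬ) ⊤ c)) = i (algebraMap k R c) := by
  rw [← ev_res hU univ_nonempty le_top, res_const, const_strK ℬ ht hm]
  have h1 : fromZeroRingHom ℬ (Submonoid.powers t) (algebraMap k (ℬ 0) c) =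
      Away.mk ℬ ht 0 (algebraMap k R c) (by
        rw [zero_smul]
        exact SetLike.algebraMap_mem_graded ℬ c) := by
    apply HomogeneousLocalization.val_injective
    rw [Away.val_mk]
    have h3 : (⟨t ^ 0, 0, rfl⟩ : Submonoid.powers t) = 1 := Subtype.ext (pow_zero t)
    rw [h3]
    rfl
  rw [h1]
  have h2 := kap_ev ℬ i hi hm ht 0 (s := algebraMap k R c) (by
    rw [zero_mul]
    exact SetLike.algebraMap_mem_graded ℬ c) hU
  rw [pow_zero, div_one] at h2
  exact h2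

end Pool.Agent.W5h90.CP
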