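import Pool.Agent.W5h90.CP.Closed
import Pool.Agent.W5h90.CP.Cst

/-!
The ample line bundle `O(1)` on the quadric and its nonzero morphism to the tangent sheaf.
-/

set_option autoImplicit false
set_option linter.unusedSectionVars false

open MvPolynomial HomogeneousLocalization AlgebraicGeometry CategoryTheory

universe u

namespace Pool.Agent.W5h90.CP

attribute [local instance] MvPolynomial.gradedAlgebra

noncomputable section

variable {k : Type u} [Field k] {r : ℕ}

/-- the field of fractions of the homogeneous coordinate ring -/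
abbrev FX (k : Type u) [Field k] (r : ℕ) : Type u := FractionRing (QA (hyq k r))

/-- the quadric -/
abbrev XQ (k : Type u) [Field k] (r : ℕ) : Scheme.{u} := Proj (gr (hyq k r))

/-- the quadric over `k` -/
abbrev XQs (k : Type u) [Field k] (r : ℕ) : XQ k r ⟶ Spec (CommRingCat.of k) :=
  strK (gr (hyq k r))

/-- the chart `D₊(x_c)` -/
abbrev UQ (k : Type u) [Field k] {r : ℕ} (c : HS r) : (XQ k r).Opens :=
  Proj.basicOpen (gr (hyq k r)) (inc (hyq k r) (X c))

/-- `x_d / x_c` on the chart `D₊(x_c)` -/
def fr (c : HS r) (d : HS r) : Γ(XQ k r, UQ k c) :=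
  Proj.awayToSection (gr (hyq k r)) (inc (hyq k r) (X c))
    (Away.mk (gr (hyq k r)) (inc_X_mem c) 1 (inc (hyq k r) (X d))
      (by rw [one_smul]; exact inc_X_mem d))

/-- `ω / x_c` on the chart `D₊(x_c)` -/
def frω (c : HS r) : Γ(XQ k r, UQ k c) :=
  Proj.awayToSection (gr (hyq k r)) (inc (hyq k r) (X c))
    (Away.mk (gr (hyq k r)) (inc_X_mem c) 1 (om (hyq k r))
      (by rw [one_smul]; exact om_mem))

section dom

variable [IsDomain (QA (hyq k r))] [IsIntegral (XQ k r)]

/-- the inclusion of the homogeneous coordinate ring in its field of fractions -/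
abbrev iX (k : Type u) [Field k] (r : ℕ) [IsDomain (QA (hyq k r))] : QA (hyq k r) →+* FX k r :=
  algebraMap _ _

lemma iX_inj : Function.Injective (iX k r) := IsFractionRing.injective _ _

/-- the embedding of the function field -/
abbrev kX (k : Type u) [Field k] (r : ℕ) [IsDomain (QA (hyq k r))] [IsIntegral (XQ k r)] :
    (XQ k r).functionField →+* FX k r :=
  kap (gr (hyq k r)) (iX k r) iX_inj

lemma kX_inj : Function.Injective (kX k r) := kap_injective _ _ _

lemma xX_ne (c : HS r) : iX k r (inc _ (X c)) ≠ 0 := i_X_ne _ iX_inj c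

lemma kX_fr (c d : HS r) (hU : (UQ k c : Set (XQ k r)).Nonempty) :
    kX k r (ev hU (fr c d)) = iX k r (inc _ (X d)) / iX k r (inc _ (X c)) := by
  have h := kap_ev (gr (hyq k r)) (iX k r) iX_inj one_pos (inc_X_mem c) 1
    (s := inc (hyq k r) (X d)) (by rw [one_mul]; exact inc_X_mem d) hU
  rw [pow_one] at h
  exact h

lemma kX_frω (c : HS r) (hU : (UQ k c : Set (XQ k r)).Nonempty) :
    kX k r (ev hU (frω c)) = iX k r (om _) / iX k r (inc _ (X c)) := by
  have h := kap_ev (gr (hyq k r)) (iX k r) iX_inj one_pos (inc_X_mem c) 1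
    (s := om (hyq k r)) (by rw [one_mul]; exact om_mem) hU
  rw [pow_one] at h
  exact h

/-- equality of functions on an open set `W`, checked in the field of fractions -/
lemma eq_of_kX {W : (XQ k r).Opens} {a b : Γ(XQ k r, W)}
    (h : ∀ hW : (W : Set (XQ k r)).Nonempty, kX k r (ev hW a) = kX k r (ev hW b)) : a = b := by
  by_cases hW : (W : Set (XQ k r)).Nonempty
  · exact ev_injective hW (kX_inj (h hW))
  · exact subsingleton_of_empty hW _ _

variable (k r)

/-- the line bundle `O(1)` on the quadric, with the frames `x_c` over the charts `D₊(x_c)` -/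
def OO1 : LineBundle (XQ k r) where
  ι := HS r
  U c := UQ k c
  covers x := exists_mem_chart (hyq k r) x
  g c d := res inf_le_left (fr c d)
  g_self c := by
    apply eq_of_kX
    intro hW
    have hc : (UQ k c : Set (XQ k r)).Nonempty := hW.mono inf_le_left
    rw [ev_res hW hc, kX_fr, map_one, map_one, div_self (xX_ne c)]
  cocycle i j l W hi hj hl := by
    apply eq_of_kX
    intro hW
    have h1 : (UQ k i : Set (XQ k r)).Nonempty := hW.mono hi
    have h2 : (UQ k j : Set (XQ k r)).Nonempty := hW.mono hj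
    have hi' := xX_ne (k := k) i
    have hj' := xX_ne (k := k) j
    rw [map_mul, map_mul, res_res, res_res, res_res, ev_res hW h1, ev_res hW h2, ev_res hW h1,
      kX_fr, kX_fr, kX_fr]
    field_simp

lemma fr_compat (c i j : HS r)
    (W : (XQ k r).Opens) (hi : W ≤ UQ k i) (hj : W ≤ UQ k j) :
    res hi (fr i c) = res (le_inf hi hj) (res inf_le_left (fr i j)) ^ 1 * res hj (fr j c) := by
  apply eq_of_kX
  intro hW
  have h1 : (UQ k i : Set (XQ k r)).Nonempty := hW.mono hi
  have h2 : (UQ k j : Set (XQ k r)).Nonempty := hW.mono hj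
  have hi' := xX_ne (k := k) i
  have hj' := xX_ne (k := k) j
  rw [pow_one, map_mul, map_mul, res_res, ev_res hW h1, ev_res hW h2, ev_res hW h1,
    kX_fr, kX_fr, kX_fr]
  field_simp

/-- the section `x_c` of `O(1)` -/
def sX (c : HS r) : (OO1 k r).Section 1 where
  s d := fr d c
  compat i j W hi hj := fr_compat k r c i j W hi hj

lemma basicOpen_fr (c d : HS r) : (XQ k r).basicOpen (fr (k := k) d c) ≤ UQ k c := by
  intro x hx
  have hd : x ∈ UQ k d := (XQ k r).basicOpen_le _ hx
  have hU : (UQ k d : Set (XQ k r)).Nonempty := ⟨x, hd⟩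
  rw [Scheme.mem_basicOpen (hx := hd)] at hx
  obtain ⟨b, hb⟩ := hx.exists_right_inv
  have hprime : x.asHomogeneousIdeal.toIdeal.IsPrime := x.isPrime
  obtain ⟨e, he, s, t, hs, ht, htx, h⟩ := exists_frac_stalk (gr (hyq k r)) (iX k r) iX_inj x b
  have h1 := congrArg (fun a => kX k r (algebraMap _ (XQ k r).functionField a)) hb
  simp only [map_mul, map_one] at h1
  rw [algebraMap_germ hU hd, kX_fr] at h1
  have h2 : kX k r (algebraMap _ (XQ k r).functionField b) = iX k r s / iX k r t := h
  rw [h2] at h1
  have hd' := xX_ne (k := k) d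
  have ht' : iX k r t ≠ 0 := by
    intro h0
    have : t = 0 := iX_inj (by rw [h0, map_zero])
    subst this
    exact htx (zero_mem _)
  rw [div_mul_div_comm, div_eq_one_iff_eq (mul_ne_zero hd' ht'), ← map_mul, ← map_mul] at h1
  have h3 := iX_inj h1
  intro hcx
  have h4 : inc (hyq k r) (X c) * s ∈ x.asHomogeneousIdeal.toIdeal := Ideal.mul_mem_right _ _ hcx
  rw [h3] at h4
  rcases hprime.mem_or_mem h4 with h5 | h5
  · exact hd h5
  · exact htx h5

lemma nonvanishing_sX (c : HS r) : (sX k r c).nonvanishing = UQ k c := by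
  apply le_antisymm
  · exact iSup_le fun d => basicOpen_fr k r c d
  · intro x hx
    have hU : (UQ k c : Set (XQ k r)).Nonempty := ⟨x, hx⟩
    refine TopologicalSpace.Opens.mem_iSup.mpr ⟨c, ?_⟩
    have h1 : (sX k r c).s c = 1 := by
      show fr c c = 1
      apply eq_of_kX
      intro hW
      rw [kX_fr, map_one, map_one, div_self (xX_ne c)]
    rw [h1, Scheme.basicOpen_one]
    exact hx

theorem isAmple_OO1 : (OO1 k r).IsAmple := by
  have haff : ∀ c : HS r, IsAffineOpen (UQ k c) := fun c =>
    Proj.isAffineOpen_basicOpen _ _ (inc_X_mem c) one_pos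
  refine ⟨⟨?_⟩, fun x => ?_⟩
  · have h1 : (Set.univ : Set (XQ k r)) = ⋃ c : HS r, (UQ k c : Set (XQ k r)) := by
      ext x
      simp only [Set.mem_univ, Set.mem_iUnion, true_iff]
      exact exists_mem_chart (hyq k r) x
    rw [h1]
    exact isCompact_iUnion fun c => (haff c).isCompact
  · obtain ⟨c, hc⟩ := exists_mem_chart (hyq k r) x
    refine ⟨1, one_pos, sX k r c, ?_, ?_⟩
    · rw [nonvanishing_sX]
      exact hc
    · rw [nonvanishing_sX]
      exact haff c

end dom

end

end Pool.Agent.W5h90.CP
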