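import Pool.Agent.W5h90.CP.Ufd
import Pool.Agent.W5h90.CP.Tan
import Pool.Agent.W5h90.CP.Iso

/-!
The quadric is not isomorphic to a projective space.
-/

set_option autoImplicit false
set_option linter.unusedSectionVars false

open MvPolynomial HomogeneousLocalization AlgebraicGeometry CategoryTheory

universe u

namespace Pool.Agent.W5h90.CP

attribute [local instance] MvPolynomial.gradedAlgebra

noncomputable section

theorem isIntegral_PP (k : Type u) [Field k] (m : ℕ) : IsIntegral (PP k m) :=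
  isIntegral_proj _
    ⟨1, one_pos, MvPolynomial.X 0, MvPolynomial.isHomogeneous_X k 0, MvPolynomial.X_ne_zero 0⟩

theorem isIntegral_XQ (k : Type u) [Field k] (r : ℕ) (hr : 0 < r) [IsDomain (QA (hyq k r))] :
    IsIntegral (XQ k r) :=
  isIntegral_proj _
    ⟨1, one_pos, inc (hyq k r) (MvPolynomial.X (Sum.inl ⟨0, hr⟩)), inc_X_mem _, fun h =>
      MvPolynomial.X_ne_zero (Sum.inl ⟨0, hr⟩ : HS r) (congrArg QuadraticAlgebra.re h)⟩

section general

variable {k : Type u} [Field k] {X Y : Scheme.{u}}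

lemma const_top (p : X ⟶ Spec (CommRingCat.of k)) (a : k) :
    const p ⊤ a = p.appTop.hom ((Scheme.ΓSpecIso (CommRingCat.of k)).inv.hom a) := by
  show (X.presheaf.map (homOfLE (le_top (a := (⊤ : X.Opens)))).op).hom _ = _
  have h : (homOfLE (le_top (a := (⊤ : X.Opens)))).op = 𝟙 _ := rfl
  rw [h, X.presheaf.map_id]
  rfl

lemma app_const (f : Y ⟶ X) (p : X ⟶ Spec (CommRingCat.of k)) (a : k) :
    f.app ⊤ (const p ⊤ a) = const (f ≫ p) ⊤ a := by
  rw [const_top, const_top, Scheme.Hom.comp_appTop]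
  rfl

variable [IsIntegral X] [IsIntegral Y]

lemma tau_const (e : X ≅ Y) (p : X ⟶ Spec (CommRingCat.of k)) (q : Y ⟶ Spec (CommRingCat.of k))
    (h : e.hom ≫ q = p) (a : k) :
    tau e (ev univ_nonempty (const p ⊤ a)) = ev univ_nonempty (const q ⊤ a) := by
  have h1 : e.inv ≫ p = q := by rw [← h, Iso.inv_hom_id_assoc]
  rw [tau_ev, app_const, h1]
  rfl

lemma hom_genericPoint (e : X ≅ Y) : e.hom (genericPoint X) = genericPoint Y :=
  ((specializes_of_isDominant e.hom).antisymm (genericPoint_specializes _)).eq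

lemma inv_genericPoint (e : X ≅ Y) : e.inv (genericPoint Y) = genericPoint X := by
  rw [← hom_genericPoint e, inv_hom_apply]

end general

variable {k : Type u} [Field k] [CharP k 2] {r n : ℕ} (hr : 2 ≤ r)
  [IsDomain (QA (hyq k r))] [IsIntegral (XQ k r)] [IsIntegral (PP k n)]
  (e : XQ k r ≅ PP k n)

lemma UQ_ne (c : HS r) : (UQ k c : Set (XQ k r)).Nonempty := by
  refine ⟨genericPoint _, generic_mem (gr (hyq k r)) ⟨1, one_pos, _, inc_X_mem c, ?_⟩ ?_⟩
  all_goals
    intro h
    exact xX_ne (k := k) c (by rw [h, map_zero])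

/-- the image of the point `(x_c)` -/
abbrev ηY (c : HS r) : PP k n := e.hom (ξX k hr c)

lemma ξX_notMem (k : Type u) [Field k] [CharP k 2] (c : HS r) : ξX k hr c ∉ UQ k c := by
  intro h
  exact h (Ideal.mem_span_singleton_self _)

lemma ηY_ne (c : HS r) : ηY hr e c ≠ genericPoint (PP k n) := by
  intro h
  have h1 : ξX k hr c = genericPoint (XQ k r) := by
    rw [← inv_genericPoint e, ← h, inv_hom_apply]
  apply ξX_notMem hr k c
  rw [h1]
  exact gen_mem (UQ_ne c)

lemma ηY_gen (c : HS r) (y : PP k n) (hy : y ⤳ ηY hr e c) :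
    y = genericPoint (PP k n) ∨ y = ηY hr e c := by
  have h1 : e.inv y ⤳ ξX k hr c := by
    have := hy.map e.inv.continuous
    rwa [inv_hom_apply] at this
  rcases generization_ξX k hr c _ h1 with h | h
  · left
    rw [← hom_inv_apply e y, h, hom_genericPoint]
  · right
    rw [← hom_inv_apply e y, h]

lemma preimage_UQ (c : HS r) {G : MvPolynomial (Fin (n + 1)) k}
    (hG : (ηY hr e c).asHomogeneousIdeal.toIdeal = Ideal.span {G}) :
    e.inv ⁻¹ᵁ UQ k c = UG G := by
  have h1 : ∀ x : XQ k r, x ∈ UQ k c ↔ ¬ ξX k hr c ⤳ x := by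
    intro x
    rw [specializes_iff, ξX_ideal, Ideal.span_singleton_le_iff_mem]
    rfl
  have h2 : ∀ y : PP k n, y ∈ UG G ↔ ¬ ηY hr e c ⤳ y := by
    intro y
    rw [specializes_iff, hG, Ideal.span_singleton_le_iff_mem]
    rfl
  ext y
  have h3 : ξX k hr c ⤳ e.inv y ↔ ηY hr e c ⤳ y := by
    constructor
    · intro h
      have := h.map e.hom.continuous
      rwa [hom_inv_apply] at this
    · intro h
      have := h.map e.inv.continuous
      rwa [inv_hom_apply] at this
  exact (h1 (e.inv y)).trans ((not_congr h3).trans (h2 y).symm)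

omit [IsDomain (QA (hyq k r))] [IsIntegral (XQ k r)] [IsIntegral (PP k n)] in
include hr in
lemma ufm_UQ (c : HS r) : UniqueFactorizationMonoid Γ(XQ k r, UQ k c) := by
  obtain ⟨e1, -⟩ := exists_chart k (by omega : 0 < r) c
  have h1 : UniqueFactorizationMonoid (Away (gr (hyq k r)) (inc (hyq k r) (X c))) :=
    e1.toMulEquiv.uniqueFactorizationMonoid inferInstance
  exact (Proj.basicOpenIsoAway (gr (hyq k r)) (inc (hyq k r) (X c)) (inc_X_mem c)
    one_pos).commRingCatIsoToRingEquiv.toMulEquiv.uniqueFactorizationMonoid h1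

include hr in
lemma ufm_UG (c : HS r) {G : MvPolynomial (Fin (n + 1)) k}
    (hG : (ηY hr e c).asHomogeneousIdeal.toIdeal = Ideal.span {G}) :
    UniqueFactorizationMonoid Γ(PP k n, UG G) := by
  rw [← preimage_UQ hr e c hG]
  have h1 := ufm_UQ (k := k) hr c
  exact (asIso (e.inv.app (UQ k c))).commRingCatIsoToRingEquiv.toMulEquiv.uniqueFactorizationMonoid
    h1

theorem pole (c : HS r) {G : MvPolynomial (Fin (n + 1)) k} (hG : Irreducible G)
    (hG1 : G ∈ hs k n 1) (hη : (ηY hr e c).asHomogeneousIdeal.toIdeal = Ideal.span {G})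
    {j : Fin (n + 1)} (hj : ¬ G ∣ X j) {a : QA (hyq k r)} (ha : a ∈ gr (hyq k r) 1)
    {h : (XQ k r).functionField} (hh : kX k r h = iX k r a / iX k r (inc _ (X c))) :
    ∃ L ∈ hs k n 1, kY k n (tau e h) = iY k n L / iY k n G := by
  have hxc := xX_ne (k := k) c
  have hGY : iY k n G ≠ 0 := iY_ne hG.ne_zero
  have hXY : iY k n (X j) ≠ 0 := iY_ne (X_ne_zero j)
  -- a section on the chart
  obtain ⟨s, hsx⟩ := exists_section_frac (gr (hyq k r)) (iX k r) iX_inj one_pos (inc_X_mem c)
    (UQ_ne c) 1 (a := a) (by rwa [one_mul])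
  rw [pow_one] at hsx
  have hs' : h = ev (UQ_ne c) s := kX_inj (hh.trans hsx.symm)
  have hV := preimage_UQ hr e c hη
  have ht : tau e h = ev (UG_nonempty hG) (res hV.ge (e.inv.app (UQ k c) s)) := by
    rw [hs', tau_ev, ev_res (UG_nonempty hG) (preimage_nonempty e.inv (UQ_ne c))]
  obtain ⟨m, b, hb, hbt⟩ := rep hG one_pos hG1 (res hV.ge (e.inv.app (UQ k c) s))
  rw [← ht] at hbt
  -- the uniformizer
  have hjη : X j ∉ (ηY hr e c).asHomogeneousIdeal.toIdeal := by
    rw [hη, Ideal.mem_span_singleton]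
    exact hj
  obtain ⟨ρ, hρ⟩ := exists_stalk_frac (hs k n) (iY k n) iY_inj (ηY hr e c) one_pos hG1
    (isHomogeneous_X k j) hjη
  obtain ⟨a0, ha0⟩ := exists_tau_stalk e (ξX k hr c) ρ
  obtain ⟨D, hD, s0, t0, hs0, ht0, ht0ξ, h0⟩ :=
    exists_frac_stalk (gr (hyq k r)) (iX k r) iX_inj (ξX k hr c) a0
  have ht0' : iX k r t0 ≠ 0 := by
    intro h1
    have : t0 = 0 := iX_inj (by rw [h1, map_zero])
    subst this
    exact ht0ξ (zero_mem _)
  have hs0ξ : s0 ∈ Ideal.span {inc (hyq k r) (X c)} := by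
    by_contra hcon
    have hs0' : iX k r s0 ≠ 0 := by
      intro h1
      have : s0 = 0 := iX_inj (by rw [h1, map_zero])
      subst this
      exact hcon (zero_mem _)
    obtain ⟨b0, hb0⟩ := exists_stalk_frac (gr (hyq k r)) (iX k r) iX_inj (ξX k hr c) hD ht0 hs0 hcon
    obtain ⟨ρ', hρ'⟩ := tau_stalk e (ξX k hr c) b0
    have h1 : algebraMap _ (XQ k r).functionField a0 * algebraMap _ (XQ k r).functionField b0 = 1 := by
      apply kX_inj
      have h2 : kX k r (algebraMap _ (XQ k r).functionField a0) = iX k r s0 / iX k r t0 := h0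
      have h3 : kX k r (algebraMap _ (XQ k r).functionField b0) = iX k r t0 / iX k r s0 := hb0
      rw [map_mul, h2, h3, map_one]
      field_simp
    have h2 := congrArg (fun t => kY k n (tau e t)) h1
    simp only [map_mul, map_one] at h2
    rw [ha0, ← hρ'] at h2
    obtain ⟨D', hD', s', t', hs', ht', ht'η, h'⟩ :=
      exists_frac_stalk (hs k n) (iY k n) iY_inj (ηY hr e c) ρ'
    have ht'Y : iY k n t' ≠ 0 := by
      apply iY_ne
      rintro rfl
      exact ht'η (zero_mem _)
    have h3 : kY k n (algebraMap _ (PP k n).functionField ρ) = iY k n G / iY k n (X j) := hρ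
    have h4 : kY k n (algebraMap _ (PP k n).functionField ρ') = iY k n s' / iY k n t' := h'
    rw [h3, h4, div_mul_div_comm, div_eq_one_iff_eq (mul_ne_zero hXY ht'Y), ← map_mul,
      ← map_mul] at h2
    have h5 := iY_inj h2
    have h6 : G ∣ X j * t' := ⟨s', h5.symm⟩
    rcases hG.prime.dvd_or_dvd h6 with h7 | h7
    · exact hj h7
    · apply ht'η
      show t' ∈ (ηY hr e c).asHomogeneousIdeal.toIdeal
      rw [hη, Ideal.mem_span_singleton]
      exact h7
  obtain ⟨s1, rfl⟩ := Ideal.mem_span_singleton.mp hs0ξ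
  have hx0 : inc (hyq k r) (X c) ≠ 0 := by
    intro h1
    rw [h1, map_zero] at hxc
    exact hxc rfl
  have hs1a : s1 * a ∈ gr (hyq k r) D := by
    refine mem_of_mul_mem (gr (hyq k r)) (inc_X_mem c) hx0 ?_
    rw [← mul_assoc, add_comm]
    exact SetLike.mul_mem_graded hs0 ha
  obtain ⟨b1, hb1⟩ := exists_stalk_frac (gr (hyq k r)) (iX k r) iX_inj (ξX k hr c) hD hs1a ht0 ht0ξ
  obtain ⟨ρ1, hρ1⟩ := tau_stalk e (ξX k hr c) b1
  have h1 : algebraMap _ (XQ k r).functionField b1 = algebraMap _ (XQ k r).functionField a0 * h := by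
    apply kX_inj
    have h2 : kX k r (algebraMap _ (XQ k r).functionField a0) =
      iX k r (inc (hyq k r) (X c) * s1) / iX k r t0 := h0
    have h3 : kX k r (algebraMap _ (XQ k r).functionField b1) = iX k r (s1 * a) / iX k r t0 := hb1
    rw [map_mul, h2, h3, hh, map_mul, map_mul]
    field_simp
  have h2 := congrArg (fun t => kY k n (tau e t)) h1
  simp only [map_mul] at h2
  rw [ha0, ← hρ1] at h2
  obtain ⟨D2, hD2, s2, t2, hs2, ht2, ht2η, h'⟩ :=
    exists_frac_stalk (hs k n) (iY k n) iY_inj (ηY hr e c) ρ1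
  have ht2Y : iY k n t2 ≠ 0 := by
    apply iY_ne
    rintro rfl
    exact ht2η (zero_mem _)
  have h3 : kY k n (algebraMap _ (PP k n).functionField ρ) = iY k n G / iY k n (X j) := hρ
  have h4 : kY k n (algebraMap _ (PP k n).functionField ρ1) = iY k n s2 / iY k n t2 := h'
  rw [h3, h4, hbt, div_mul_div_comm, div_eq_div_iff ht2Y (mul_ne_zero hXY (pow_ne_zero _ hGY)),
    ← map_pow, ← map_mul, ← map_mul, ← map_mul, ← map_mul] at h2
  have h5 := iY_inj h2
  have h6 : G ^ m ∣ G * b * t2 := ⟨s2 * X j, by rw [← h5]; ring⟩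
  have h7 : ¬ G ∣ t2 := by
    intro h8
    apply ht2η
    show t2 ∈ (ηY hr e c).asHomogeneousIdeal.toIdeal
    rw [hη, Ideal.mem_span_singleton]
    exact h8
  have h8 := hG.prime.pow_dvd_of_dvd_mul_right m h7 h6
  obtain ⟨L, hL⟩ := h8
  refine ⟨L, ?_, ?_⟩
  · refine mem_of_mul_mem (hs k n) (hs_pow hG1 m) (pow_ne_zero m hG.ne_zero) ?_
    rw [← hL]
    have h9 := hs_mul hG1 hb
    rwa [Nat.add_comm 1 (m * 1)] at h9
  · rw [hbt, div_eq_div_iff (pow_ne_zero _ hGY) hGY, ← map_pow, ← map_mul, ← map_mul]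
    congr 1
    rw [mul_comm b G, hL]
    ring

lemma UPN_ne : (Proj.basicOpen (hs k n) (X 0) : Set (PP k n)).Nonempty :=
  ⟨genericPoint _, generic_mem (hs k n) ⟨1, one_pos, X 0, isHomogeneous_X k 0, X_ne_zero 0⟩
    (X_ne_zero 0)⟩

lemma kY_const (a : k) :
    kY k n (ev univ_nonempty (const (PPstr k n) ⊤ a)) = iY k n (C a) :=
  kap_const (hs k n) (iY k n) iY_inj (isHomogeneous_X k 0) one_pos UPN_ne a

lemma kX_const' (c : HS r) (a : k) :
    kX k r (ev univ_nonempty (const (XQs k r) ⊤ a)) = iX k r (inc _ (C a)) := by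
  rw [← algebraMap_QA]
  exact kap_const (gr (hyq k r)) (iX k r) iX_inj (inc_X_mem c) one_pos (UQ_ne c) a

include hr in
/-- The quadric `ω² = Σ x_i y_i`, `r ≥ 2`, over a field of characteristic two, is not isomorphic to
a projective space. -/
theorem not_iso (he : e.hom ≫ PPstr k n = XQs k r) : False := by
  classical
  let c : HS r := Sum.inl ⟨0, by omega⟩
  obtain ⟨G, d, hG, hd, hGd, hη⟩ := exists_irreducible (ηY hr e c) (ηY_ne hr e c) (ηY_gen hr e c)
  have hp : (ηY hr e c).asHomogeneousIdeal.toIdeal.IsPrime := (ηY hr e c).isPrime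
  obtain ⟨j, hj⟩ := exists_X_notMem_PN (ηY hr e c).asHomogeneousIdeal.toIdeal
    (ηY hr e c).not_irrelevant_le
  rw [hη, Ideal.mem_span_singleton] at hj
  have := ufm_UG hr e c hη
  obtain rfl := degree_eq_one hG hd hGd hj
  have hGY : iY k n G ≠ 0 := iY_ne hG.ne_zero
  have hxc := xX_ne (k := k) c
  -- the coordinates
  have hL : ∀ s : HS r, ∃ L ∈ hs k n 1,
      kY k n (tau e (ev (UQ_ne c) (fr c s))) = iY k n L / iY k n G := fun s =>
    pole hr e c hG hGd hη hj (inc_X_mem s) (kX_fr c s (UQ_ne c))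
  choose L hL1 hL2 using hL
  obtain ⟨H, hH1, hH2⟩ := pole hr e c hG hGd hη hj om_mem (kX_frω c (UQ_ne c))
  -- the relation
  have hrel : ev (UQ_ne c) (frω (k := k) c) * ev (UQ_ne c) (frω (k := k) c) =
      ∑ i : Fin r, ev (UQ_ne c) (fr (k := k) c (Sum.inl i)) *
        ev (UQ_ne c) (fr (k := k) c (Sum.inr i)) := by
    apply kX_inj
    rw [map_mul, map_sum, kX_frω]
    have h1 : iX k r (om (hyq k r)) * iX k r (om (hyq k r)) =
        ∑ i : Fin r, iX k r (inc _ (X (Sum.inl i))) * iX k r (inc _ (X (Sum.inr i))) := by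
      have h2 : inc (hyq k r) (hyq k r) =
          ∑ i : Fin r, inc (hyq k r) (X (Sum.inl i)) * inc (hyq k r) (X (Sum.inr i)) := by
        have h3 : inc (hyq k r) (hyq k r) =
          inc (hyq k r) (∑ i : Fin r, X (Sum.inl i) * X (Sum.inr i)) := rfl
        rw [h3, map_sum]
        simp only [map_mul]
      rw [← map_mul, om_mul_om, h2, map_sum]
      simp only [map_mul]
    rw [div_mul_div_comm, h1, Finset.sum_div]
    refine Finset.sum_congr rfl fun i _ => ?_
    rw [map_mul (kX k r), kX_fr, kX_fr, div_mul_div_comm]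
  have hrel2 : H * H = ∑ i : Fin r, L (Sum.inl i) * L (Sum.inr i) := by
    apply iY_inj
    have h1 := congrArg (fun t => kY k n (tau e t)) hrel
    simp only [map_mul, map_sum] at h1
    rw [hH2] at h1
    simp only [hL2] at h1
    simp only [div_mul_div_comm] at h1
    rw [← Finset.sum_div, div_left_inj' (mul_ne_zero hGY hGY)] at h1
    rw [map_mul, map_sum, h1]
    simp only [map_mul]
  -- `L c = G`
  have hLc : L c = G := by
    have h1 : ev (UQ_ne c) (fr (k := k) c c) = 1 := by
      apply kX_inj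
      rw [kX_fr, map_one, div_self hxc]
    have h2 := hL2 c
    rw [h1, map_one, map_one, eq_comm, div_eq_one_iff_eq hGY] at h2
    exact iY_inj h2
  -- the derivatives
  have hα : ∀ (j' : Fin (n + 1)) (s : HS r), ∃ α : k, pderiv j' (L s) = C α := by
    intro j' s
    have h1 : (L s).IsHomogeneous 1 := hL1 s
    have h2 : (pderiv j' (L s)).IsHomogeneous 0 := h1.pderiv
    have h3 : (pderiv j' (L s)).totalDegree = 0 := by
      rw [totalDegree_zero_iff_isHomogeneous]
      exact h2
    exact ⟨_, totalDegree_eq_zero_iff_eq_C.mp h3⟩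
  choose α hα using hα
  have hz : ∀ j' : Fin (n + 1), pderiv j' G = 0 := by
    intro j'
    have h1 : ∑ s : HS r, C (α j' s.swap) * L s = 0 := by
      have h2 := congrArg (pderiv j') hrel2
      have h3 : (2 : MvPolynomial (Fin (n + 1)) k) = 0 := CharTwo.two_eq_zero
      rw [Derivation.leibniz, map_sum, smul_eq_mul] at h2
      have h4 : (0 : MvPolynomial (Fin (n + 1)) k) =
          ∑ i : Fin r, pderiv j' (L (Sum.inl i) * L (Sum.inr i)) := by
        rw [← h2]
        linear_combination (-(H * pderiv j' H)) * h3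
      rw [Fintype.sum_sum_type, ← Finset.sum_add_distrib, h4]
      refine Finset.sum_congr rfl fun i _ => ?_
      rw [Derivation.leibniz, hα, hα, smul_eq_mul, smul_eq_mul, Sum.swap_inl, Sum.swap_inr]
      ring
    have h2 : ∑ s : HS r, ev univ_nonempty (const (XQs k r) ⊤ (α j' s.swap)) *
        ev (UQ_ne c) (fr (k := k) c s) = 0 := by
      apply (tau e).injective
      apply kY_inj
      rw [map_sum, map_sum, map_zero, map_zero]
      have h3 : ∀ s : HS r, kY k n (tau e (ev univ_nonempty (const (XQs k r) ⊤ (α j' s.swap)) *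
          ev (UQ_ne c) (fr (k := k) c s))) = iY k n (C (α j' s.swap) * L s) / iY k n G := by
        intro s
        rw [map_mul, map_mul, tau_const e (XQs k r) (PPstr k n) he, kY_const, hL2, map_mul,
          mul_div_assoc]
      rw [Finset.sum_congr rfl fun s _ => h3 s, ← Finset.sum_div, ← map_sum, h1, map_zero, zero_div]
    have h3 := congrArg (kX k r) h2
    rw [map_sum, map_zero] at h3
    have h4 : ∀ s : HS r, kX k r (ev univ_nonempty (const (XQs k r) ⊤ (α j' s.swap)) *
        ev (UQ_ne c) (fr (k := k) c s)) =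
          iX k r (inc _ (C (α j' s.swap) * X s)) / iX k r (inc _ (X c)) := by
      intro s
      rw [map_mul, kX_const' c, kX_fr, map_mul, map_mul, mul_div_assoc]
    rw [Finset.sum_congr rfl fun s _ => h4 s, ← Finset.sum_div, ← map_sum, ← map_sum,
      div_eq_zero_iff, or_iff_left hxc] at h3
    have h5 : inc (hyq k r) (∑ s : HS r, C (α j' s.swap) * X s) = 0 :=
      iX_inj (by rw [h3, map_zero])
    have h6 : ∑ s : HS r, C (α j' s.swap) * X s = (0 : MvPolynomial (HS r) k) :=
      congrArg QuadraticAlgebra.re h5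
    have h7 := congrArg (pderiv c.swap) h6
    rw [map_sum, map_zero, Finset.sum_eq_single c.swap] at h7
    · rw [Derivation.leibniz, pderiv_X_self, pderiv_C, smul_zero, add_zero, smul_eq_mul, mul_one,
        Sum.swap_swap] at h7
      rw [← hLc, hα, C_eq_zero.mp h7, map_zero]
    · intro s _ hs'
      rw [Derivation.leibniz, pderiv_X_of_ne hs', pderiv_C, smul_zero, smul_zero, add_zero]
    · intro h
      exact absurd (Finset.mem_univ _) h
  have hG1 : G.IsHomogeneous 1 := hGd
  have hE := hG1.sum_X_mul_pderiv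
  rw [Finset.sum_eq_zero (fun i _ => by rw [hz, mul_zero]), one_smul] at hE
  exact hG.ne_zero hE.symm

end

end Pool.Agent.W5h90.CP
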