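import Pool.Agent.W5h90.CP.QA

/-!
`QA q` in characteristic two: it is a domain if `q` has a nonzero derivative; the derivation
`∂/∂ω`; algebra homomorphisms out of `QA q`.
-/

set_option autoImplicit false

open MvPolynomial

universe u

namespace Pool.Agent.W5h90.CP

noncomputable section

variable {k : Type u} [Field k] {σ : Type}

section domain

lemma sq_add_mul_sq [CharP k 2] {q f g : MvPolynomial σ k} {s : σ} (hs : pderiv s q ≠ 0)
    (h : f * f + q * (g * g) = 0) : f = 0 ∧ g = 0 := by
  have h2 : (2 : MvPolynomial σ k) = 0 := CharTwo.two_eq_zero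
  have h1 : pderiv s (f * f + q * (g * g)) = 0 := by rw [h, map_zero]
  rw [map_add, Derivation.leibniz, Derivation.leibniz, Derivation.leibniz] at h1
  simp only [smul_eq_mul] at h1
  have h3 : g * g * pderiv s q = 0 := by
    linear_combination h1 - (f * pderiv s f + q * g * pderiv s g) * h2
  have h4 : g = 0 := by
    rcases mul_eq_zero.mp h3 with h5 | h5
    · exact mul_self_eq_zero.mp h5
    · exact absurd h5 hs
  subst h4
  refine ⟨?_, rfl⟩
  rw [mul_zero, mul_zero, add_zero] at h
  exact mul_self_eq_zero.mp h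

theorem isDomain_QA [CharP k 2] {q : MvPolynomial σ k} {s : σ} (hs : pderiv s q ≠ 0) :
    IsDomain (QA q) := by
  have h0 : ∀ a : QA q, QuadraticAlgebra.norm a = 0 → a = 0 := by
    intro a ha
    rw [QuadraticAlgebra.norm_def] at ha
    have h2 : (2 : MvPolynomial σ k) = 0 := CharTwo.two_eq_zero
    have h1 : a.re * a.re + q * (a.im * a.im) = 0 := by
      linear_combination ha + q * a.im * a.im * h2
    obtain ⟨h3, h4⟩ := sq_add_mul_sq hs h1
    exact QuadraticAlgebra.ext h3 h4
  have : NoZeroDivisors (QA q) := by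
    refine ⟨fun {a b} hab => ?_⟩
    have h1 : QuadraticAlgebra.norm a * QuadraticAlgebra.norm b = 0 := by
      rw [← map_mul, hab, QuadraticAlgebra.norm_zero]
    rcases mul_eq_zero.mp h1 with h | h
    · exact Or.inl (h0 a h)
    · exact Or.inr (h0 b h)
  exact NoZeroDivisors.to_isDomain _

end domain

section der

/-- the derivation `∂/∂ω` -/
def dω [CharP k 2] (q : MvPolynomial σ k) : Derivation k (QA q) (QA q) where
  toFun a := ⟨a.im, 0⟩
  map_add' a b := by
    apply QuadraticAlgebra.ext
    · rfl
    · simp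
  map_smul' c a := by
    apply QuadraticAlgebra.ext
    · rfl
    · simp
  map_one_eq_zero' := rfl
  leibniz' a b := by
    have h2 : (2 : MvPolynomial σ k) = 0 := CharTwo.two_eq_zero
    apply QuadraticAlgebra.ext
    · simp
      ring
    · simp
      linear_combination (-(a.im * b.im)) * h2

lemma dω_apply [CharP k 2] (q : MvPolynomial σ k) (a : QA q) : dω q a = ⟨a.im, 0⟩ := rfl

end der

section lift

variable {E : Type*} [CommRing E] {q : MvPolynomial σ k}

/-- homomorphisms out of `QA q` -/
def liftHom (φ : MvPolynomial σ k →+* E) (w : E) (hw : w * w = φ q) : QA q →+* E where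
  toFun a := φ a.re + φ a.im * w
  map_one' := by
    rw [QuadraticAlgebra.re_one, QuadraticAlgebra.im_one, map_one, map_zero, zero_mul, add_zero]
  map_zero' := by
    rw [QuadraticAlgebra.re_zero, QuadraticAlgebra.im_zero, map_zero, zero_mul, add_zero]
  map_add' a b := by
    rw [QuadraticAlgebra.re_add, QuadraticAlgebra.im_add, map_add, map_add]
    ring
  map_mul' a b := by
    rw [re_mul', im_mul', map_add, map_add, map_mul, map_mul, map_mul, map_mul, map_mul]
    linear_combination (-(φ a.im * φ b.im)) * hw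

lemma liftHom_apply (φ : MvPolynomial σ k →+* E) (w : E) (hw : w * w = φ q) (a : QA q) :
    liftHom φ w hw a = φ a.re + φ a.im * w := rfl

/-- the polynomials in `QA q` -/
abbrev inc (q : MvPolynomial σ k) : MvPolynomial σ k →+* QA q :=
  algebraMap (MvPolynomial σ k) (QA q)

/-- the element `ω` of `QA q` -/
abbrev om (q : MvPolynomial σ k) : QA q := ⟨0, 1⟩

lemma inc_re (f : MvPolynomial σ k) : (inc q f).re = f := rfl

lemma inc_im (f : MvPolynomial σ k) : (inc q f).im = 0 := rfl

lemma om_mul_om : om q * om q = inc q q := by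
  apply QuadraticAlgebra.ext
  · rw [re_mul', inc_re]
    simp
  · rw [im_mul', inc_im]
    simp

lemma eq_inc_add (a : QA q) : a = inc q a.re + inc q a.im * om q := by
  apply QuadraticAlgebra.ext
  · rw [QuadraticAlgebra.re_add, inc_re, re_mul', inc_im]
    simp
  · rw [QuadraticAlgebra.im_add, inc_im, im_mul', inc_im, inc_re]
    simp

lemma liftHom_inc (φ : MvPolynomial σ k →+* E) (w : E) (hw : w * w = φ q)
    (f : MvPolynomial σ k) : liftHom φ w hw (inc q f) = φ f := by
  rw [liftHom_apply, inc_re, inc_im, map_zero, zero_mul, add_zero]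

lemma liftHom_om (φ : MvPolynomial σ k →+* E) (w : E) (hw : w * w = φ q) :
    liftHom φ w hw (om q) = w := by
  rw [liftHom_apply, map_zero, map_one, one_mul, zero_add]

lemma QA_hom_ext {f g : QA q →+* E} (h1 : f.comp (inc q) = g.comp (inc q))
    (h2 : f (om q) = g (om q)) : f = g := by
  ext a
  rw [eq_inc_add a, map_add, map_mul, map_add, map_mul, h2]
  have h3 : ∀ b, f (inc q b) = g (inc q b) := fun b => congrArg (fun t => t b) h1
  rw [h3, h3]

lemma algebraMap_QA (c : k) : algebraMap k (QA q) c = inc q (C c) := by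
  rw [inc, ← MvPolynomial.algebraMap_eq, ← IsScalarTower.algebraMap_apply]

end lift

section grading

variable {q : MvPolynomial σ k}

lemma inc_mem {n : ℕ} {f : MvPolynomial σ k} (hf : f ∈ homogeneousSubmodule σ k n) :
    inc q f ∈ gr q n := ⟨hf, zero_mem _⟩

lemma om_mem : om q ∈ gr q 1 := ⟨zero_mem _, isHomogeneous_one σ k⟩

lemma inc_X_mem (s : σ) : inc q (X s) ∈ gr q 1 := inc_mem (isHomogeneous_X k s)

lemma mul_dω_mem [CharP k 2] (s : σ) {n : ℕ} {a : QA q} (ha : a ∈ gr q n) :
    inc q (X s) * dω q a ∈ gr q n := by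
  rw [dω_apply]
  cases n with
  | zero =>
    have h : a.im = 0 := ha.2
    rw [h]
    have : (⟨0, 0⟩ : QA q) = 0 := rfl
    rw [this, mul_zero]
    exact zero_mem _
  | succ n =>
    have h : a.im ∈ homogeneousSubmodule σ k n := ha.2
    have h1 : (⟨a.im, 0⟩ : QA q) = inc q a.im := rfl
    rw [h1, ← map_mul]
    apply inc_mem
    rw [add_comm]
    exact hmul (isHomogeneous_X k s) h

lemma coeff_zero_of_pos {n : ℕ} (hn : 0 < n) {a : QA q} (ha : a ∈ gr q n) :
    MvPolynomial.coeff 0 a.re = 0 := by
  have h : IsHomogeneous a.re n := ha.1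
  by_contra h1
  have := h h1
  simp at this
  omega

end grading

end

end Pool.Agent.W5h90.CP
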