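import Pool.Agent.W5h90.CP.Alg

/-!
The chart `D₊(x_c)` of `Proj (QA q)`, where `q = x_c x_c' + (terms in the other variables)`, is an
affine space.
-/

set_option autoImplicit false

open MvPolynomial HomogeneousLocalization

universe u

namespace Pool.Agent.W5h90.CP

attribute [local instance] MvPolynomial.gradedAlgebra

noncomputable section

section deh

variable {σ' : Type*} {A : Type u} [CommRing A] [SetLike σ' A] [AddSubgroupClass σ' A]
  (𝒜 : ℕ → σ') [GradedRing 𝒜] {B : Type*} [CommRing B] (f : A)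

/-- Dehomogenization. -/
def dehA (ε : A →+* B) (h : ε f = 1) : Away 𝒜 f →+* B :=
  (IsLocalization.Away.lift (S := Localization.Away f) f (g := ε)
    (by rw [h]; exact isUnit_one)).comp (algebraMap (Away 𝒜 f) (Localization.Away f))

lemma dehA_mk (ε : A →+* B) (h : ε f = 1) {m : ℕ} (hf : f ∈ 𝒜 m) (n : ℕ) (s : A)
    (hs : s ∈ 𝒜 (n • m)) : dehA 𝒜 f ε h (Away.mk 𝒜 hf n s hs) = ε s := by
  have hu : IsUnit (ε f) := by rw [h]; exact isUnit_one
  have h1 : dehA 𝒜 f ε h (Away.mk 𝒜 hf n s hs) =
      IsLocalization.Away.lift (S := Localization.Away f) f (g := ε) hu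
        (Away.mk 𝒜 hf n s hs).val := rfl
  rw [h1, Away.val_mk]
  have h2 : ∀ a : A, IsLocalization.Away.lift (S := Localization.Away f) f (g := ε) hu
      (algebraMap _ _ a) = ε a := fun a =>
    IsLocalization.Away.lift_eq (S := Localization.Away f) f hu a
  have h4 : IsLocalization.Away.lift (S := Localization.Away f) f (g := ε) hu
      (algebraMap _ _ (f ^ n)) = 1 := by
    rw [h2, map_pow, h, one_pow]
  have h5 : (Localization.mk s ⟨f ^ n, n, rfl⟩ : Localization.Away f) *
      algebraMap _ _ (f ^ n) = algebraMap _ _ s := by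
    rw [← Localization.mk_one_eq_algebraMap, ← Localization.mk_one_eq_algebraMap,
      Localization.mk_mul, Localization.mk_eq_mk_iff, Localization.r_iff_exists]
    exact ⟨1, by simp [mul_comm]⟩
  have h6 := congrArg (IsLocalization.Away.lift (S := Localization.Away f) f (g := ε) hu) h5
  rw [map_mul, h4, mul_one, h2] at h6
  exact h6

lemma dehA_injective (ε : A →+* B) (h : ε f = 1) {m : ℕ} (hf : f ∈ 𝒜 m)
    (hinj : ∀ n : ℕ, ∀ s ∈ 𝒜 (n • m), ε s = 0 → s = 0) :
    Function.Injective (dehA 𝒜 f ε h) := by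
  rw [injective_iff_map_eq_zero]
  intro a ha
  obtain ⟨n, s, hs, rfl⟩ := Away.mk_surjective 𝒜 hf a
  rw [dehA_mk] at ha
  have := hinj n s hs ha
  subst this
  apply HomogeneousLocalization.val_injective
  rw [Away.val_mk, Localization.mk_zero, HomogeneousLocalization.val_zero]

end deh

section scale

variable {k : Type u} [Field k] {σ : Type} {F : Type*} [CommRing F]

lemma hom_scale (φ ψ : MvPolynomial σ k →+* F) (t : F) (hC : ∀ c, φ (C c) = ψ (C c))
    (hX : ∀ s, φ (X s) * t = ψ (X s)) {n : ℕ} {f : MvPolynomial σ k}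
    (hf : f ∈ homogeneousSubmodule σ k n) : φ f * t ^ n = ψ f := by
  have hf' : f.IsHomogeneous n := hf
  have h1 := f.as_sum
  rw [h1, map_sum, map_sum, Finset.sum_mul]
  refine Finset.sum_congr rfl fun d hd => ?_
  have hd' : d.degree = n := by
    rw [Finsupp.degree_apply]
    exact (hf'.degree_eq_sum_deg_support hd).symm
  rw [monomial_eq, map_mul, map_mul, hC, mul_assoc]
  congr 1
  rw [Finsupp.prod, map_prod, map_prod, ← hd', Finsupp.degree_apply, ← Finset.prod_pow_eq_pow_sum,
    ← Finset.prod_mul_distrib]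
  refine Finset.prod_congr rfl fun s _ => ?_
  rw [map_pow, map_pow, ← mul_pow, hX]

lemma QA_scale {q : MvPolynomial σ k} (φ ψ : QA q →+* F) (t : F)
    (hC : ∀ c, φ (inc q (C c)) = ψ (inc q (C c)))
    (hX : ∀ s, φ (inc q (X s)) * t = ψ (inc q (X s))) (hω : φ (om q) * t = ψ (om q)) {n : ℕ}
    {a : QA q} (ha : a ∈ gr q n) : φ a * t ^ n = ψ a := by
  have h1 : ∀ (m : ℕ) (f : MvPolynomial σ k), f ∈ homogeneousSubmodule σ k m →
      φ (inc q f) * t ^ m = ψ (inc q f) := fun m f hf =>
    hom_scale (φ.comp (inc q)) (ψ.comp (inc q)) t hC hX hf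
  rw [eq_inc_add a]
  cases n with
  | zero =>
    have h : a.im = 0 := ha.2
    rw [h, map_zero, zero_mul, add_zero]
    exact h1 0 _ ha.1
  | succ n =>
    have h : a.im ∈ homogeneousSubmodule σ k n := ha.2
    rw [map_add, map_add, map_mul, map_mul, add_mul, h1 _ _ ha.1, ← h1 _ _ h, ← hω]
    ring

end scale

section chart

variable {k : Type u} [Field k] {σ : Type} {c c' : σ}
  (q'' : MvPolynomial {s : σ // s ≠ c ∧ s ≠ c'} k) (hcc : c ≠ c')

/-- the variables of the chart -/
abbrev Tau (c' : σ) : Type := {s : σ // s ≠ c'}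

open Classical in
/-- the coordinates `x_s / x_c` of the chart -/
def chU (s : σ) : MvPolynomial (Tau c') k :=
  if h : s = c' then X ⟨c, hcc⟩ ^ 2 - rename (fun s => ⟨s.1, s.2.2⟩) q''
  else if s = c then 1 else X ⟨s, h⟩

lemma chU_self : chU q'' hcc c = 1 := by
  rw [chU, dif_neg hcc, if_pos rfl]

lemma chU_partner : chU q'' hcc c' =
    X ⟨c, hcc⟩ ^ 2 - rename (fun s => ⟨s.1, s.2.2⟩) q'' := by
  rw [chU, dif_pos rfl]

lemma chU_other {s : σ} (h : s ≠ c') (h' : s ≠ c) : chU q'' hcc s = X ⟨s, h⟩ := by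
  rw [chU, dif_neg h, if_neg h']

/-- dehomogenization of polynomials -/
def chE0 : MvPolynomial σ k →ₐ[k] MvPolynomial (Tau c') k := aeval (chU q'' hcc)

lemma chE0_X (s : σ) : chE0 q'' hcc (X s) = chU q'' hcc s := by
  rw [chE0, aeval_X]

lemma chE0_rename : chE0 q'' hcc (rename Subtype.val q'') =
    rename (fun s => ⟨s.1, s.2.2⟩) q'' := by
  rw [chE0, aeval_rename, rename_eq_aeval]
  congr 1
  apply congrArg
  funext s
  exact chU_other q'' hcc s.2.2 s.2.1

variable {q : MvPolynomial σ k} (hq : q = X c * X c' + rename Subtype.val q'')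

include hq in
lemma chE0_q : (X ⟨c, hcc⟩ : MvPolynomial (Tau c') k) * X ⟨c, hcc⟩ = chE0 q'' hcc q := by
  rw [hq, map_add, map_mul, chE0_X, chE0_X, chU_self, chU_partner, chE0_rename]
  ring

/-- dehomogenization -/
def chE : QA q →+* MvPolynomial (Tau c') k :=
  liftHom (chE0 q'' hcc).toRingHom (X ⟨c, hcc⟩) (chE0_q q'' hcc hq)

lemma chE_X (s : σ) : chE q'' hcc hq (inc q (X s)) = chU q'' hcc s := by
  rw [chE, liftHom_inc]
  exact chE0_X q'' hcc s

lemma chE_C (a : k) : chE q'' hcc hq (inc q (C a)) = C a := by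
  rw [chE, liftHom_inc]
  exact (chE0 q'' hcc).commutes a

lemma chE_om : chE q'' hcc hq (om q) = X ⟨c, hcc⟩ := by
  rw [chE, liftHom_om]

lemma chE_self : chE q'' hcc hq (inc q (X c)) = 1 := by
  rw [chE_X, chU_self]

variable [Fact (q ∈ homogeneousSubmodule σ k 2)]

/-- the coordinate ring of the chart -/
def chG : Away (gr q) (inc q (X c)) →+* MvPolynomial (Tau c') k :=
  dehA (gr q) (inc q (X c)) (chE q'' hcc hq) (chE_self q'' hcc hq)

lemma chG_surjective : Function.Surjective (chG q'' hcc hq) := by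
  intro p
  induction p using MvPolynomial.induction_on with
  | C a =>
    refine ⟨Away.mk (gr q) (inc_X_mem c) 0 (inc q (C a)) ?_, ?_⟩
    · rw [zero_smul]; exact inc_mem (isHomogeneous_C _ _)
    · rw [chG, dehA_mk, chE_C]
  | add p q hp hq =>
    obtain ⟨a, rfl⟩ := hp
    obtain ⟨b, rfl⟩ := hq
    exact ⟨a + b, map_add _ _ _⟩
  | mul_X p s hp =>
    obtain ⟨a, rfl⟩ := hp
    by_cases h : s.1 = c
    · refine ⟨a * Away.mk (gr q) (inc_X_mem c) 1 (om q) ?_, ?_⟩
      · rw [one_smul]; exact om_mem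
      · rw [map_mul]
        congr 1
        rw [chG, dehA_mk, chE_om]
        congr 1
        exact Subtype.ext h.symm
    · refine ⟨a * Away.mk (gr q) (inc_X_mem c) 1 (inc q (X s.1)) ?_, ?_⟩
      · rw [one_smul]; exact inc_X_mem _
      · rw [map_mul]
        congr 1
        rw [chG, dehA_mk, chE_X, chU_other q'' hcc s.2 h]

end chart

section inj

variable {k : Type u} [Field k] {σ : Type} {c c' : σ}
  (q'' : MvPolynomial {s : σ // s ≠ c ∧ s ≠ c'} k) (hcc : c ≠ c')
  {q : MvPolynomial σ k} (hq : q = X c * X c' + rename Subtype.val q'')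
  {F : Type u} [Field F] (i : QA q →+* F) (hi : Function.Injective i)

open Classical in
/-- the chart coordinates in the field `F` -/
def chR (i : QA q →+* F) : MvPolynomial (Tau c') k →+* F :=
  eval₂Hom (i.comp ((inc q).comp C)) fun s =>
    if s.1 = c then i (om q) / i (inc q (X c)) else i (inc q (X s.1)) / i (inc q (X c))

lemma chR_C (a : k) : chR (c := c) (c' := c') i (C a) = i (inc q (C a)) := by
  rw [chR, eval₂Hom_C]
  rfl

lemma chR_X_self : chR (c := c) (c' := c') i (X ⟨c, hcc⟩) = i (om q) / i (inc q (X c)) := by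
  rw [chR, eval₂Hom_X', if_pos rfl]

lemma chR_X_other {s : σ} (h : s ≠ c') (h' : s ≠ c) :
    chR (c := c) (c' := c') i (X ⟨s, h⟩) = i (inc q (X s)) / i (inc q (X c)) := by
  rw [chR, eval₂Hom_X', if_neg h']

lemma isHom_q'' (hq : q = X c * X c' + rename Subtype.val q'')
    (h : q ∈ homogeneousSubmodule σ k 2) : q'' ∈ homogeneousSubmodule _ k 2 := by
  have h1 : (rename Subtype.val q'' : MvPolynomial σ k).IsHomogeneous 2 := by
    have h2 : (rename Subtype.val q'' : MvPolynomial σ k) = q - X c * X c' := by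
      rw [hq]; ring
    rw [h2]
    exact IsHomogeneous.sub h (hmul (isHomogeneous_X k c) (isHomogeneous_X k c'))
  exact (IsHomogeneous.rename_isHomogeneous_iff Subtype.val_injective).mp h1

include hi

lemma i_X_ne (s : σ) : i (inc q (X s)) ≠ 0 := by
  intro h
  have h1 : inc q (X s) = 0 := hi (by rw [h, map_zero])
  have h2 : (X s : MvPolynomial σ k) = 0 := congrArg QuadraticAlgebra.re h1
  exact X_ne_zero s h2

lemma chR_rename (hq'' : q'' ∈ homogeneousSubmodule _ k 2) :
    chR (c := c) (c' := c') i (rename (fun s => ⟨s.1, s.2.2⟩) q'') *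
        i (inc q (X c)) ^ 2 = i (inc q (rename Subtype.val q'')) := by
  have ht := i_X_ne (q := q) i hi c
  have h := hom_scale ((chR (c := c) (c' := c') i).comp
    (rename (fun s : {s : σ // s ≠ c ∧ s ≠ c'} => (⟨s.1, s.2.2⟩ : Tau c'))).toRingHom)
        ((i.comp (inc q)).comp
          (rename (Subtype.val : {s : σ // s ≠ c ∧ s ≠ c'} → σ)).toRingHom) (i (inc q (X c)))
      (fun a => by
        show chR i (rename _ (C a)) = i (inc q (rename _ (C a)))
        rw [rename_C, rename_C, chR_C])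
      (fun s' => by
        show chR i (rename _ (X s')) * _ = i (inc q (rename _ (X s')))
        rw [rename_X, rename_X, chR_X_other i s'.2.2 s'.2.1, div_mul_cancel₀ _ ht]) hq''
  exact h

include hq

lemma chR_chE_X (h2 : q ∈ homogeneousSubmodule σ k 2) (s : σ) :
    chR (c := c) (c' := c') i (chE q'' hcc hq (inc q (X s))) *
    i (inc q (X c)) = i (inc q (X s)) := by
  have ht := i_X_ne (q := q) i hi c
  rw [chE_X]
  by_cases h : s = c'
  · rw [h, chU_partner, map_sub, map_pow, chR_X_self hcc]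
    have h3 := chR_rename q'' i hi (isHom_q'' q'' hq h2)
    have h4 : i (om q) * i (om q) = i (inc q (X c)) * i (inc q (X c')) +
        i (inc q (rename Subtype.val q'')) := by
      rw [← map_mul, om_mul_om, ← map_mul, ← map_add, ← map_mul, ← map_add, ← hq]
    rw [← h3] at h4
    field_simp
    linear_combination h4
  · by_cases h' : s = c
    · rw [h', chU_self, map_one, one_mul]
    · rw [chU_other q'' hcc h h', chR_X_other i h h', div_mul_cancel₀ _ ht]

theorem chR_chE (h2 : q ∈ homogeneousSubmodule σ k 2) {n : ℕ} {a : QA q} (ha : a ∈ gr q n) :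
    chR (c := c) (c' := c') i (chE q'' hcc hq a) * i (inc q (X c)) ^ n = i a := by
  refine QA_scale ((chR (c := c) (c' := c') i).comp (chE q'' hcc hq)) i _ ?_ ?_ ?_ ha
  · intro a
    rw [RingHom.comp_apply, chE_C, chR_C]
  · intro s
    rw [RingHom.comp_apply, chR_chE_X q'' hcc hq i hi h2]
  · have ht := i_X_ne (q := q) i hi c
    rw [RingHom.comp_apply, chE_om, chR_X_self hcc]
    field_simp

theorem chG_injective [h2 : Fact (q ∈ homogeneousSubmodule σ k 2)] :
    Function.Injective (chG q'' hcc hq) := by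
  refine dehA_injective (gr q) _ _ _ (inc_X_mem c) ?_
  intro n s hs h0
  rw [smul_eq_mul, mul_one] at hs
  have h := chR_chE q'' hcc hq i hi h2.out hs
  rw [h0, map_zero, zero_mul] at h
  exact hi (by rw [← h, map_zero])

end inj

end

end Pool.Agent.W5h90.CP
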