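import Pool.Agent.W5h90.CP.Geo
import Pool.Agent.W5h90.CP.Defs

/-!
Surjections of graded rings give closed immersions of `Proj`; the quadric is projective.
-/

set_option autoImplicit false

open AlgebraicGeometry CategoryTheory HomogeneousLocalization MvPolynomial HomogeneousIdeal

universe u

namespace Pool.Agent.W5h90.CP

attribute [local instance] MvPolynomial.gradedAlgebra

section

variable {k : Type u} [Field k] {R : Type u} [CommRing R] [Algebra k R]
  {ℬ : ℕ → Submodule k R} [GradedAlgebra ℬ]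

theorem irrelevant_le {N : ℕ} (φ : homogeneousSubmodule (Fin (N + 1)) k →+*ᵍ ℬ)
    (hφ : Function.Surjective φ) :
    HomogeneousIdeal.irrelevant ℬ ≤
      (HomogeneousIdeal.irrelevant (homogeneousSubmodule (Fin (N + 1)) k)).map φ := by
  classical
  intro b hb
  obtain ⟨a, rfl⟩ := hφ b
  have h0 : φ ((DirectSum.decompose (homogeneousSubmodule (Fin (N + 1)) k) a 0 :
      MvPolynomial (Fin (N + 1)) k)) = 0 := by
    rw [φ.map_directSumDecompose]
    exact (HomogeneousIdeal.mem_irrelevant_iff _ _).mp hb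
  have ha : φ a = φ (a - (DirectSum.decompose (homogeneousSubmodule (Fin (N + 1)) k) a 0 :
      MvPolynomial (Fin (N + 1)) k)) := by
    rw [map_sub, h0, sub_zero]
  rw [ha]
  apply Ideal.mem_map_of_mem
  change _ ∈ HomogeneousIdeal.irrelevant _
  rw [HomogeneousIdeal.mem_irrelevant_iff]
  rw [GradedRing.proj_apply, DirectSum.decompose_sub, DirectSum.sub_apply, AddSubgroupClass.coe_sub,
    DirectSum.decompose_of_mem_same _ (SetLike.coe_mem _), sub_self]

lemma awayMap_surjective {N : ℕ} (φ : homogeneousSubmodule (Fin (N + 1)) k →+*ᵍ ℬ)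
    (hφ : Function.Surjective φ) {i : ℕ} {s : MvPolynomial (Fin (N + 1)) k}
    (hs : s ∈ homogeneousSubmodule (Fin (N + 1)) k i) :
    Function.Surjective (Away.map φ s : Away (homogeneousSubmodule (Fin (N + 1)) k) s →+*
      Away ℬ (φ s)) := by
  classical
  intro x
  obtain ⟨n, b, hb, rfl⟩ := Away.mk_surjective ℬ (φ.2 hs) x
  obtain ⟨a, rfl⟩ := hφ b
  refine ⟨Away.mk (homogeneousSubmodule (Fin (N + 1)) k) hs n
    (DirectSum.decompose (homogeneousSubmodule (Fin (N + 1)) k) a (n • i)) (SetLike.coe_mem _), ?_⟩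
  rw [Away.map_mk]
  congr 1
  rw [φ.map_directSumDecompose, DirectSum.decompose_of_mem_same _ hb]

/-- surjections of graded rings induce closed immersions of `Proj` -/
theorem isClosedImmersion_map {N : ℕ} (φ : homogeneousSubmodule (Fin (N + 1)) k →+*ᵍ ℬ)
    (hφ : Function.Surjective φ) : IsClosedImmersion (Proj.map φ (irrelevant_le φ hφ)) := by
  classical
  set f := Proj.map φ (irrelevant_le φ hφ) with hf
  have hsurj : ∀ (i : ℕ) (hi : 0 < i) (s : MvPolynomial (Fin (N + 1)) k)
      (hs : s ∈ homogeneousSubmodule (Fin (N + 1)) k i)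
      (V : (Proj (homogeneousSubmodule (Fin (N + 1)) k)).Opens) (W : (Proj ℬ).Opens)
      (e : W ≤ f ⁻¹ᵁ V), V = Proj.basicOpen _ s → W = Proj.basicOpen ℬ (φ s) →
      Function.Surjective (f.appLE V W e) := by
    rintro i hi s hs V W e rfl rfl
    have h1 := Proj.awayToSection_comp_appLE φ (irrelevant_le φ hφ) hs
    have h2 : Function.Surjective (CommRingCat.ofHom (Away.map φ s :
        Away (homogeneousSubmodule (Fin (N + 1)) k) s →+* Away ℬ (φ s)) ≫
          Proj.awayToSection ℬ (φ s)) := by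
      have h3 : IsIso (Proj.awayToSection ℬ (φ s)) := by
        have := (Proj.basicOpenIsoAway ℬ (φ s) (φ.2 hs) hi).isIso_hom
        rwa [Proj.basicOpenIsoAway_hom] at this
      have h4 : Function.Surjective (Proj.awayToSection ℬ (φ s)) :=
        (ConcreteCategory.bijective_of_isIso (Proj.awayToSection ℬ (φ s))).2
      exact h4.comp (awayMap_surjective φ hφ hs)
    rw [← h1] at h2
    intro y
    obtain ⟨x, hx⟩ := h2 y
    exact ⟨_, hx⟩
  have hcov : (⨆ s : (Σ i : ℕ+, homogeneousSubmodule (Fin (N + 1)) k i),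
      Proj.basicOpen (homogeneousSubmodule (Fin (N + 1)) k) (s.2 : MvPolynomial (Fin (N + 1)) k))
        = ⊤ := by
    apply Proj.iSup_basicOpen_eq_top
    intro z hz
    rw [← DirectSum.sum_support_decompose (homogeneousSubmodule (Fin (N + 1)) k) z]
    refine Ideal.sum_mem _ fun c hc ↦ if hc0 : c = 0 then ?_ else
      Ideal.subset_span ⟨⟨⟨c, Nat.pos_iff_ne_zero.mpr hc0⟩, _⟩, rfl⟩
    convert! Ideal.zero_mem _
    subst hc0
    exact hz
  rw [HasAffineProperty.iff_of_iSup_eq_top (P := @IsClosedImmersion.{u})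
    (fun s : (Σ i : ℕ+, homogeneousSubmodule (Fin (N + 1)) k i) =>
      ⟨Proj.basicOpen _ (s.2 : MvPolynomial (Fin (N + 1)) k),
        Proj.isAffineOpen_basicOpen _ _ s.2.2 s.1.2⟩) hcov]
  intro s
  refine ⟨?_, ?_⟩
  · exact Proj.isAffineOpen_basicOpen ℬ _ (φ.2 s.2.2) s.1.2
  · rw [Scheme.Hom.appTop, morphismRestrict_app']
    apply hsurj s.1 s.1.2 s.2 s.2.2
    · exact Scheme.Opens.ι_image_top _
    · exact Scheme.Opens.ι_image_top _

lemma away_structure {N : ℕ} (φ : homogeneousSubmodule (Fin (N + 1)) k →+*ᵍ ℬ)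
    (hc : ∀ c : k, φ (C c) = algebraMap k R c) (s : MvPolynomial (Fin (N + 1)) k) :
    ((Away.map φ s).comp (fromZeroRingHom (homogeneousSubmodule (Fin (N + 1)) k)
      (Submonoid.powers s))).comp (algebraMap k (homogeneousSubmodule (Fin (N + 1)) k 0)) =
    (fromZeroRingHom ℬ (Submonoid.powers (φ s))).comp (algebraMap k (ℬ 0)) := by
  ext c
  have h1 : ((Away.map φ s) ((fromZeroRingHom (homogeneousSubmodule (Fin (N + 1)) k)
      (Submonoid.powers s)) (algebraMap k (homogeneousSubmodule (Fin (N + 1)) k 0) c))).val =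
      Localization.mk (φ (C c)) 1 := by
    have h2 : ((Away.map φ s) ((fromZeroRingHom (homogeneousSubmodule (Fin (N + 1)) k)
      (Submonoid.powers s)) (algebraMap k (homogeneousSubmodule (Fin (N + 1)) k 0) c))).val =
      Localization.mk (φ (C c)) (⟨φ 1, (⟨0, by simp⟩ : ∃ n : ℕ, φ s ^ n = φ 1)⟩ :
        Submonoid.powers (φ s)) := rfl
    rw [h2]
    congr 1
    exact Subtype.ext (map_one φ)
  have h3 : ((fromZeroRingHom ℬ (Submonoid.powers (φ s))) (algebraMap k (ℬ 0) c)).val =
      Localization.mk (algebraMap k R c) 1 := rfl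
  show ((Away.map φ s) ((fromZeroRingHom (homogeneousSubmodule (Fin (N + 1)) k)
      (Submonoid.powers s)) (algebraMap k (homogeneousSubmodule (Fin (N + 1)) k 0) c))).val =
      ((fromZeroRingHom ℬ (Submonoid.powers (φ s))) (algebraMap k (ℬ 0) c)).val
  rw [h1, h3, hc]

lemma map_strK_aux {N : ℕ} (φ : homogeneousSubmodule (Fin (N + 1)) k →+*ᵍ ℬ)
    (hf : HomogeneousIdeal.irrelevant ℬ ≤
      (HomogeneousIdeal.irrelevant (homogeneousSubmodule (Fin (N + 1)) k)).map φ)
    (hc : ∀ c : k, φ (C c) = algebraMap k R c) {i : ℕ} (hi : 0 < i)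
    (s : MvPolynomial (Fin (N + 1)) k) (hs : s ∈ homogeneousSubmodule (Fin (N + 1)) k i) :
    Proj.awayι ℬ (φ s) (φ.2 hs) hi ≫ (Proj.map φ hf ≫
      strK (homogeneousSubmodule (Fin (N + 1)) k)) =
    Proj.awayι ℬ (φ s) (φ.2 hs) hi ≫ strK ℬ := by
  unfold strK
  rw [Proj.awayι_comp_map_assoc φ hf hi s hs, Proj.awayι_toSpecZero_assoc,
    Proj.awayι_toSpecZero_assoc, ← Spec.map_comp, ← Spec.map_comp, ← Spec.map_comp]
  congr 1
  have h := away_structure φ hc s
  rw [← CommRingCat.ofHom_comp, ← CommRingCat.ofHom_comp, ← CommRingCat.ofHom_comp]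
  exact congrArg CommRingCat.ofHom h

/-- compatibility with the structure morphisms -/
theorem map_strK {N : ℕ} (φ : homogeneousSubmodule (Fin (N + 1)) k →+*ᵍ ℬ)
    (hf : HomogeneousIdeal.irrelevant ℬ ≤
      (HomogeneousIdeal.irrelevant (homogeneousSubmodule (Fin (N + 1)) k)).map φ)
    (hc : ∀ c : k, φ (C c) = algebraMap k R c) :
    Proj.map φ hf ≫ strK (homogeneousSubmodule (Fin (N + 1)) k) = strK ℬ :=
  (Proj.mapAffineOpenCover φ hf).openCover.hom_ext _ _ fun s ↦
    map_strK_aux φ hf hc s.1.2 s.2.1 s.2.2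

end

section hyp

variable (k : Type u) [Field k] (r : ℕ)

lemma PPstr_eq (n : ℕ) : PPstr k n = strK (homogeneousSubmodule (Fin (n + 1)) k) := rfl

/-- the coordinates of the quadric -/
noncomputable def coordE (r : ℕ) : Fin (2 * r + 1) ≃ Option (HS r) :=
  Fintype.equivOfCardEq (by simp; ring)

/-- the homogeneous coordinates `x_i, y_i, ω` -/
noncomputable def coordF (j : Fin (2 * r + 1)) : QA (hyq k r) :=
  match coordE r j with
  | none => om _
  | some s => inc _ (X s)

lemma coordF_mem (j : Fin (2 * r + 1)) : coordF k r j ∈ gr (hyq k r) 1 := by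
  unfold coordF
  cases coordE r j with
  | none => exact om_mem
  | some s => exact inc_X_mem s

/-- the presentation of the homogeneous coordinate ring of the quadric -/
noncomputable def quadA : MvPolynomial (Fin (2 * r + 1)) k →ₐ[k] QA (hyq k r) :=
  aeval (coordF k r)

lemma quadA_mem (n : ℕ) {f : MvPolynomial (Fin (2 * r + 1)) k}
    (hf : f ∈ homogeneousSubmodule (Fin (2 * r + 1)) k n) : quadA k r f ∈ gr (hyq k r) n := by
  have hf' : f.IsHomogeneous n := hf
  rw [f.as_sum, map_sum]
  refine sum_mem fun d hd => ?_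
  have hd' : d.degree = n := by
    rw [Finsupp.degree_apply]
    exact (hf'.degree_eq_sum_deg_support hd).symm
  rw [quadA, aeval_monomial, ← Algebra.smul_def]
  refine Submodule.smul_mem _ _ ?_
  have h := SetLike.prod_pow_mem_graded (gr (hyq k r)) (F := d.support)
    (fun _ : Fin (2 * r + 1) => 1) (coordF k r) (fun j => d j) (fun j _ => coordF_mem k r j)
  have h1 : (∑ j ∈ d.support, d j • 1) = n := by
    rw [← hd', Finsupp.degree_apply]
    simp
  rw [h1] at h
  exact h

lemma quadA_X (s : Option (HS r)) : quadA k r (X ((coordE r).symm s)) =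
    match s with
    | none => om _
    | some s => inc _ (X s) := by
  rw [quadA, aeval_X, coordF, Equiv.apply_symm_apply]

lemma quadA_surjective : Function.Surjective (quadA k r) := by
  have h1 : ∀ f : MvPolynomial (HS r) k, inc (hyq k r) f ∈ (quadA k r).range := by
    intro f
    induction f using MvPolynomial.induction_on with
    | C a =>
      rw [← algebraMap_QA]
      exact Subalgebra.algebraMap_mem _ a
    | add f g hf hg => rw [map_add]; exact add_mem hf hg
    | mul_X f s hf =>
      rw [map_mul]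
      exact mul_mem hf ⟨X ((coordE r).symm (some s)), quadA_X k r (some s)⟩
  intro a
  have h2 : a ∈ (quadA k r).range := by
    rw [eq_inc_add a]
    exact add_mem (h1 _) (mul_mem (h1 _)
      ⟨X ((coordE r).symm none), quadA_X k r none⟩)
  exact h2

/-- the presentation as a graded ring homomorphism -/
noncomputable def quadG : homogeneousSubmodule (Fin (2 * r + 1)) k →+*ᵍ gr (hyq k r) :=
  { (quadA k r).toRingHom with
    map_mem := fun {i x} hx => quadA_mem k r i hx }

theorem projective_hyq : ∃ (N : ℕ) (i : Proj (gr (hyq k r)) ⟶ PP k N),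
    IsClosedImmersion i ∧ i ≫ PPstr k N = strK (gr (hyq k r)) := by
  have hsurj : Function.Surjective (quadG k r) := quadA_surjective k r
  refine ⟨2 * r, Proj.map (quadG k r) (irrelevant_le (quadG k r) hsurj), ?_, ?_⟩
  · exact isClosedImmersion_map _ hsurj
  · rw [PPstr_eq]
    exact map_strK (quadG k r) (irrelevant_le (quadG k r) hsurj) (fun c => (quadA k r).commutes c)

end hyp

end Pool.Agent.W5h90.CP
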