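import Pool.Agent.W5h90.CP.Loc

/-!
Derivations of the function field of `Proj 𝒜` from derivations of the field of fractions of `A`.
-/

set_option autoImplicit false
set_option linter.unusedSectionVars false

open AlgebraicGeometry CategoryTheory HomogeneousLocalization

universe u

namespace Pool.Agent.W5h90.CP

/-- Derivations extend to the field of fractions. -/
theorem exists_der_frac {k B : Type u} [Field k] [CommRing B] [IsDomain B] [Algebra k B]
    (E : Derivation k B B) : ∃ E' : Derivation k (FractionRing B) (FractionRing B),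
      ∀ b, E' (algebraMap B (FractionRing B) b) = algebraMap B (FractionRing B) (E b) := by
  let L := FractionRing B
  have hfe : Algebra.FormallyEtale B L :=
    Algebra.FormallyEtale.of_isLocalization (nonZeroDivisors B)
  let l0 : Ω[B⁄k] →ₗ[B] L := (Algebra.linearMap B L) ∘ₗ E.liftKaehlerDifferential
  let l : TensorProduct B L Ω[B⁄k] →ₗ[L] L := LinearMap.liftBaseChange L l0
  let e := KaehlerDifferential.tensorKaehlerEquivOfFormallyEtale k B L
  refine ⟨(l ∘ₗ e.symm.toLinearMap).compDer (KaehlerDifferential.D k L), fun c => ?_⟩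
  change l (e.symm (KaehlerDifferential.D k L (algebraMap B L c))) = _
  rw [KaehlerDifferential.tensorKaehlerEquivOfFormallyEtale_symm_D_algebraMap,
    LinearMap.liftBaseChange_tmul, one_smul]
  change algebraMap B L (E.liftKaehlerDifferential (KaehlerDifferential.D k B c)) = _
  rw [Derivation.liftKaehlerDifferential_comp_D]

/-- restriction of a derivation to a subfield -/
theorem exists_restrict {K F : Type u} [Field K] [Field F] (κ : K →+* F) (E : F → F)
    (hadd : ∀ a b, E (a + b) = E a + E b) (hmul : ∀ a b, E (a * b) = a * E b + b * E a)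
    (h : ∀ a, ∃ b, κ b = E (κ a)) : ∃ δ : Derivation ℤ K K, ∀ a, κ (δ a) = E (κ a) := by
  choose f hf using h
  have hκ : Function.Injective κ := κ.injective
  refine ⟨⟨(AddMonoidHom.mk' f ?_).toIntLinearMap, ?_, ?_⟩, ?_⟩
  · intro a b
    apply hκ
    rw [κ.map_add, hf, hf, hf, κ.map_add, hadd]
  · apply hκ
    show κ (f 1) = κ 0
    have h1 := hmul 1 1
    rw [mul_one, one_mul] at h1
    have h2 : E 1 = 0 := by linear_combination -h1
    rw [hf, map_one, map_zero, h2]
  · intro a b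
    apply hκ
    show κ (f (a * b)) = κ (a * f b + b * f a)
    rw [hf, κ.map_add, κ.map_mul, κ.map_mul, κ.map_mul, hf, hf, hmul]
  · intro a
    exact hf a

variable {σ : Type*} {A : Type u} [CommRing A] [SetLike σ A] [AddSubgroupClass σ A]
  (𝒜 : ℕ → σ) [GradedRing 𝒜] {F : Type u} [Field F] (i : A →+* F) (hi : Function.Injective i)
  [IsIntegral (Proj 𝒜)]

lemma exists_ev {X : Scheme.{u}} [IsIntegral X] (f : X.functionField) :
    ∃ (U : X.Opens) (hU : (U : Set X).Nonempty) (s : Γ(X, U)), ev hU s = f := by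
  obtain ⟨U, hU, s, hs⟩ := X.presheaf.exists_germ_eq (show X.presheaf.stalk (genericPoint X) from f)
  exact ⟨U, ⟨_, hU⟩, s, hs⟩

lemma exists_stalk {X : Scheme.{u}} [IsIntegral X] (f : X.functionField) :
    ∃ (x : X) (a : X.presheaf.stalk x), algebraMap _ X.functionField a = f := by
  obtain ⟨U, hU, s, hs⟩ := exists_ev f
  refine ⟨genericPoint X, X.presheaf.germ U _ (gen_mem hU) s, ?_⟩
  rw [← hs]
  exact algebraMap_germ hU (gen_mem hU) s

include hi in
theorem exists_stalk_der (E : F → F) (hmul : ∀ a b, E (a * b) = a * E b + b * E a) (hE : ∀ d, ∀ s ∈ 𝒜 d, ∃ s' ∈ 𝒜 d, E (i s) = i s')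
    (x : Proj 𝒜) (a : (Proj 𝒜).presheaf.stalk x) :
    ∃ b : (Proj 𝒜).presheaf.stalk x, kap 𝒜 i hi (algebraMap _ (Proj 𝒜).functionField b) =
      E (kap 𝒜 i hi (algebraMap _ (Proj 𝒜).functionField a)) := by
  obtain ⟨d, hd, s, t, hs, ht, htx, h⟩ := exists_frac_stalk 𝒜 i hi x a
  obtain ⟨s', hs', es⟩ := hE d s hs
  obtain ⟨t', ht', et⟩ := hE d t ht
  have hprime : x.asHomogeneousIdeal.toIdeal.IsPrime := x.isPrime
  have ht0 : i t ≠ 0 := by
    intro h0
    have : t = 0 := hi (by rw [h0, map_zero])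
    subst this
    exact htx (zero_mem _)
  obtain ⟨b, hb⟩ := exists_stalk_frac 𝒜 i hi x (d := d + d) (by omega) (s := s' * t - s * t')
    (t := t * t) (sub_mem (SetLike.mul_mem_graded hs' ht) (SetLike.mul_mem_graded hs ht'))
    (SetLike.mul_mem_graded ht ht) (fun h1 => (hprime.mem_or_mem h1).elim htx htx)
  refine ⟨b, ?_⟩
  have h1 := hmul (i t) (i s / i t)
  rw [mul_div_cancel₀ _ ht0, es, et] at h1
  rw [hb, h, map_sub, map_mul, map_mul, map_mul, h1]
  field_simp
  ring

include hi in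
theorem exists_delta (E : F → F) (hadd : ∀ a b, E (a + b) = E a + E b)
    (hmul : ∀ a b, E (a * b) = a * E b + b * E a) (hE : ∀ d, ∀ s ∈ 𝒜 d, ∃ s' ∈ 𝒜 d, E (i s) = i s') :
    ∃ δ : Derivation ℤ (Proj 𝒜).functionField (Proj 𝒜).functionField,
      (∀ a, kap 𝒜 i hi (δ a) = E (kap 𝒜 i hi a)) ∧
      ∀ (x : Proj 𝒜) (a : (Proj 𝒜).presheaf.stalk x), ∃ b : (Proj 𝒜).presheaf.stalk x,
        algebraMap _ (Proj 𝒜).functionField b =
          δ (algebraMap _ (Proj 𝒜).functionField a) := by
  obtain ⟨δ, hδ⟩ := exists_restrict (kap 𝒜 i hi) E hadd hmul (by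
    intro f
    obtain ⟨x, a, rfl⟩ := exists_stalk f
    obtain ⟨b, hb⟩ := exists_stalk_der 𝒜 i hi E hmul hE _ a
    exact ⟨_, hb⟩)
  refine ⟨δ, hδ, fun x a => ?_⟩
  obtain ⟨b, hb⟩ := exists_stalk_der 𝒜 i hi E hmul hE x a
  refine ⟨b, kap_injective 𝒜 i hi ?_⟩
  rw [hb, hδ]

end Pool.Agent.W5h90.CP
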