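import Mathlib

/-!
`Proj 𝒜` of a graded domain `A` is integral, and its function field embeds in every field `F`
containing `A`; description of the local rings and of the rings of functions on the charts.
-/

set_option autoImplicit false

open AlgebraicGeometry CategoryTheory HomogeneousLocalization

universe u

namespace Pool.Agent.W5h90.CP

variable {σ : Type*} {A : Type u} [CommRing A] [SetLike σ A] [AddSubgroupClass σ A]
  (𝒜 : ℕ → σ) [GradedRing 𝒜]

section Integral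

variable [IsDomain A]

/-- The zero ideal as a point of `Proj 𝒜`. -/
noncomputable def zeroPoint (h : ∃ i > 0, ∃ f ∈ 𝒜 i, f ≠ 0) : ProjectiveSpectrum 𝒜 where
  asHomogeneousIdeal := ⊥
  isPrime := by
    rw [HomogeneousIdeal.toIdeal_bot]
    exact Ideal.isPrime_bot
  not_irrelevant_le := by
    obtain ⟨i, hi, f, hf, hf0⟩ := h
    intro hle
    have h1 : f ∈ HomogeneousIdeal.irrelevant 𝒜 := by
      rw [HomogeneousIdeal.mem_irrelevant_iff, GradedRing.proj_apply,
        DirectSum.decompose_of_mem_ne 𝒜 hf (by omega)]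
    have h2 : f ∈ (⊥ : HomogeneousIdeal 𝒜).toIdeal := hle h1
    rw [HomogeneousIdeal.toIdeal_bot] at h2
    exact hf0 (by simpa using h2)

theorem closure_zeroPoint (h : ∃ i > 0, ∃ f ∈ 𝒜 i, f ≠ 0) :
    closure ({zeroPoint 𝒜 h} : Set (ProjectiveSpectrum 𝒜)) = Set.univ := by
  rw [← dense_iff_closure_eq, (ProjectiveSpectrum.isTopologicalBasis_basic_opens 𝒜).dense_iff]
  rintro _ ⟨f, rfl⟩ ⟨y, hy⟩
  refine ⟨zeroPoint 𝒜 h, ?_, rfl⟩
  have hf : f ≠ 0 := by
    rintro rfl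
    exact hy (zero_mem _)
  show f ∉ (⊥ : HomogeneousIdeal 𝒜).toIdeal
  rw [HomogeneousIdeal.toIdeal_bot]
  simpa using hf

theorem irreducibleSpace_proj (h : ∃ i > 0, ∃ f ∈ 𝒜 i, f ≠ 0) :
    IrreducibleSpace (ProjectiveSpectrum 𝒜) := by
  have h1 : IsIrreducible (closure ({zeroPoint 𝒜 h} : Set (ProjectiveSpectrum 𝒜))) :=
    isIrreducible_singleton.closure
  rw [closure_zeroPoint] at h1
  have : PreirreducibleSpace (ProjectiveSpectrum 𝒜) := ⟨h1.2⟩
  exact ⟨⟨zeroPoint 𝒜 h⟩⟩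

theorem isIntegral_proj (h : ∃ i > 0, ∃ f ∈ 𝒜 i, f ≠ 0) : IsIntegral (Proj 𝒜) := by
  have hred : ∀ x : Proj 𝒜, _root_.IsReduced ((Proj 𝒜).presheaf.stalk x) := by
    intro x
    have hp : x.asHomogeneousIdeal.toIdeal.IsPrime := ProjectiveSpectrum.isPrime x
    have h1 : Function.Injective (Proj.stalkIso 𝒜 x).hom :=
      (Proj.stalkIso 𝒜 x).commRingCatIsoToRingEquiv.injective
    have h2 : Function.Injective
        (algebraMap (AtPrime 𝒜 x.asHomogeneousIdeal.toIdeal)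
          (Localization x.asHomogeneousIdeal.toIdeal.primeCompl)) :=
      HomogeneousLocalization.val_injective _
    have : IsDomain (Localization x.asHomogeneousIdeal.toIdeal.primeCompl) :=
      IsLocalization.isDomain_localization (Ideal.primeCompl_le_nonZeroDivisors _)
    have h3 : _root_.IsReduced (AtPrime 𝒜 x.asHomogeneousIdeal.toIdeal) :=
      isReduced_of_injective _ h2
    exact isReduced_of_injective (Proj.stalkIso 𝒜 x).hom.hom h1
  have : IsReduced (Proj 𝒜) := isReduced_of_isReduced_stalk _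
  have : IrreducibleSpace (Proj 𝒜) := irreducibleSpace_proj 𝒜 h
  exact isIntegral_of_irreducibleSpace_of_isReduced _

theorem generic_mem (h : ∃ i > 0, ∃ f ∈ 𝒜 i, f ≠ 0) [IsIntegral (Proj 𝒜)] {f : A} (hf : f ≠ 0) :
    genericPoint (Proj 𝒜) ∈ Proj.basicOpen 𝒜 f := by
  have h' := genericPoint_spec (Proj 𝒜)
  refine (h'.mem_open_set_iff (Proj.basicOpen 𝒜 f).2).mpr ?_
  refine ⟨zeroPoint 𝒜 h, trivial, ?_⟩
  show f ∉ (⊥ : HomogeneousIdeal 𝒜).toIdeal
  rw [HomogeneousIdeal.toIdeal_bot]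
  simpa using hf

end Integral

variable {F : Type u} [Field F] (i : A →+* F) (hi : Function.Injective i)

/-- The embedding of the function field of `Proj 𝒜` in `F`. -/
theorem exists_kap (i : A →+* F) (hi : Function.Injective i) [IsIntegral (Proj 𝒜)] :
    ∃ κ : (Proj 𝒜).functionField →+* F,
      ∀ (m : ℕ) (_ : 0 < m) (f : A) (hf : f ∈ 𝒜 m) (n : ℕ) (s : A)
        (hs : s ∈ 𝒜 (n * m)) (hη : genericPoint (Proj 𝒜) ∈ Proj.basicOpen 𝒜 f),
        κ ((Proj 𝒜).presheaf.germ (Proj.basicOpen 𝒜 f) (genericPoint (Proj 𝒜)) hη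
          (Proj.awayToSection 𝒜 f (Away.mk 𝒜 hf n s hs))) = i s / i f ^ n := by
  let η : ProjectiveSpectrum 𝒜 := genericPoint (Proj 𝒜)
  let P := η.asHomogeneousIdeal.toIdeal
  have hu : ∀ y : P.primeCompl, IsUnit (i (y : A)) := by
    intro y
    have hy : (y : A) ≠ 0 := fun h0 => y.2 (h0 ▸ zero_mem _)
    have : i (y : A) ≠ 0 := fun h0 => hy (hi (by rw [h0, map_zero]))
    exact isUnit_iff_ne_zero.2 this
  let L : Localization P.primeCompl →+* F := IsLocalization.lift (M := P.primeCompl) hu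
  let κ : (Proj 𝒜).functionField →+* F :=
    (L.comp (algebraMap (AtPrime 𝒜 P) (Localization P.primeCompl))).comp
      (stalkToFiberRingHom 𝒜 η).hom
  refine ⟨κ, ?_⟩
  intro m hm f hf n s hs hη
  have h1 : (stalkToFiberRingHom 𝒜 η).hom ((Proj 𝒜).presheaf.germ (Proj.basicOpen 𝒜 f)
      (genericPoint (Proj 𝒜)) hη (Proj.awayToSection 𝒜 f (Away.mk 𝒜 hf n s hs))) =
      (Proj.awayToSection 𝒜 f (Away.mk 𝒜 hf n s hs)).1 ⟨η, hη⟩ :=
    stalkToFiberRingHom_germ 𝒜 (Proj.basicOpen 𝒜 f) η hη _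
  have h2 : κ ((Proj 𝒜).presheaf.germ (Proj.basicOpen 𝒜 f) (genericPoint (Proj 𝒜)) hη
      (Proj.awayToSection 𝒜 f (Away.mk 𝒜 hf n s hs))) =
      L (((Proj.awayToSection 𝒜 f (Away.mk 𝒜 hf n s hs)).1 ⟨η, hη⟩).val) := by
    rw [← h1]
    rfl
  rw [h2]
  have h3 := ProjectiveSpectrum.Proj.awayToSection_apply 𝒜 f (Away.mk 𝒜 hf n s hs) ⟨η, hη⟩
  have h4 : ((Proj.awayToSection 𝒜 f (Away.mk 𝒜 hf n s hs)).1 ⟨η, hη⟩).val =
      IsLocalization.map (M := Submonoid.powers f) (T := P.primeCompl) _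
        (RingHom.id _) (Submonoid.powers_le.mpr hη) (Away.mk 𝒜 hf n s hs).val := h3
  rw [h4, Away.val_mk, Localization.mk_eq_mk', IsLocalization.map_mk']
  have hf0 : f ≠ 0 := by
    rintro rfl
    exact hη (zero_mem _)
  have hfF : i f ≠ 0 := fun h0 => hf0 (hi (by rw [h0, map_zero]))
  refine (IsLocalization.lift_mk'_spec hu _ _ _).2 ?_
  show i s = i (f ^ n) * (i s / i f ^ n)
  rw [map_pow]
  field_simp

/-- The embedding of the function field of `Proj 𝒜` in `F`. -/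
noncomputable def kap (i : A →+* F) (hi : Function.Injective i) [IsIntegral (Proj 𝒜)] :
    (Proj 𝒜).functionField →+* F := (exists_kap 𝒜 i hi).choose

theorem kap_spec (i : A →+* F) (hi : Function.Injective i) [IsIntegral (Proj 𝒜)]
    {m : ℕ} (hm : 0 < m) {f : A} (hf : f ∈ 𝒜 m) (n : ℕ) {s : A}
    (hs : s ∈ 𝒜 (n * m)) (hη : genericPoint (Proj 𝒜) ∈ Proj.basicOpen 𝒜 f) :
    kap 𝒜 i hi ((Proj 𝒜).presheaf.germ (Proj.basicOpen 𝒜 f) (genericPoint (Proj 𝒜)) hη
      (Proj.awayToSection 𝒜 f (Away.mk 𝒜 hf n s hs))) = i s / i f ^ n :=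
  (exists_kap 𝒜 i hi).choose_spec m hm f hf n s hs hη

end Pool.Agent.W5h90.CP
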