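import Pool.Agent.W5h90.CP.Defs

/-!
Functions on open subsets of an integral scheme as elements of its function field, and the
construction of sections of the tangent sheaf from derivations of the function field.
-/

set_option autoImplicit false

open AlgebraicGeometry CategoryTheory

universe u

namespace Pool.Agent.W5h90.CP

section

variable {X : Scheme.{u}} [IsIntegral X]

lemma gen_mem {U : X.Opens} (hU : (U : Set X).Nonempty) : genericPoint X ∈ U :=
  ((genericPoint_spec X).mem_open_set_iff U.isOpen).mpr (by
    simpa [Set.univ_inter] using hU)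

/-- a function on a nonempty open set as an element of the function field -/
noncomputable def ev {U : X.Opens} (hU : (U : Set X).Nonempty) : Γ(X, U) →+* X.functionField :=
  (X.presheaf.germ U (genericPoint X) (gen_mem hU)).hom

lemma ev_injective {U : X.Opens} (hU : (U : Set X).Nonempty) : Function.Injective (ev hU) :=
  germ_injective_of_isIntegral X (genericPoint X) (gen_mem hU)

lemma ev_res {U V : X.Opens} (hV : (V : Set X).Nonempty) (hU : (U : Set X).Nonempty)
    (h : V ≤ U) (a : Γ(X, U)) : ev hV (res h a) = ev hU a :=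
  TopCat.Presheaf.germ_res_apply X.presheaf (homOfLE h) (genericPoint X) (gen_mem hV) a

lemma algebraMap_germ {U : X.Opens} (hU : (U : Set X).Nonempty) {x : X} (hx : x ∈ U)
    (a : Γ(X, U)) :
    algebraMap (X.presheaf.stalk x) X.functionField (X.presheaf.germ U x hx a) = ev hU a := by
  have : Nonempty U := ⟨⟨x, hx⟩⟩
  exact Scheme.algebraMap_germ_eq_germToFunctionField X hx a

lemma algebraMap_stalk_injective (x : X) :
    Function.Injective (algebraMap (X.presheaf.stalk x) X.functionField) :=
  IsFractionRing.injective _ _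

/-- An element of the function field which is regular at all points of `U` comes from a function
on `U`. -/
theorem exists_section (U : X.Opens) (hU : (U : Set X).Nonempty) (f : X.functionField)
    (h : ∀ x ∈ U, ∃ a : X.presheaf.stalk x, algebraMap _ X.functionField a = f) :
    ∃ s : Γ(X, U), ev hU s = f := by
  classical
  -- local sections
  have h1 : ∀ x : U, ∃ (V : X.Opens) (_ : x.1 ∈ V) (_ : V ≤ U) (s : Γ(X, V)),
      ∀ hV : (V : Set X).Nonempty, ev hV s = f := by
    rintro ⟨x, hx⟩
    obtain ⟨a, ha⟩ := h x hx
    obtain ⟨W, hxW, s, hs⟩ := X.presheaf.exists_germ_eq a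
    refine ⟨W ⊓ U, ⟨hxW, hx⟩, inf_le_right, res inf_le_left s, fun hV => ?_⟩
    have hW : (W : Set X).Nonempty := ⟨x, hxW⟩
    rw [ev_res hV hW, ← algebraMap_germ hW hxW, hs, ha]
  choose V hxV hVU s hs using h1
  have hcov : iSup V = U := by
    apply le_antisymm
    · exact iSup_le hVU
    · intro x hx
      exact TopologicalSpace.Opens.mem_iSup.mpr ⟨⟨x, hx⟩, hxV ⟨x, hx⟩⟩
  have hne : ∀ x : U, (V x : Set X).Nonempty := fun x => ⟨x.1, hxV x⟩
  have hcompat : TopCat.Presheaf.IsCompatible X.presheaf V s := by
    intro x y
    have hn : ((V x ⊓ V y : X.Opens) : Set X).Nonempty :=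
      ⟨genericPoint X, gen_mem (hne x), gen_mem (hne y)⟩
    apply ev_injective hn
    exact (ev_res hn (hne x) inf_le_left (s x)).trans ((hs x _).trans
      ((ev_res hn (hne y) inf_le_right (s y)).trans (hs y _)).symm)
  obtain ⟨t, ht, -⟩ := X.sheaf.existsUnique_gluing' V U (fun x => homOfLE (hVU x)) hcov.ge s hcompat
  refine ⟨t, ?_⟩
  obtain ⟨x, hx⟩ := hU
  have h2 := ht ⟨x, hx⟩
  rw [← hs ⟨x, hx⟩ (hne _), ← h2]
  exact (ev_res (hne _) _ (hVU _) t).symm

end

section Tangent

variable {k : Type u} [Field k] {X : Scheme.{u}} (p : X ⟶ Spec (CommRingCat.of k))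

lemma res_res {U V W : X.Opens} (h : V ≤ U) (h' : W ≤ V) (a : Γ(X, U)) :
    res h' (res h a) = res (h'.trans h) a := by
  show (X.presheaf.map (homOfLE h').op).hom ((X.presheaf.map (homOfLE h).op).hom a) = _
  rw [← CommRingCat.comp_apply, ← Functor.map_comp]
  rfl

lemma res_const {U V : X.Opens} (h : V ≤ U) (c : k) : res h (const p U c) = const p V c :=
  res_res le_top h _

variable [IsIntegral X]

lemma univ_nonempty : ((⊤ : X.Opens) : Set X).Nonempty := ⟨genericPoint X, trivial⟩

open Classical in
/-- the value of the derivation on functions on `V` -/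
noncomputable def derFun (δ : X.functionField → X.functionField) (V : X.Opens)
    (a : Γ(X, V)) : Γ(X, V) :=
  if h : ∃ (hV : (V : Set X).Nonempty) (s : Γ(X, V)), ev hV s = δ (ev hV a) then h.choose_spec.choose
  else 0

lemma subsingleton_of_empty {V : X.Opens} (hV : ¬ (V : Set X).Nonempty) (a b : Γ(X, V)) :
    a = b := by
  have h : V = ⊥ := by
    apply TopologicalSpace.Opens.ext
    exact Set.not_nonempty_iff_eq_empty.mp hV
  subst h
  exact Subsingleton.elim _ _

lemma ev_derFun {δ : X.functionField → X.functionField} {U : X.Opens}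
    (h1 : ∀ x ∈ U, ∀ a : X.presheaf.stalk x, ∃ b : X.presheaf.stalk x,
      algebraMap _ X.functionField b = δ (algebraMap _ X.functionField a))
    {V : X.Opens} (hVU : V ≤ U) (hV : (V : Set X).Nonempty) (a : Γ(X, V)) :
    ev hV (derFun δ V a) = δ (ev hV a) := by
  have h : ∃ (hV : (V : Set X).Nonempty) (s : Γ(X, V)), ev hV s = δ (ev hV a) := by
    refine ⟨hV, exists_section V hV _ fun x hx => ?_⟩
    rw [← algebraMap_germ hV hx]
    exact h1 x (hVU hx) _
  rw [derFun, dif_pos h]
  exact h.choose_spec.choose_spec

/-- A derivation of the function field which preserves the local rings of the points of `U` gives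
a section of the tangent sheaf over `U`. -/
noncomputable def tangentSection (U : X.Opens)
    (δ : Derivation ℤ X.functionField X.functionField)
    (h1 : ∀ x ∈ U, ∀ a : X.presheaf.stalk x, ∃ b : X.presheaf.stalk x,
      algebraMap _ X.functionField b = δ (algebraMap _ X.functionField a))
    (h2 : ∀ c : k, δ (ev univ_nonempty (const p ⊤ c)) = 0) : TangentSection p U where
  der V _ a := derFun δ V a
  map_add V h a b := by
    by_cases hV : (V : Set X).Nonempty
    · apply ev_injective hV
      rw [ev_derFun h1 h hV, map_add, map_add, map_add, ev_derFun h1 h hV, ev_derFun h1 h hV]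
    · exact subsingleton_of_empty hV _ _
  map_mul V h a b := by
    by_cases hV : (V : Set X).Nonempty
    · apply ev_injective hV
      rw [ev_derFun h1 h hV, (ev hV).map_mul, Derivation.leibniz, (ev hV).map_add,
        (ev hV).map_mul, (ev hV).map_mul, ev_derFun h1 h hV, ev_derFun h1 h hV, smul_eq_mul,
        smul_eq_mul]
    · exact subsingleton_of_empty hV _ _
  map_const V h c := by
    by_cases hV : (V : Set X).Nonempty
    · apply ev_injective hV
      rw [ev_derFun h1 h hV, map_zero, ← h2 c, ← res_const p le_top, ev_res hV univ_nonempty]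
    · exact subsingleton_of_empty hV _ _
  map_res V W h h' a := by
    by_cases hW : (W : Set X).Nonempty
    · have hV : (V : Set X).Nonempty := hW.mono h'
      apply ev_injective hW
      rw [ev_derFun h1 (h'.trans h) hW, ev_res hW hV, ev_res hW hV, ev_derFun h1 h hV]
    · exact subsingleton_of_empty hW _ _

lemma ev_tangentSection {U : X.Opens}
    {δ : Derivation ℤ X.functionField X.functionField}
    (h1 : ∀ x ∈ U, ∀ a : X.presheaf.stalk x, ∃ b : X.presheaf.stalk x,
      algebraMap _ X.functionField b = δ (algebraMap _ X.functionField a))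
    (h2 : ∀ c : k, δ (ev univ_nonempty (const p ⊤ c)) = 0)
    {V : X.Opens} (hVU : V ≤ U) (hV : (V : Set X).Nonempty) (a : Γ(X, V)) :
    ev hV ((tangentSection p U δ h1 h2).der V hVU a) = δ (ev hV a) :=
  ev_derFun h1 hVU hV a

end Tangent

end Pool.Agent.W5h90.CP
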