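import Mathlib

/-!
Smoothness of `Proj ℬ` over `k` from charts which are affine spaces.
-/

set_option autoImplicit false

open AlgebraicGeometry CategoryTheory HomogeneousLocalization RingHom

universe u

namespace Pool.Agent.W5h90.CP

/-- The structure morphism `Proj ℬ ⟶ Spec k`. -/
noncomputable def strK {k R : Type u} [Field k] [CommRing R] [Algebra k R]
    (ℬ : ℕ → Submodule k R) [GradedAlgebra ℬ] : Proj ℬ ⟶ Spec (CommRingCat.of k) :=
  Proj.toSpecZero ℬ ≫ Spec.map (CommRingCat.ofHom (algebraMap k (ℬ 0)))

lemma awayι_strK {k R : Type u} [Field k] [CommRing R] [Algebra k R]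
    (ℬ : ℕ → Submodule k R) [GradedAlgebra ℬ] {t : R} {m : ℕ} (ht : t ∈ ℬ m) (hm : 0 < m) :
    Proj.awayι ℬ t ht hm ≫ strK ℬ = Spec.map (CommRingCat.ofHom
      ((fromZeroRingHom ℬ (Submonoid.powers t)).comp (algebraMap k (ℬ 0)))) := by
  rw [strK, Proj.awayι_toSpecZero_assoc, ← Spec.map_comp]
  rfl

section pres

variable (k : Type u) [Field k] (m : ℕ)

/-- The presentation of the polynomial ring without relations. -/
noncomputable def pres :
    Algebra.SubmersivePresentation k (MvPolynomial (Fin m) k) (Fin m) PEmpty.{1} where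
  val := MvPolynomial.X
  σ' := fun p => p
  aeval_val_σ' := fun s => by simp
  algebra := Algebra.id _
  algebraMap_eq := by
    ext
    · simp
    · simp
  relation := PEmpty.elim
  span_range_relation_eq_ker := by
    rw [Set.range_eq_empty, Ideal.span_empty, Algebra.Generators.ker_eq_ker_aeval_val]
    symm
    rw [← RingHom.injective_iff_ker_eq_bot]
    intro a b hab
    simpa using hab
  map := PEmpty.elim
  map_inj := fun a => a.elim
  jacobian_isUnit := by
    rw [Algebra.PreSubmersivePresentation.jacobian_eq_jacobiMatrix_det]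
    simp

lemma pres_dim : (pres k m).dimension = m := by
  simp [Algebra.Presentation.dimension]

instance : Algebra.IsStandardSmoothOfRelativeDimension m k (MvPolynomial (Fin m) k) :=
  (pres k m).isStandardSmoothOfRelativeDimension (pres_dim k m)

lemma locally_smooth : RingHom.Locally (IsStandardSmoothOfRelativeDimension m)
    (algebraMap k (MvPolynomial (Fin m) k)) := by
  apply RingHom.locally_of
  · exact RingHom.isStandardSmoothOfRelativeDimension_respectsIso
  · rw [RingHom.isStandardSmoothOfRelativeDimension_algebraMap]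
    infer_instance

end pres

theorem smooth_of_charts {k R : Type u} [Field k] [CommRing R] [Algebra k R]
    (ℬ : ℕ → Submodule k R) [GradedAlgebra ℬ] (m : ℕ)
    (hcov : ∀ x : Proj ℬ, ∃ t ∈ ℬ 1, x ∈ Proj.basicOpen ℬ t ∧
      ∃ e : MvPolynomial (Fin m) k ≃+* Away ℬ t, ∀ c : k, e (algebraMap k _ c) =
          fromZeroRingHom ℬ (Submonoid.powers t) (algebraMap k (ℬ 0) c)) :
    SmoothOfRelativeDimension m (strK ℬ) := by
  choose t ht hx e he using hcov
  let 𝒰 : (Proj ℬ).AffineOpenCover :=
    { I₀ := Proj ℬ
      X := fun x => .of (Away ℬ (t x))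
      f := fun x => Proj.awayι ℬ (t x) (ht x) one_pos
      idx := fun x => x
      covers := fun x => by
        change x ∈ (Proj.awayι ℬ _ _ _).opensRange
        rw [Proj.opensRange_awayι]
        exact hx x }
  have hP : HasRingHomProperty (@SmoothOfRelativeDimension.{u} m)
      (Locally (IsStandardSmoothOfRelativeDimension m)) := inferInstance
  have hS : IsZariskiLocalAtSource (@SmoothOfRelativeDimension.{u} m) :=
    HasRingHomProperty.instIsZariskiLocalAtSource
      (Q := Locally (IsStandardSmoothOfRelativeDimension m))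
  refine IsZariskiLocalAtSource.of_openCover (P := @SmoothOfRelativeDimension.{u} m)
    𝒰.openCover ?_
  have key : ∀ x : Proj ℬ, SmoothOfRelativeDimension m
      (Proj.awayι ℬ (t x) (ht x) one_pos ≫ strK ℬ) := by
    intro x
    rw [awayι_strK]
    rw [HasRingHomProperty.Spec_iff (P := @SmoothOfRelativeDimension.{u} m)]
    have h2 : (fromZeroRingHom ℬ (Submonoid.powers (t x))).comp (algebraMap k (ℬ 0)) =
        (e x).toRingHom.comp (algebraMap k _) := by
      ext1 c
      exact (he x c).symm
    rw [h2]
    exact (locally_respectsIso (isStandardSmoothOfRelativeDimension_respectsIso)).1 _ _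
      (locally_smooth k m)
  exact fun x => key x

end Pool.Agent.W5h90.CP
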