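import Pool.Agent.W5h90.CP.Chart
import Pool.Agent.W5h90.CP.Smooth
import Pool.Agent.W5h90.CP.Der

/-!
The quadric `ω² = Σ x_i y_i` as `Proj (gr q)`: covering by the charts, smoothness.
-/

set_option autoImplicit false

open MvPolynomial HomogeneousLocalization AlgebraicGeometry CategoryTheory

universe u

namespace Pool.Agent.W5h90.CP

attribute [local instance] MvPolynomial.gradedAlgebra

noncomputable section

section cover

variable {k : Type u} [Field k] {σ : Type} (q : MvPolynomial σ k)
  [hq : Fact (q ∈ homogeneousSubmodule σ k 2)]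

omit hq in
lemma inc_sub_mem (P : Ideal (QA q)) (h : ∀ s, inc q (X s) ∈ P) (f : MvPolynomial σ k) :
    inc q f - inc q (C (coeff 0 f)) ∈ P := by
  rw [← Ideal.Quotient.mk_eq_mk_iff_sub_mem]
  have h1 : ((Ideal.Quotient.mk P).comp (inc q)) =
      ((Ideal.Quotient.mk P).comp (inc q)).comp (C.comp constantCoeff) := by
    apply MvPolynomial.ringHom_ext
    · intro a
      simp
    · intro s
      have h2 : (Ideal.Quotient.mk P) (inc q (X s)) = 0 := Ideal.Quotient.eq_zero_iff_mem.mpr (h s)
      simpa using h2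
  exact congrArg (fun t => t f) h1

lemma exists_X_notMem (P : Ideal (QA q)) [hP : P.IsPrime]
    (hirr : ¬ (HomogeneousIdeal.irrelevant (gr q)).toIdeal ≤ P) : ∃ s, inc q (X s) ∉ P := by
  classical
  by_contra hcon
  push Not at hcon
  apply hirr
  have h1 : ∀ n, 0 < n → ∀ f ∈ homogeneousSubmodule σ k n, inc q f ∈ P := by
    intro n hn f hf
    have h2 := inc_sub_mem q P hcon f
    have h3 : coeff 0 f = 0 := by
      by_contra h4
      have h5 : IsHomogeneous f n := hf
      have := h5 h4
      simp at this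
      omega
    rwa [h3, map_zero, map_zero, sub_zero] at h2
  have hω : om q ∈ P := by
    have h2 : om q * om q ∈ P := by
      rw [om_mul_om]
      exact h1 2 two_pos q hq.out
    exact (hP.mem_or_mem h2).elim id id
  intro a ha
  have h5 := DirectSum.sum_support_decompose (gr q) a
  rw [← h5]
  refine Ideal.sum_mem _ fun n _ => ?_
  rcases Nat.eq_zero_or_pos n with rfl | hn
  · have h4 := (HomogeneousIdeal.mem_irrelevant_iff _ _).mp ha
    rw [GradedRing.proj_apply] at h4
    rw [h4]
    exact zero_mem _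
  · have h6 : (DirectSum.decompose (gr q) a n : QA q) ∈ gr q n := SetLike.coe_mem _
    rw [eq_inc_add (DirectSum.decompose (gr q) a n : QA q)]
    exact add_mem (h1 n hn _ h6.1) (Ideal.mul_mem_left _ _ hω)

lemma exists_mem_chart (x : Proj (gr q)) : ∃ s, x ∈ Proj.basicOpen (gr q) (inc q (X s)) := by
  have : x.asHomogeneousIdeal.toIdeal.IsPrime := x.isPrime
  exact exists_X_notMem q x.asHomogeneousIdeal.toIdeal x.not_irrelevant_le

end cover

section hyp

variable (k : Type u) [Field k] (r : ℕ)

/-- the set of the variables `x_i, y_i` -/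
abbrev HS (r : ℕ) : Type := Fin r ⊕ Fin r

/-- the quadratic form `Σ x_i y_i` -/
def hyq : MvPolynomial (HS r) k := ∑ i, X (Sum.inl i) * X (Sum.inr i)

lemma hyq_mem : hyq k r ∈ homogeneousSubmodule (HS r) k 2 := by
  rw [hyq]
  exact sum_mem fun i _ => hmul (isHomogeneous_X k _) (isHomogeneous_X k _)

instance : Fact (hyq k r ∈ homogeneousSubmodule (HS r) k 2) := ⟨hyq_mem k r⟩

variable {r}

lemma swap_ne (c : HS r) : c ≠ c.swap := by
  cases c <;> simp

lemma exists_split (c : HS r) : ∃ q'' : MvPolynomial {s : HS r // s ≠ c ∧ s ≠ c.swap} k,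
    hyq k r = X c * X c.swap + rename Subtype.val q'' := by
  have key : ∀ j : Fin r, ∃ q' ∈ supported k {s : HS r | s ≠ Sum.inl j ∧ s ≠ Sum.inr j},
      hyq k r = X (Sum.inl j) * X (Sum.inr j) + q' := by
    intro j
    refine ⟨∑ i ∈ Finset.univ.erase j, X (Sum.inl i) * X (Sum.inr i), ?_, ?_⟩
    · refine sum_mem fun i hi => mul_mem ?_ ?_
      · rw [X_mem_supported]
        refine ⟨fun h => (Finset.mem_erase.mp hi).1 (Sum.inl_injective h), ?_⟩
        simp
      · rw [X_mem_supported]
        refine ⟨?_, fun h => (Finset.mem_erase.mp hi).1 (Sum.inr_injective h)⟩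
        simp
    · rw [hyq]
      exact (Finset.add_sum_erase _ (fun i => (X (Sum.inl i) * X (Sum.inr i) :
        MvPolynomial (HS r) k)) (Finset.mem_univ j)).symm
  have key2 : ∃ q' ∈ supported k {s : HS r | s ≠ c ∧ s ≠ c.swap},
      hyq k r = X c * X c.swap + q' := by
    rcases c with j | j
    · exact key j
    · obtain ⟨q', h1, h2⟩ := key j
      refine ⟨q', ?_, ?_⟩
      · have : {s : HS r | s ≠ Sum.inr j ∧ s ≠ (Sum.inr j : HS r).swap} =
            {s : HS r | s ≠ Sum.inl j ∧ s ≠ Sum.inr j} := by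
          ext s
          exact and_comm
        rw [this]
        exact h1
      · rw [h2, Sum.swap_inr, mul_comm (X (Sum.inr j))]
  obtain ⟨q', h1, h2⟩ := key2
  rw [supported_eq_range_rename] at h1
  obtain ⟨q'', rfl⟩ := h1
  exact ⟨q'', h2⟩

lemma pderiv_hyq (c : HS r) : pderiv c (hyq k r) = X c.swap := by
  classical
  obtain ⟨q'', h⟩ := exists_split k c
  have h1 : pderiv c (rename Subtype.val q'' : MvPolynomial (HS r) k) = 0 := by
    apply pderiv_eq_zero_of_notMem_vars
    intro hc
    have := vars_rename (Subtype.val : {s : HS r // s ≠ c ∧ s ≠ c.swap} → HS r) q'' hc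
    rw [Finset.mem_image] at this
    obtain ⟨s, -, hs⟩ := this
    exact s.2.1 hs
  rw [h, map_add, h1, Derivation.leibniz, pderiv_X_self, pderiv_X_of_ne (swap_ne c).symm]
  simp

lemma card_Tau (c : HS r) : Fintype.card (Tau c.swap) = 2 * r - 1 := by
  rw [Fintype.card_subtype_compl, Fintype.card_subtype_eq, Fintype.card_sum, Fintype.card_fin]
  omega

lemma isDomain_hyq [CharP k 2] (hr : 0 < r) : IsDomain (QA (hyq k r)) := by
  refine isDomain_QA (s := Sum.inl ⟨0, hr⟩) ?_
  rw [pderiv_hyq]
  exact X_ne_zero _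

/-- the chart `D₊(x_c)` is an affine space -/
theorem exists_chart [CharP k 2] (hr : 0 < r) (c : HS r) :
    ∃ e : MvPolynomial (Fin (2 * r - 1)) k ≃+* Away (gr (hyq k r)) (inc (hyq k r) (X c)),
      ∀ a : k, e (algebraMap k _ a) = fromZeroRingHom (gr (hyq k r))
        (Submonoid.powers (inc (hyq k r) (X c))) (algebraMap k (gr (hyq k r) 0) a) := by
  have := isDomain_hyq k hr
  obtain ⟨q'', hq⟩ := exists_split k c
  let F := FractionRing (QA (hyq k r))
  have hi : Function.Injective (algebraMap (QA (hyq k r)) F) := IsFractionRing.injective _ _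
  have hb : Function.Bijective (chG q'' (swap_ne c) hq) :=
    ⟨chG_injective q'' (swap_ne c) hq _ hi, chG_surjective q'' (swap_ne c) hq⟩
  let e1 : Away (gr (hyq k r)) (inc (hyq k r) (X c)) ≃+* MvPolynomial (Tau c.swap) k :=
    RingEquiv.ofBijective _ hb
  let e2 : Tau c.swap ≃ Fin (2 * r - 1) := Fintype.equivFinOfCardEq (card_Tau c)
  let e3 : MvPolynomial (Tau c.swap) k ≃ₐ[k] MvPolynomial (Fin (2 * r - 1)) k := renameEquiv k e2
  refine ⟨(e1.trans e3.toRingEquiv).symm, fun a => ?_⟩
  rw [RingEquiv.symm_apply_eq]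
  show _ = e3 (chG q'' (swap_ne c) hq _)
  have h1 : fromZeroRingHom (gr (hyq k r))
      (Submonoid.powers (inc (hyq k r) (X c))) (algebraMap k (gr (hyq k r) 0) a) =
      Away.mk (gr (hyq k r)) (inc_X_mem c) 0 (inc _ (C a))
        (by rw [zero_smul]; exact inc_mem (isHomogeneous_C _ _)) := by
    apply HomogeneousLocalization.val_injective
    rw [Away.val_mk]
    rfl
  rw [h1, chG, dehA_mk, chE_C]
  exact (e3.commutes a).symm

theorem smooth_hyq [CharP k 2] (hr : 0 < r) :
    SmoothOfRelativeDimension (2 * r - 1) (strK (gr (hyq k r))) := by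
  apply smooth_of_charts
  intro x
  obtain ⟨c, hc⟩ := exists_mem_chart (hyq k r) x
  exact ⟨_, inc_X_mem c, hc, exists_chart k hr c⟩

end hyp

end

end Pool.Agent.W5h90.CP
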