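import Pool.Agent.W5h90.CP.Emb
import Pool.Agent.W5h90.CP.Fun

/-!
The local rings of `Proj 𝒜` and the rings of functions on the open sets `D₊(f)`, inside a field
containing the graded domain `A`.
-/

set_option autoImplicit false
set_option linter.unusedSectionVars false

open AlgebraicGeometry CategoryTheory HomogeneousLocalization

universe u

namespace Pool.Agent.W5h90.CP

variable {σ : Type*} {A : Type u} [CommRing A] [SetLike σ A] [AddSubgroupClass σ A]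
  (𝒜 : ℕ → σ) [GradedRing 𝒜] {F : Type u} [Field F] (i : A →+* F) (hi : Function.Injective i)
  [IsIntegral (Proj 𝒜)]

include hi

theorem kap_ev {m : ℕ} (hm : 0 < m) {f : A} (hf : f ∈ 𝒜 m) (n : ℕ) {s : A}
    (hs : s ∈ 𝒜 (n * m)) (hU : (Proj.basicOpen 𝒜 f : Set (Proj 𝒜)).Nonempty) :
    kap 𝒜 i hi (ev hU (Proj.awayToSection 𝒜 f (Away.mk 𝒜 hf n s hs))) = i s / i f ^ n :=
  kap_spec 𝒜 i hi hm hf n hs (gen_mem hU)

theorem ne_zero_of_nonempty {f : A} (hU : (Proj.basicOpen 𝒜 f : Set (Proj 𝒜)).Nonempty) :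
    i f ≠ 0 := by
  obtain ⟨x, hx⟩ := hU
  intro h0
  have : f = 0 := hi (by rw [h0, map_zero])
  subst this
  exact hx (zero_mem _)

theorem awayToSection_surjective {m : ℕ} (hm : 0 < m) {f : A} (hf : f ∈ 𝒜 m)
    (s : Γ(Proj 𝒜, Proj.basicOpen 𝒜 f)) :
    ∃ (n : ℕ) (a : A) (ha : a ∈ 𝒜 (n * m)), Proj.awayToSection 𝒜 f (Away.mk 𝒜 hf n a ha) = s := by
  obtain ⟨n, a, ha, h⟩ := Away.mk_surjective 𝒜 hf ((Proj.basicOpenIsoAway 𝒜 f hf hm).inv.hom s)
  refine ⟨n, a, ha, ?_⟩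
  rw [h]
  show ((Proj.basicOpenIsoAway 𝒜 f hf hm).hom.hom
    ((Proj.basicOpenIsoAway 𝒜 f hf hm).inv.hom s)) = s
  rw [← CommRingCat.comp_apply, Iso.inv_hom_id]
  rfl

theorem exists_frac_section {m : ℕ} (hm : 0 < m) {f : A} (hf : f ∈ 𝒜 m)
    (hU : (Proj.basicOpen 𝒜 f : Set (Proj 𝒜)).Nonempty) (s : Γ(Proj 𝒜, Proj.basicOpen 𝒜 f)) :
    ∃ (n : ℕ) (a : A), a ∈ 𝒜 (n * m) ∧ kap 𝒜 i hi (ev hU s) = i a / i f ^ n := by
  obtain ⟨n, a, ha, rfl⟩ := awayToSection_surjective 𝒜 i hi hm hf s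
  exact ⟨n, a, ha, kap_ev 𝒜 i hi hm hf n ha hU⟩

theorem exists_section_frac {m : ℕ} (hm : 0 < m) {f : A} (hf : f ∈ 𝒜 m)
    (hU : (Proj.basicOpen 𝒜 f : Set (Proj 𝒜)).Nonempty) (n : ℕ) {a : A} (ha : a ∈ 𝒜 (n * m)) :
    ∃ s : Γ(Proj 𝒜, Proj.basicOpen 𝒜 f), kap 𝒜 i hi (ev hU s) = i a / i f ^ n :=
  ⟨_, kap_ev 𝒜 i hi hm hf n ha hU⟩

/-- elements of the local ring at `x` are fractions `a / b` with `b(x) ≠ 0` -/
theorem exists_frac_stalk (x : Proj 𝒜) (a : (Proj 𝒜).presheaf.stalk x) :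
    ∃ (d : ℕ) (_ : 0 < d) (s t : A) (_ : s ∈ 𝒜 d) (_ : t ∈ 𝒜 d) (_ : t ∉ x.asHomogeneousIdeal),
      kap 𝒜 i hi (algebraMap _ (Proj 𝒜).functionField a) = i s / i t := by
  classical
  obtain ⟨U, hxU, s, rfl⟩ := (Proj 𝒜).presheaf.exists_germ_eq a
  -- a chart `D₊(f)` with `f` homogeneous of positive degree
  obtain ⟨V, ⟨f, rfl⟩, hxV, hVU⟩ :=
    (TopologicalSpace.Opens.isBasis_iff_nbhd.mp (Proj.isBasis_basicOpen 𝒜)) hxU
  -- homogeneous component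
  have h1 : ∃ d, GradedRing.proj 𝒜 d f ∉ x.asHomogeneousIdeal := by
    have : x ∈ Proj.basicOpen 𝒜 f := hxV
    rw [Proj.basicOpen_eq_iSup_proj, TopologicalSpace.Opens.mem_iSup] at this
    exact this
  obtain ⟨d, hd⟩ := h1
  have h2 : ∃ (e : ℕ) (_ : 0 < e) (g : A), g ∈ 𝒜 e ∧ g ∉ x.asHomogeneousIdeal := by
    by_contra hcon
    push Not at hcon
    apply x.not_irrelevant_le
    intro g hg
    have h3 : ∀ e, (DirectSum.decompose 𝒜 g e : A) ∈ x.asHomogeneousIdeal := by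
      intro e
      rcases Nat.eq_zero_or_pos e with rfl | he
      · have h4 := (HomogeneousIdeal.mem_irrelevant_iff _ _).mp hg
        rw [GradedRing.proj_apply] at h4
        rw [h4]
        exact zero_mem _
      · exact hcon e he _ (SetLike.coe_mem _)
    have h5 := DirectSum.sum_support_decompose 𝒜 g
    rw [← h5]
    exact Ideal.sum_mem _ fun e _ => h3 e
  obtain ⟨e, he, g, hg, hgx⟩ := h2
  set f' := GradedRing.proj 𝒜 d f with hf'
  have hf'm : f' ∈ 𝒜 d := by rw [hf', GradedRing.proj_apply]; exact SetLike.coe_mem _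
  have hprime : x.asHomogeneousIdeal.toIdeal.IsPrime := x.isPrime
  have hmem : f' * g ∈ 𝒜 (d + e) := SetLike.mul_mem_graded hf'm hg
  have hx' : x ∈ Proj.basicOpen 𝒜 (f' * g) := by
    intro h
    rcases hprime.mem_or_mem h with h | h
    · exact hd h
    · exact hgx h
  have hle : Proj.basicOpen 𝒜 (f' * g) ≤ U := by
    refine le_trans ?_ hVU
    rw [Proj.basicOpen_mul]
    refine le_trans inf_le_left ?_
    show Proj.basicOpen 𝒜 f' ≤ Proj.basicOpen 𝒜 f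
    rw [Proj.basicOpen_eq_iSup_proj 𝒜 f]
    exact le_iSup (fun j => Proj.basicOpen 𝒜 (GradedRing.proj 𝒜 j f)) d
  have hne : (Proj.basicOpen 𝒜 (f' * g) : Set (Proj 𝒜)).Nonempty := ⟨x, hx'⟩
  have hUne : (U : Set (Proj 𝒜)).Nonempty := ⟨x, hxU⟩
  obtain ⟨n, b, hb, hbe⟩ := exists_frac_section 𝒜 i hi (by omega : 0 < d + e) hmem hne (res hle s)
  rw [ev_res hne hUne] at hbe
  have h0 := ne_zero_of_nonempty 𝒜 i hi hne
  refine ⟨(n + 1) * (d + e), by positivity, b * (f' * g), (f' * g) ^ (n + 1), ?_, ?_, ?_, ?_⟩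
  · have h6 : n * (d + e) + (d + e) = (n + 1) * (d + e) := by ring
    rw [← h6]
    exact SetLike.mul_mem_graded hb hmem
  · exact SetLike.pow_mem_graded (n + 1) hmem
  · intro h
    exact hx' (hprime.mem_of_pow_mem _ h)
  · rw [algebraMap_germ hUne hxU, hbe, i.map_mul b (f' * g), i.map_pow, pow_succ,
      mul_div_mul_right _ _ h0]

/-- fractions `a / b` with `b(x) ≠ 0` are elements of the local ring at `x` -/
theorem exists_stalk_frac (x : Proj 𝒜) {d : ℕ} (hd : 0 < d) {s t : A} (hs : s ∈ 𝒜 d)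
    (ht : t ∈ 𝒜 d) (htx : t ∉ x.asHomogeneousIdeal) :
    ∃ a : (Proj 𝒜).presheaf.stalk x,
      kap 𝒜 i hi (algebraMap _ (Proj 𝒜).functionField a) = i s / i t := by
  have hx : x ∈ Proj.basicOpen 𝒜 t := htx
  have hne : (Proj.basicOpen 𝒜 t : Set (Proj 𝒜)).Nonempty := ⟨x, hx⟩
  have hs' : s ∈ 𝒜 (1 * d) := by rwa [one_mul]
  obtain ⟨a, ha⟩ := exists_section_frac 𝒜 i hi hd ht hne 1 hs'
  refine ⟨(Proj 𝒜).presheaf.germ _ x hx a, ?_⟩
  rw [algebraMap_germ hne hx, ha, pow_one]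

theorem kap_injective : Function.Injective (kap 𝒜 i hi) := RingHom.injective _

end Pool.Agent.W5h90.CP
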