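import Pool.Agent.W5h90.CP.Prim
import Pool.Agent.W5h90.CP.Defs

/-!
Points of codimension one of `ℙⁿ`.
-/

set_option autoImplicit false
set_option linter.unusedSectionVars false

open MvPolynomial HomogeneousLocalization AlgebraicGeometry CategoryTheory

universe u

namespace Pool.Agent.W5h90.CP

attribute [local instance] MvPolynomial.gradedAlgebra

noncomputable section

/-- a divisor of a form is a form -/
theorem homog_of_dvd {k : Type*} [Field k] {σ : Type*} [Finite σ] {F G : MvPolynomial σ k} {n : ℕ}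
    (hF : F.IsHomogeneous n) (hF0 : F ≠ 0) (h : G ∣ F) : G.IsHomogeneous G.totalDegree := by
  obtain ⟨K, rfl⟩ := h
  have hG0 : G ≠ 0 := left_ne_zero_of_mul hF0
  have hK0 : K ≠ 0 := right_ne_zero_of_mul hF0
  have hle : ∀ P : MvPolynomial σ k, P ≠ 0 → (P : MvPowerSeries σ k).order ≤ P.totalDegree := by
    intro P hP
    obtain ⟨d, hd⟩ := MvPolynomial.ne_zero_iff.1 hP
    have h1 : (P : MvPowerSeries σ k).order ≤ (d.degree : ℕ∞) :=
      MvPowerSeries.order_le (by simpa using hd)
    refine h1.trans ?_
    have h2 : d.degree ≤ P.totalDegree := by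
      have := MvPolynomial.le_totalDegree (p := P) (s := d) (MvPolynomial.mem_support_iff.2 hd)
      simpa [Finsupp.degree_apply, Finsupp.sum] using this
    exact_mod_cast h2
  have hmul : ((G * K : MvPolynomial σ k) : MvPowerSeries σ k).order =
      (G : MvPowerSeries σ k).order + (K : MvPowerSeries σ k).order := by
    rw [MvPolynomial.coe_mul, MvPowerSeries.order_mul]
  have hFo : (n : ℕ∞) ≤ ((G * K : MvPolynomial σ k) : MvPowerSeries σ k).order := by
    apply MvPowerSeries.nat_le_order
    intro d hd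
    rw [MvPolynomial.coeff_coe]
    by_contra hne
    have := hF hne
    have h' : d.degree = n := by rw [← this, Finsupp.degree_eq_weight_one]; rfl
    omega
  have hT : (G * K).totalDegree = n := hF.totalDegree hF0
  rw [MvPolynomial.totalDegree_mul_of_isDomain hG0 hK0] at hT
  have hGo := hle G hG0
  have hKo := hle K hK0
  rw [hmul] at hFo
  intro d hd
  have h1 : (G : MvPowerSeries σ k).order ≤ (d.degree : ℕ∞) :=
      MvPowerSeries.order_le (by simpa using hd)
  have h2 : d.degree ≤ G.totalDegree := by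
      have := MvPolynomial.le_totalDegree (p := G) (s := d) (MvPolynomial.mem_support_iff.2 hd)
      simpa [Finsupp.degree_apply, Finsupp.sum] using this
  have h3 : (n : ℕ∞) ≤ (d.degree : ℕ∞) + (K.totalDegree : ℕ∞) := hFo.trans (add_le_add h1 hKo)
  have h4 : n ≤ d.degree + K.totalDegree := by exact_mod_cast h3
  have h5 : d.degree = G.totalDegree := by omega
  rw [← h5, Finsupp.degree_eq_weight_one]
  rfl

variable {k : Type u} [Field k] {n : ℕ}

/-- the grading of the polynomial ring -/
abbrev hs (k : Type u) [Field k] (n : ℕ) : ℕ → Submodule k (MvPolynomial (Fin (n + 1)) k) :=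
  homogeneousSubmodule (Fin (n + 1)) k

lemma exists_X_notMem_PN (P : Ideal (MvPolynomial (Fin (n + 1)) k)) [P.IsPrime]
    (hirr : ¬ (HomogeneousIdeal.irrelevant (hs k n)).toIdeal ≤ P) : ∃ j, X j ∉ P := by
  classical
  by_contra hcon
  push Not at hcon
  apply hirr
  have h1 : ∀ f : MvPolynomial (Fin (n + 1)) k, f - C (coeff 0 f) ∈ P := by
    intro f
    rw [← Ideal.Quotient.mk_eq_mk_iff_sub_mem]
    have h2 : (Ideal.Quotient.mk P) = (Ideal.Quotient.mk P).comp (C.comp constantCoeff) := by
      apply MvPolynomial.ringHom_ext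
      · intro a
        simp
      · intro s
        have h3 : (Ideal.Quotient.mk P) (X s) = 0 := Ideal.Quotient.eq_zero_iff_mem.mpr (hcon s)
        simpa using h3
    exact congrArg (fun t => t f) h2
  intro a ha
  have h4 := (HomogeneousIdeal.mem_irrelevant_iff _ _).mp ha
  have h5 : coeff 0 a = 0 := by
    rw [GradedRing.proj_apply] at h4
    have h6 : (DirectSum.decompose (hs k n) a 0 : MvPolynomial (Fin (n + 1)) k) =
      homogeneousComponent 0 a := decomposition.decompose'_apply a 0
    rw [h6, homogeneousComponent_zero] at h4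
    exact (map_eq_zero _).mp h4
  have h7 := h1 a
  rwa [h5, map_zero, sub_zero] at h7

theorem exists_irreducible [IsIntegral (PP k n)] (η : PP k n) (h0 : η ≠ genericPoint (PP k n))
    (hη : ∀ y : PP k n, y ⤳ η → y = genericPoint (PP k n) ∨ y = η) :
    ∃ (G : MvPolynomial (Fin (n + 1)) k) (d : ℕ), Irreducible G ∧ 0 < d ∧ G ∈ hs k n d ∧
      η.asHomogeneousIdeal.toIdeal = Ideal.span {G} := by
  classical
  have hp : η.asHomogeneousIdeal.toIdeal.IsPrime := η.isPrime
  have h1 : ∃ g d, g ∈ hs k n d ∧ g ≠ 0 ∧ g ∈ η.asHomogeneousIdeal.toIdeal := by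
    by_contra hcon
    push Not at hcon
    apply h0
    have h2 : η.asHomogeneousIdeal.toIdeal = ⊥ := by
      rw [eq_bot_iff]
      intro a ha
      rw [Ideal.mem_bot, ← DirectSum.sum_support_decompose (hs k n) a]
      refine Finset.sum_eq_zero fun d _ => ?_
      by_contra h3
      exact hcon _ d (SetLike.coe_mem _) h3 (η.asHomogeneousIdeal.isHomogeneous d ha)
    have h3 : η ⤳ genericPoint (PP k n) := by
      rw [specializes_iff, h2]
      exact bot_le
    exact (h3.antisymm (genericPoint_specializes η)).eq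
  obtain ⟨g, e, hg, hg0, hgη⟩ := h1
  have hg' : g.IsHomogeneous e := hg
  -- an irreducible factor in the prime ideal
  have h2 : ∃ G, Irreducible G ∧ G ∣ g ∧ G ∈ η.asHomogeneousIdeal.toIdeal := by
    have h3 := UniqueFactorizationMonoid.factors_prod hg0
    have h4 : (UniqueFactorizationMonoid.factors g).prod ∈ η.asHomogeneousIdeal.toIdeal := by
      obtain ⟨u, hu⟩ := h3
      rw [← hu] at hgη
      rcases hp.mem_or_mem hgη with h | h
      · exact h
      · exact absurd (Ideal.eq_top_of_isUnit_mem _ h u.isUnit) hp.ne_top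
    obtain ⟨G, hG, hGη⟩ := (hp.multiset_prod_mem_iff_exists_mem _).mp h4
    exact ⟨G, UniqueFactorizationMonoid.irreducible_of_factor G hG,
      UniqueFactorizationMonoid.dvd_of_mem_factors hG, hGη⟩
  obtain ⟨G, hGi, hGd, hGη⟩ := h2
  have hGh : G.IsHomogeneous G.totalDegree := homog_of_dvd hg' hg0 hGd
  have hd : 0 < G.totalDegree := by
    rw [Nat.pos_iff_ne_zero]
    intro h3
    rw [totalDegree_eq_zero_iff_eq_C] at h3
    apply hGi.not_isUnit
    rw [h3]
    refine (isUnit_iff_ne_zero.mpr fun h4 => ?_).map C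
    rw [h4, map_zero] at h3
    exact hGi.ne_zero h3
  refine ⟨G, G.totalDegree, hGi, hd, hGh, ?_⟩
  have hGp : Prime G := hGi.prime
  have hsp : (Ideal.span {G}).IsPrime := (Ideal.span_singleton_prime hGi.ne_zero).mpr hGp
  have hle : Ideal.span {G} ≤ η.asHomogeneousIdeal.toIdeal :=
    (Ideal.span_singleton_le_iff_mem _).mpr hGη
  let z : PP k n := ptOf (hs k n) (Ideal.span {G}) hsp
    (Ideal.homogeneous_span _ _ (by rintro x rfl; exact ⟨_, hGh⟩))
    (fun h => η.not_irrelevant_le (h.trans hle))
  have hz : z.asHomogeneousIdeal.toIdeal = Ideal.span {G} := rfl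
  have hzη : z ⤳ η := by
    rw [specializes_iff, hz]
    exact hle
  rcases hη z hzη with h | h
  · exfalso
    have h3 := generic_mem (hs k n) ⟨1, one_pos, X 0, isHomogeneous_X k 0, X_ne_zero 0⟩ hGi.ne_zero
    rw [← h] at h3
    exact h3 (Ideal.mem_span_singleton_self G)
  · rw [← h, hz]

end

end Pool.Agent.W5h90.CP
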