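import Pool.Agent.W5h90.CP.Geo
import Pool.Agent.W5h90.CP.Emb

/-!
The ideal `(x_c)` of the homogeneous coordinate ring of the quadric is prime, and the corresponding
point has no generizations besides itself and the generic point.
-/

set_option autoImplicit false
set_option linter.unusedSectionVars false

open MvPolynomial HomogeneousLocalization AlgebraicGeometry CategoryTheory

universe u

namespace Pool.Agent.W5h90.CP

attribute [local instance] MvPolynomial.gradedAlgebra

noncomputable section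

section gen

lemma eq_bot_of_le_span {A : Type*} [CommRing A] [IsDomain A] [IsNoetherianRing A] {P : Ideal A}
    [hP : P.IsPrime] {x : A} (hx : x ∉ P) (h1 : Ideal.span {x} ≠ ⊤) (h : P ≤ Ideal.span {x}) :
    P = ⊥ := by
  have h2 : ∀ n : ℕ, ∀ a ∈ P, a ∈ Ideal.span {x} ^ n := by
    intro n
    induction n with
    | zero =>
      intro a _
      rw [pow_zero, Ideal.one_eq_top]
      trivial
    | succ n ih =>
      intro a ha
      obtain ⟨b, rfl⟩ := Ideal.mem_span_singleton'.mp (h ha)
      have hb : b ∈ P := (hP.mem_or_mem ha).resolve_right hx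
      rw [pow_succ]
      exact Ideal.mul_mem_mul (ih b hb) (Ideal.mem_span_singleton_self x)
  rw [eq_bot_iff, ← Ideal.iInf_pow_eq_bot_of_isDomain _ h1]
  intro a ha
  rw [Ideal.mem_iInf]
  exact fun n => h2 n a ha

variable {σ : Type*} {A : Type u} [CommRing A] [SetLike σ A] [AddSubgroupClass σ A]
  (𝒜 : ℕ → σ) [GradedRing 𝒜]

/-- in a graded domain a cofactor of a homogeneous element is homogeneous -/
lemma mem_of_mul_mem [IsDomain A] {i j : ℕ} {a b : A} (ha : a ∈ 𝒜 i) (ha0 : a ≠ 0)
    (h : a * b ∈ 𝒜 (i + j)) : b ∈ 𝒜 j := by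
  classical
  have h1 : ∀ n, n ≠ j → (DirectSum.decompose 𝒜 b n : A) = 0 := by
    intro n hn
    have h2 := DirectSum.coe_decompose_mul_add_of_left_mem (𝒜 := 𝒜) (j := n) (b := b) ha
    rw [DirectSum.decompose_of_mem_ne 𝒜 h (by omega)] at h2
    exact (mul_eq_zero.mp h2.symm).resolve_left ha0
  have h3 := DirectSum.sum_support_decompose 𝒜 b
  have h4 : (DirectSum.decompose 𝒜 b j : A) = b := by
    conv_rhs => rw [← h3]
    by_cases hj : j ∈ DFinsupp.support (DirectSum.decompose 𝒜 b)
    · rw [Finset.sum_eq_single_of_mem j hj (fun n _ hn => h1 n hn)]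
    · have h5 : ∑ n ∈ DFinsupp.support (DirectSum.decompose 𝒜 b),
          (DirectSum.decompose 𝒜 b n : A) = 0 :=
        Finset.sum_eq_zero fun n hn => h1 n fun h6 => hj (h6 ▸ hn)
      rw [h5]
      rw [DFinsupp.notMem_support_iff] at hj
      rw [hj]
      rfl
  rw [← h4]
  exact SetLike.coe_mem _

/-- the point of `Proj 𝒜` of a homogeneous prime ideal -/
def ptOf (P : Ideal A) (h1 : P.IsPrime) (h2 : P.IsHomogeneous 𝒜)
    (h3 : ¬ (HomogeneousIdeal.irrelevant 𝒜).toIdeal ≤ P) : Proj 𝒜 :=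
  (⟨⟨P, h2⟩, h1, h3⟩ : ProjectiveSpectrum 𝒜)

lemma ptOf_ideal (P : Ideal A) (h1 : P.IsPrime) (h2 : P.IsHomogeneous 𝒜)
    (h3 : ¬ (HomogeneousIdeal.irrelevant 𝒜).toIdeal ≤ P) :
    (ptOf 𝒜 P h1 h2 h3).asHomogeneousIdeal.toIdeal = P := rfl

lemma specializes_iff (x y : Proj 𝒜) :
    x ⤳ y ↔ x.asHomogeneousIdeal.toIdeal ≤ y.asHomogeneousIdeal.toIdeal := by
  rw [specializes_iff_mem_closure]
  exact (ProjectiveSpectrum.le_iff_mem_closure (𝒜 := 𝒜) x y).symm

lemma eq_of_ideal_eq {x y : Proj 𝒜}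
    (h : x.asHomogeneousIdeal.toIdeal = y.asHomogeneousIdeal.toIdeal) : x = y :=
  (((specializes_iff 𝒜 x y).mpr h.le).antisymm ((specializes_iff 𝒜 y x).mpr h.ge)).eq

end gen

section pr

variable (k : Type u) [Field k] {r : ℕ}

open Classical in
/-- the substitution `x_c = 0` -/
def sub0 (c : HS r) : MvPolynomial (HS r) k →ₐ[k] MvPolynomial (HS r) k :=
  aeval fun s => if s = c then 0 else X s

lemma sub0_self (c : HS r) : sub0 k c (X c) = 0 := by
  rw [sub0, aeval_X, if_pos rfl]

lemma sub0_ne {c s : HS r} (h : s ≠ c) : sub0 k c (X s) = X s := by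
  rw [sub0, aeval_X, if_neg h]

lemma sub0_dvd (c : HS r) (f : MvPolynomial (HS r) k) : X c ∣ f - sub0 k c f := by
  rw [← Ideal.mem_span_singleton, ← Ideal.Quotient.mk_eq_mk_iff_sub_mem]
  have h1 : (Ideal.Quotient.mk (Ideal.span {(X c : MvPolynomial (HS r) k)})) =
      (Ideal.Quotient.mk (Ideal.span {(X c : MvPolynomial (HS r) k)})).comp
        (sub0 k c).toRingHom := by
    apply MvPolynomial.ringHom_ext
    · intro a
      exact congrArg _ ((sub0 k c).commutes a).symm
    · intro s
      show _ = Ideal.Quotient.mk _ (sub0 k c (X s))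
      by_cases h : s = c
      · subst h
        rw [sub0_self, map_zero, Ideal.Quotient.eq_zero_iff_mem]
        exact Ideal.mem_span_singleton_self _
      · rw [sub0_ne k h]
  exact congrArg (fun t => t f) h1

lemma pderiv_sub0 {c : HS r} {i : Fin r} (h1 : Sum.inl i ≠ c) (h2 : Sum.inr i ≠ c) :
    pderiv (Sum.inl i) (sub0 k c (hyq k r)) = X (Sum.inr i) := by
  classical
  have h3 : ∀ s : HS r, s ≠ Sum.inl i → pderiv (Sum.inl i) (sub0 k c (X s)) = 0 := by
    intro s hs
    by_cases h : s = c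
    · subst h
      rw [sub0_self, map_zero]
    · rw [sub0_ne k h, pderiv_X_of_ne hs]
  rw [hyq, map_sum, map_sum, Finset.sum_eq_single i]
  · rw [map_mul, sub0_ne k h1, sub0_ne k h2, Derivation.leibniz, pderiv_X_self,
      pderiv_X_of_ne (by simp)]
    simp
  · intro j _ hj
    rw [map_mul, Derivation.leibniz, h3 (Sum.inr j) (by simp),
      h3 (Sum.inl j) (fun h => hj (Sum.inl_injective h)), smul_zero, smul_zero, add_zero]
  · intro h
    exact absurd (Finset.mem_univ i) h

lemma exists_other (hr : 2 ≤ r) (c : HS r) : ∃ i : Fin r, Sum.inl i ≠ c ∧ Sum.inr i ≠ c := by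
  have : Nontrivial (Fin r) := Fin.nontrivial_iff_two_le.mpr hr
  rcases c with j | j
  all_goals
    obtain ⟨i, hi⟩ := exists_ne j
    refine ⟨i, ?_, ?_⟩ <;> simp [hi]

lemma isDomain_sub0 [CharP k 2] (hr : 2 ≤ r) (c : HS r) :
    IsDomain (QA (sub0 k c (hyq k r))) := by
  obtain ⟨i, h1, h2⟩ := exists_other hr c
  refine isDomain_QA (s := Sum.inl i) ?_
  rw [pderiv_sub0 k h1 h2]
  exact X_ne_zero _

/-- reduction modulo `x_c` -/
def redc (c : HS r) : QA (hyq k r) →+* QA (sub0 k c (hyq k r)) :=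
  liftHom ((inc _).comp (sub0 k c).toRingHom) (om _) om_mul_om

lemma redc_apply (c : HS r) (a : QA (hyq k r)) : redc k c a = ⟨sub0 k c a.re, sub0 k c a.im⟩ := by
  rw [redc, liftHom_apply]
  exact (eq_inc_add (q := sub0 k c (hyq k r)) ⟨sub0 k c a.re, sub0 k c a.im⟩).symm

lemma ker_redc (c : HS r) : RingHom.ker (redc k c) = Ideal.span {inc (hyq k r) (X c)} := by
  apply le_antisymm
  · intro a ha
    rw [RingHom.mem_ker, redc_apply] at ha
    have h1 : sub0 k c a.re = 0 := congrArg QuadraticAlgebra.re ha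
    have h2 : sub0 k c a.im = 0 := congrArg QuadraticAlgebra.im ha
    have h3 := sub0_dvd k c a.re
    have h4 := sub0_dvd k c a.im
    rw [h1, sub_zero] at h3
    rw [h2, sub_zero] at h4
    rw [Ideal.mem_span_singleton, eq_inc_add a]
    exact dvd_add ((inc (hyq k r)).map_dvd h3) (Dvd.dvd.mul_right ((inc (hyq k r)).map_dvd h4) _)
  · rw [Ideal.span_singleton_le_iff_mem, RingHom.mem_ker, redc_apply, inc_re, inc_im, sub0_self,
      map_zero]
    rfl

variable [CharP k 2] (hr : 2 ≤ r)

include hr in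
lemma isPrime_span (c : HS r) : (Ideal.span {inc (hyq k r) (X c)}).IsPrime := by
  have := isDomain_sub0 k hr c
  rw [← ker_redc]
  exact RingHom.ker_isPrime _

lemma swap_notMem (c : HS r) : inc (hyq k r) (X c.swap) ∉ Ideal.span {inc (hyq k r) (X c)} := by
  rw [← ker_redc, RingHom.mem_ker, redc_apply, inc_re, inc_im, sub0_ne k (swap_ne c).symm]
  intro h
  exact X_ne_zero _ (congrArg QuadraticAlgebra.re h)

/-- the point of the hyperplane section `x_c = 0` -/
def ξX (c : HS r) : Proj (gr (hyq k r)) :=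
  ptOf (gr (hyq k r)) (Ideal.span {inc (hyq k r) (X c)}) (isPrime_span k hr c)
    (Ideal.homogeneous_span _ _ (by
      rintro x rfl
      exact ⟨1, inc_X_mem c⟩))
    (by
      intro h
      refine swap_notMem k c (h ?_)
      show _ ∈ HomogeneousIdeal.irrelevant _
      rw [HomogeneousIdeal.mem_irrelevant_iff, GradedRing.proj_apply,
        DirectSum.decompose_of_mem_ne _ (inc_X_mem c.swap) one_ne_zero])

lemma ξX_ideal (c : HS r) : (ξX k hr c).asHomogeneousIdeal.toIdeal =
    Ideal.span {inc (hyq k r) (X c)} := rfl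

instance : IsNoetherianRing (QA (hyq k r)) :=
  IsNoetherianRing.of_finite (MvPolynomial (HS r) k) (QA (hyq k r))

/-- the generizations of the point `(x_c)` -/
theorem generization_ξX [IsDomain (QA (hyq k r))] [IsIntegral (Proj (gr (hyq k r)))] (c : HS r)
    (y : Proj (gr (hyq k r))) (hy : y ⤳ ξX k hr c) :
    y = genericPoint (Proj (gr (hyq k r))) ∨ y = ξX k hr c := by
  rw [specializes_iff, ξX_ideal] at hy
  have hp : y.asHomogeneousIdeal.toIdeal.IsPrime := y.isPrime
  by_cases h : inc (hyq k r) (X c) ∈ y.asHomogeneousIdeal.toIdeal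
  · right
    apply eq_of_ideal_eq
    rw [ξX_ideal]
    exact le_antisymm hy ((Ideal.span_singleton_le_iff_mem _).mpr h)
  · left
    have h1 := eq_bot_of_le_span h (isPrime_span k hr c).ne_top hy
    have h2 : y ⤳ genericPoint (Proj (gr (hyq k r))) := by
      rw [specializes_iff, h1]
      exact bot_le
    exact (h2.antisymm (genericPoint_specializes y)).eq

end pr

end

end Pool.Agent.W5h90.CP
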