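import Mathlib

/-!
The graded algebra `k[x_s (s ∈ σ), ω] / (ω² - q)` for a quadratic form `q` over a field `k` of
characteristic two.
-/

set_option autoImplicit false

open MvPolynomial

universe u

namespace Pool.Agent.W5h90.CP

attribute [local instance] MvPolynomial.gradedAlgebra

noncomputable section

variable {k : Type u} [Field k] {σ : Type}

/-- `k[x_s (s ∈ σ), ω] / (ω² - q)` -/
abbrev QA (q : MvPolynomial σ k) : Type u := QuadraticAlgebra (MvPolynomial σ k) q 0

variable (q : MvPolynomial σ k)

/-- the degree `n` part of `k[x] ω` -/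
def imPart : ℕ → Submodule k (MvPolynomial σ k)
  | 0 => ⊥
  | n + 1 => homogeneousSubmodule σ k n

/-- the grading of `QA q` -/
def gr (n : ℕ) : Submodule k (QA q) where
  carrier := {a | a.re ∈ homogeneousSubmodule σ k n ∧ a.im ∈ imPart (k := k) (σ := σ) n}
  zero_mem' := ⟨zero_mem _, zero_mem _⟩
  add_mem' ha hb := ⟨add_mem ha.1 hb.1, add_mem ha.2 hb.2⟩
  smul_mem' c _ ha := ⟨Submodule.smul_mem _ c ha.1, Submodule.smul_mem _ c ha.2⟩

lemma mem_gr {n : ℕ} {a : QA q} :
    a ∈ gr q n ↔ a.re ∈ homogeneousSubmodule σ k n ∧ a.im ∈ imPart (k := k) (σ := σ) n := Iff.rfl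

lemma re_mul' (a b : QA q) : (a * b).re = a.re * b.re + q * (a.im * b.im) := by
  rw [QuadraticAlgebra.re_mul]; ring

lemma im_mul' (a b : QA q) : (a * b).im = a.re * b.im + a.im * b.re := by
  rw [QuadraticAlgebra.im_mul]; ring

lemma hmul {m n : ℕ} {a b : MvPolynomial σ k} (ha : a ∈ homogeneousSubmodule σ k m)
    (hb : b ∈ homogeneousSubmodule σ k n) : a * b ∈ homogeneousSubmodule σ k (m + n) :=
  IsHomogeneous.mul ha hb

lemma imPart_mul {m n : ℕ} {a b : MvPolynomial σ k} (ha : a ∈ homogeneousSubmodule σ k m)
    (hb : b ∈ imPart (k := k) (σ := σ) n) : a * b ∈ imPart (k := k) (σ := σ) (m + n) := by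
  cases n with
  | zero =>
    have : b = 0 := hb
    rw [this, mul_zero]
    exact zero_mem _
  | succ n => exact hmul ha hb

lemma imPart_mul_imPart {q : MvPolynomial σ k} (hq : q ∈ homogeneousSubmodule σ k 2) {m n : ℕ}
    {a b : MvPolynomial σ k}
    (ha : a ∈ imPart (k := k) (σ := σ) m) (hb : b ∈ imPart (k := k) (σ := σ) n) :
    q * (a * b) ∈ homogeneousSubmodule σ k (m + n) := by
  cases m with
  | zero =>
    have : a = 0 := ha
    rw [this, zero_mul, mul_zero]
    exact zero_mem _
  | succ m =>
    cases n with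
    | zero =>
      have : b = 0 := hb
      rw [this, mul_zero, mul_zero]
      exact zero_mem _
    | succ n =>
      have h : 2 + (m + n) = m + 1 + (n + 1) := by ring
      rw [← h]
      exact hmul hq (hmul ha hb)

theorem gradedMonoid_gr (hq : q ∈ homogeneousSubmodule σ k 2) : SetLike.GradedMonoid (gr q) where
  one_mem := ⟨isHomogeneous_one σ k, zero_mem _⟩
  mul_mem m n a b ha hb := by
    refine ⟨?_, ?_⟩
    · rw [re_mul']
      exact add_mem (hmul ha.1 hb.1) (imPart_mul_imPart hq ha.2 hb.2)
    · rw [im_mul']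
      refine add_mem (imPart_mul ha.1 hb.2) ?_
      rw [mul_comm, add_comm m n]
      exact imPart_mul hb.1 ha.2

/-- the inclusion of the forms of degree `n` -/
def reIncl (n : ℕ) : homogeneousSubmodule σ k n →ₗ[k] gr q n where
  toFun f := ⟨⟨f.1, 0⟩, f.2, zero_mem _⟩
  map_add' f g := by
    apply Subtype.ext
    apply QuadraticAlgebra.ext
    · rfl
    · simp
  map_smul' c f := by
    apply Subtype.ext
    apply QuadraticAlgebra.ext
    · rfl
    · simp

/-- multiplication of the forms of degree `n` by `ω` -/
def imIncl (n : ℕ) : homogeneousSubmodule σ k n →ₗ[k] gr q (n + 1) where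
  toFun f := ⟨⟨0, f.1⟩, zero_mem _, f.2⟩
  map_add' f g := by
    apply Subtype.ext
    apply QuadraticAlgebra.ext
    · simp
    · rfl
  map_smul' c f := by
    apply Subtype.ext
    apply QuadraticAlgebra.ext
    · simp
    · rfl

open DirectSum in
/-- the decomposition map -/
noncomputable def decMap : QA q →ₗ[k] ⨁ n, gr q n where
  toFun a :=
    DirectSum.toModule k ℕ (⨁ n, gr q n)
      (fun n => (DirectSum.lof k ℕ (fun n => gr q n) n) ∘ₗ reIncl q n)
      (DirectSum.decompose (homogeneousSubmodule σ k) a.re) +
    DirectSum.toModule k ℕ (⨁ n, gr q n)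
      (fun n => (DirectSum.lof k ℕ (fun n => gr q n) (n + 1)) ∘ₗ imIncl q n)
      (DirectSum.decompose (homogeneousSubmodule σ k) a.im)
  map_add' a b := by
    rw [QuadraticAlgebra.re_add, QuadraticAlgebra.im_add, DirectSum.decompose_add,
      DirectSum.decompose_add, map_add, map_add]
    abel
  map_smul' c a := by
    rw [QuadraticAlgebra.re_smul, QuadraticAlgebra.im_smul, DirectSum.decompose_smul,
      DirectSum.decompose_smul, map_smul, map_smul, smul_add]
    rfl

open DirectSum in
lemma decMap_apply (a : QA q) : decMap q a =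
    DirectSum.toModule k ℕ (⨁ n, gr q n)
      (fun n => (DirectSum.lof k ℕ (fun n => gr q n) n) ∘ₗ reIncl q n)
      (DirectSum.decompose (homogeneousSubmodule σ k) a.re) +
    DirectSum.toModule k ℕ (⨁ n, gr q n)
      (fun n => (DirectSum.lof k ℕ (fun n => gr q n) (n + 1)) ∘ₗ imIncl q n)
      (DirectSum.decompose (homogeneousSubmodule σ k) a.im) := rfl

lemma coe_decMap (a : QA q) : DirectSum.coeLinearMap (gr q) (decMap q a) = a := by
  classical
  have h1 : ∀ f : MvPolynomial σ k, DirectSum.coeLinearMap (gr q)
      (DirectSum.toModule k ℕ (DirectSum ℕ fun n => gr q n)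
      (fun n => (DirectSum.lof k ℕ (fun n => gr q n) n) ∘ₗ reIncl q n)
      (DirectSum.decompose (homogeneousSubmodule σ k) f)) = ⟨f, 0⟩ := by
    intro f
    induction f using DirectSum.Decomposition.inductionOn (homogeneousSubmodule σ k) with
    | zero => rw [DirectSum.decompose_zero, map_zero, map_zero]; rfl
    | homogeneous m =>
      rw [DirectSum.decompose_coe, ← DirectSum.lof_eq_of k, DirectSum.toModule_lof,
        LinearMap.comp_apply, DirectSum.coeLinearMap_lof]
      rfl
    | add m m' h h' =>
      rw [DirectSum.decompose_add, map_add, map_add, h, h']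
      apply QuadraticAlgebra.ext
      · rfl
      · simp
  have h2 : ∀ f : MvPolynomial σ k, DirectSum.coeLinearMap (gr q)
      (DirectSum.toModule k ℕ (DirectSum ℕ fun n => gr q n)
      (fun n => (DirectSum.lof k ℕ (fun n => gr q n) (n + 1)) ∘ₗ imIncl q n)
      (DirectSum.decompose (homogeneousSubmodule σ k) f)) = ⟨0, f⟩ := by
    intro f
    induction f using DirectSum.Decomposition.inductionOn (homogeneousSubmodule σ k) with
    | zero => rw [DirectSum.decompose_zero, map_zero, map_zero]; rfl
    | homogeneous m =>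
      rw [DirectSum.decompose_coe, ← DirectSum.lof_eq_of k, DirectSum.toModule_lof,
        LinearMap.comp_apply, DirectSum.coeLinearMap_lof]
      rfl
    | add m m' h h' =>
      rw [DirectSum.decompose_add, map_add, map_add, h, h']
      apply QuadraticAlgebra.ext
      · simp
      · rfl
  rw [decMap_apply, map_add, h1, h2]
  apply QuadraticAlgebra.ext
  · simp
  · simp

lemma decMap_coe (n : ℕ) (a : gr q n) :
    decMap q a = DirectSum.lof k ℕ (fun n => gr q n) n a := by
  classical
  obtain ⟨a, ha, hb⟩ := a
  rw [decMap_apply]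
  have e1 : DirectSum.decompose (homogeneousSubmodule σ k) a.re =
      DirectSum.lof k ℕ (fun n => homogeneousSubmodule σ k n) n ⟨a.re, ha⟩ := by
    rw [DirectSum.lof_eq_of]
    exact DirectSum.decompose_of_mem _ ha
  rw [e1, DirectSum.toModule_lof, LinearMap.comp_apply]
  cases n with
  | zero =>
    have h0 : a.im = 0 := hb
    have e2 : DirectSum.decompose (homogeneousSubmodule σ k) a.im = 0 := by
      rw [h0, DirectSum.decompose_zero]
    rw [e2, map_zero, add_zero]
    congr 1
    apply Subtype.ext
    apply QuadraticAlgebra.ext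
    · rfl
    · exact h0.symm
  | succ n =>
    have e2 : DirectSum.decompose (homogeneousSubmodule σ k) a.im =
        DirectSum.lof k ℕ (fun n => homogeneousSubmodule σ k n) n ⟨a.im, hb⟩ := by
      rw [DirectSum.lof_eq_of]
      exact DirectSum.decompose_of_mem (homogeneousSubmodule σ k) hb
    rw [e2, DirectSum.toModule_lof, LinearMap.comp_apply, ← map_add]
    congr 1
    apply Subtype.ext
    apply QuadraticAlgebra.ext
    · exact add_zero _
    · exact zero_add _

instance [hq : Fact (q ∈ homogeneousSubmodule σ k 2)] : GradedAlgebra (gr q) where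
  toGradedMonoid := gradedMonoid_gr q hq.out
  toDecomposition := DirectSum.Decomposition.ofLinearMap (gr q) (decMap q)
    (LinearMap.ext fun a => coe_decMap q a)
    (by
      apply DirectSum.linearMap_ext
      intro n
      ext1 a
      rw [LinearMap.comp_apply, LinearMap.comp_apply, DirectSum.coeLinearMap_lof, decMap_coe]
      rfl)

end

end Pool.Agent.W5h90.CP
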