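import Pool.Agent.W5h90.CP.Tan

/-!
The nonzero morphism `O(1) ⟶ T_X` on the quadric, in characteristic two.
-/

set_option autoImplicit false
set_option linter.unusedSectionVars false

open MvPolynomial HomogeneousLocalization AlgebraicGeometry CategoryTheory

universe u

namespace Pool.Agent.W5h90.CP

attribute [local instance] MvPolynomial.gradedAlgebra

noncomputable section

variable (k : Type u) [Field k] [CharP k 2] (r : ℕ)
  [IsDomain (QA (hyq k r))] [IsIntegral (XQ k r)]

/-- the derivation `∂/∂ω` of the field of fractions -/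
def EX : Derivation k (FX k r) (FX k r) := (exists_der_frac (dω (hyq k r))).choose

lemma EX_iX (b : QA (hyq k r)) : EX k r (iX k r b) = iX k r (dω (hyq k r) b) :=
  (exists_der_frac (dω (hyq k r))).choose_spec b

/-- the derivation `x_c ∂/∂ω` of the field of fractions -/
def Ec (c : HS r) (b : FX k r) : FX k r := iX k r (inc _ (X c)) * EX k r b

lemma Ec_add (c : HS r) (a b : FX k r) : Ec k r c (a + b) = Ec k r c a + Ec k r c b := by
  rw [Ec, map_add, mul_add]
  rfl

lemma Ec_mul (c : HS r) (a b : FX k r) :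
    Ec k r c (a * b) = a * Ec k r c b + b * Ec k r c a := by
  rw [Ec, Derivation.leibniz, smul_eq_mul, smul_eq_mul, Ec, Ec]
  ring

lemma Ec_mem (c : HS r) (d : ℕ) (s : QA (hyq k r)) (hs : s ∈ gr (hyq k r) d) :
    ∃ s' ∈ gr (hyq k r) d, Ec k r c (iX k r s) = iX k r s' :=
  ⟨_, mul_dω_mem c hs, by rw [Ec, EX_iX, ← map_mul]⟩

/-- the derivation `x_c ∂/∂ω` of the function field -/
def δc (c : HS r) : Derivation ℤ (XQ k r).functionField (XQ k r).functionField :=
  (exists_delta (gr (hyq k r)) (iX k r) iX_inj (Ec k r c) (Ec_add k r c) (Ec_mul k r c)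
    (Ec_mem k r c)).choose

lemma kX_δc (c : HS r) (a : (XQ k r).functionField) :
    kX k r (δc k r c a) = iX k r (inc _ (X c)) * EX k r (kX k r a) :=
  (exists_delta (gr (hyq k r)) (iX k r) iX_inj (Ec k r c) (Ec_add k r c) (Ec_mul k r c)
    (Ec_mem k r c)).choose_spec.1 a

lemma δc_stalk (c : HS r) (x : XQ k r) (a : (XQ k r).presheaf.stalk x) :
    ∃ b : (XQ k r).presheaf.stalk x, algebraMap _ (XQ k r).functionField b =
      δc k r c (algebraMap _ (XQ k r).functionField a) :=
  (exists_delta (gr (hyq k r)) (iX k r) iX_inj (Ec k r c) (Ec_add k r c) (Ec_mul k r c)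
    (Ec_mem k r c)).choose_spec.2 x a

lemma UQ_nonempty (c : HS r) : (UQ k c : Set (XQ k r)).Nonempty := by
  refine ⟨genericPoint _, generic_mem (gr (hyq k r)) ⟨1, one_pos, _, inc_X_mem c, ?_⟩ ?_⟩
  all_goals
    intro h
    exact xX_ne (k := k) c (by rw [h, map_zero])

lemma kX_const (c : HS r) (a : k) :
    kX k r (ev univ_nonempty (const (XQs k r) ⊤ a)) = iX k r (inc _ (C a)) := by
  rw [← algebraMap_QA]
  exact kap_const (gr (hyq k r)) (iX k r) iX_inj (inc_X_mem c) one_pos (UQ_nonempty k r c) a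

lemma δc_const (c : HS r) (a : k) : δc k r c (ev univ_nonempty (const (XQs k r) ⊤ a)) = 0 := by
  apply kX_inj
  rw [kX_δc, kX_const k r c, EX_iX, map_zero, ← algebraMap_QA, Derivation.map_algebraMap, map_zero,
    mul_zero]

/-- the vector field `x_c ∂/∂ω` over `D₊(x_c)` -/
def Dc (c : HS r) : TangentSection (XQs k r) (UQ k c) :=
  tangentSection (XQs k r) (UQ k c) (δc k r c) (fun x _ a => δc_stalk k r c x a)
    (δc_const k r c)

lemma kX_Dc (c : HS r) {V : (XQ k r).Opens} (h : V ≤ UQ k c) (hV : (V : Set (XQ k r)).Nonempty)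
    (a : Γ(XQ k r, V)) : kX k r (ev hV ((Dc k r c).der V h a)) =
      iX k r (inc _ (X c)) * EX k r (kX k r (ev hV a)) := by
  rw [← kX_δc]
  congr 1
  exact ev_tangentSection (p := XQs k r) (fun x _ a => δc_stalk k r c x a) (δc_const k r c) h hV a

lemma Dc_compat (i j : HS r) (V : (XQ k r).Opens) (hi : V ≤ UQ k i) (hj : V ≤ UQ k j)
    (a : Γ(XQ k r, V)) : (Dc k r j).der V hj a =
      res (le_inf hi hj) (res inf_le_left (fr i j)) * (Dc k r i).der V hi a := by
  apply eq_of_kX
  intro hV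
  have h1 : (UQ k i : Set (XQ k r)).Nonempty := UQ_nonempty k r i
  have hi' := xX_ne (k := k) i
  rw [map_mul, map_mul, kX_Dc, kX_Dc, res_res, ev_res hV h1, kX_fr]
  field_simp

/-- the morphism `O(1) ⟶ T_X`, `x_c ↦ x_c ∂/∂ω` -/
def φX : ToTangent (OO1 k r) (XQs k r) where
  D c := Dc k r c
  compat i j V hi hj a := Dc_compat k r i j V hi hj a

lemma Dc_frω (c : HS r) : (Dc k r c).der (UQ k c) le_rfl (frω c) = 1 := by
  apply eq_of_kX
  intro hV
  rw [kX_Dc, kX_frω, map_one, map_one]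
  have hc := xX_ne (k := k) c
  have h3 : EX k r (iX k r (om _) / iX k r (inc _ (X c))) = 1 / iX k r (inc _ (X c)) := by
    rw [Derivation.leibniz_div, EX_iX, EX_iX, dω_apply, dω_apply]
    have h4 : (⟨(inc (hyq k r) (X c)).im, 0⟩ : QA (hyq k r)) = 0 := rfl
    have h5 : (⟨(om (hyq k r)).im, 0⟩ : QA (hyq k r)) = 1 := rfl
    rw [h4, h5, map_zero, map_one, smul_zero, sub_zero]
    simp only [smul_eq_mul]
    field_simp
  rw [h3, mul_one_div_cancel hc]

theorem φX_nonZero (c : HS r) : (φX k r).NonZero := by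
  refine ⟨c, UQ k c, le_rfl, frω c, ?_⟩
  intro h0
  have h1 : (Dc k r c).der (UQ k c) le_rfl (frω c) = 0 := h0
  rw [Dc_frω] at h1
  have h2 := congrArg (ev (UQ_nonempty k r c)) h1
  rw [map_one, map_zero] at h2
  exact one_ne_zero h2

theorem φX_nowhereZero : (φX k r).NowhereZero := by
  intro c x hx
  refine ⟨UQ k c, le_rfl, hx, frω c, ?_⟩
  have h1 : (Dc k r c).der (UQ k c) le_rfl (frω c) = 1 := Dc_frω k r c
  have h2 : ((φX k r).D c).der (UQ k c) le_rfl (frω c) = 1 := h1
  rw [h2]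
  exact isUnit_one

end

end Pool.Agent.W5h90.CP
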