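import Pool.Agent.W5h90.CP.PN
import Pool.Agent.W5h90.CP.Loc

/-!
If the ring of functions on `D₊(G) ⊂ ℙⁿ` is a unique factorization domain, `G` irreducible, then
`G` is a linear form.
-/

set_option autoImplicit false
set_option linter.unusedSectionVars false

open MvPolynomial HomogeneousLocalization AlgebraicGeometry CategoryTheory

universe u

namespace Pool.Agent.W5h90.CP

attribute [local instance] MvPolynomial.gradedAlgebra

noncomputable section

variable {k : Type u} [Field k] {n : ℕ} [IsIntegral (PP k n)]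

/-- the field of fractions of the polynomial ring -/
abbrev FY (k : Type u) [Field k] (n : ℕ) : Type u := FractionRing (MvPolynomial (Fin (n + 1)) k)

/-- the inclusion of the polynomial ring in its field of fractions -/
abbrev iY (k : Type u) [Field k] (n : ℕ) : MvPolynomial (Fin (n + 1)) k →+* FY k n :=
  algebraMap _ _

lemma iY_inj : Function.Injective (iY k n) := IsFractionRing.injective _ _

/-- the embedding of the function field of `ℙⁿ` -/
abbrev kY (k : Type u) [Field k] (n : ℕ) [IsIntegral (PP k n)] :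
    (PP k n).functionField →+* FY k n :=
  kap (hs k n) (iY k n) iY_inj

lemma kY_inj : Function.Injective (kY k n) := kap_injective _ _ _

lemma iY_ne {a : MvPolynomial (Fin (n + 1)) k} (h : a ≠ 0) : iY k n a ≠ 0 := by
  intro h0
  exact h (iY_inj (by rw [h0, map_zero]))

lemma hs_mul {a b : MvPolynomial (Fin (n + 1)) k} {i j : ℕ} (ha : a ∈ hs k n i)
    (hb : b ∈ hs k n j) : a * b ∈ hs k n (i + j) := hmul ha hb

lemma hs_pow {a : MvPolynomial (Fin (n + 1)) k} {i : ℕ} (ha : a ∈ hs k n i) (m : ℕ) :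
    a ^ m ∈ hs k n (m * i) := by
  have ha' : a.IsHomogeneous i := ha
  rw [mul_comm]
  exact ha'.pow m

section

variable {G : MvPolynomial (Fin (n + 1)) k} {d : ℕ} (hG : Irreducible G) (hd : 0 < d)
  (hGd : G ∈ hs k n d)

/-- the open set `D₊(G)` -/
abbrev UG (G : MvPolynomial (Fin (n + 1)) k) : (PP k n).Opens := Proj.basicOpen (hs k n) G

include hG in
lemma UG_nonempty : (UG G : Set (PP k n)).Nonempty :=
  ⟨genericPoint _, generic_mem (hs k n) ⟨1, one_pos, X 0, isHomogeneous_X k 0, X_ne_zero 0⟩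
    hG.ne_zero⟩

include hG in
lemma not_X_dvd {j : Fin (n + 1)} (hj : ¬ G ∣ X j) : ¬ (X j : MvPolynomial _ k) ∣ G := by
  intro h
  exact hj ((X_prime (R := k) (i := j)).irreducible.dvd_symm hG h)

include hG hd hGd

lemma rep (s : Γ(PP k n, UG G)) : ∃ (m : ℕ) (a : MvPolynomial (Fin (n + 1)) k),
    a ∈ hs k n (m * d) ∧ kY k n (ev (UG_nonempty hG) s) = iY k n a / iY k n G ^ m :=
  exists_frac_section (hs k n) (iY k n) iY_inj hd hGd (UG_nonempty hG) s

lemma sec (m : ℕ) {a : MvPolynomial (Fin (n + 1)) k} (ha : a ∈ hs k n (m * d)) :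
    ∃ s : Γ(PP k n, UG G), kY k n (ev (UG_nonempty hG) s) = iY k n a / iY k n G ^ m :=
  exists_section_frac (hs k n) (iY k n) iY_inj hd hGd (UG_nonempty hG) m ha

lemma isUnit_of_dvd {s : Γ(PP k n, UG G)} {m N : ℕ} {a : MvPolynomial (Fin (n + 1)) k}
    (ha : a ∈ hs k n (m * d))
    (hs' : kY k n (ev (UG_nonempty hG) s) = iY k n a / iY k n G ^ m) (h : a ∣ G ^ N) :
    IsUnit s := by
  obtain ⟨b, hb⟩ := h
  have hG0 := hG.ne_zero
  have hG0' : iY k n G ≠ 0 := iY_ne hG0
  have ha0 : a ≠ 0 := by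
    rintro rfl
    rw [zero_mul] at hb
    exact pow_ne_zero N hG0 hb
  have h1 : a * (G ^ m * b) ∈ hs k n (m * d + N * d) := by
    have h2 : a * (G ^ m * b) = G ^ (m + N) := by
      rw [pow_add, hb]; ring
    rw [h2, ← add_mul]
    exact hs_pow hGd _
  have h3 : G ^ m * b ∈ hs k n (N * d) := mem_of_mul_mem (hs k n) ha ha0 h1
  obtain ⟨w, hw⟩ := sec hG hd hGd N h3
  refine IsUnit.of_mul_eq_one w (ev_injective (UG_nonempty hG) (kY_inj ?_))
  rw [map_mul, map_mul, hs', hw, map_one, map_one, map_mul, map_pow, div_mul_div_comm,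
    div_eq_one_iff_eq (mul_ne_zero (pow_ne_zero _ hG0') (pow_ne_zero _ hG0')), ← map_pow, ← map_pow,
    ← map_mul, ← map_mul, ← map_mul]
  congr 1
  rw [hb]; ring

lemma dvd_pow_or {a b : MvPolynomial (Fin (n + 1)) k} {m n' : ℕ} {j : Fin (n + 1)}
    (ha : a ∈ hs k n (m * d))
    (h : X j ^ d * G ^ (m + n') = a * b * G) :
    a ∣ G ^ (m + n') ∨ b ∣ G ^ (m + n') := by
  have hG0 := hG.ne_zero
  have hX : Prime (X j : MvPolynomial (Fin (n + 1)) k) := X_prime
  have hl0 : X j ^ d * G ^ (m + n') ≠ 0 := mul_ne_zero (pow_ne_zero _ hX.ne_zero) (pow_ne_zero _ hG0)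
  have ha0 : a ≠ 0 := by
    rintro rfl
    rw [zero_mul, zero_mul] at h
    exact hl0 h
  have hdvd : a ∣ X j ^ d * G ^ (m + n') := by
    rw [h, mul_assoc]
    exact dvd_mul_right _ _
  obtain ⟨a1, a2, h1, h2, h12⟩ := exists_dvd_and_dvd_of_dvd_mul hdvd
  obtain ⟨α, hα, ⟨u1, hu1⟩⟩ := (dvd_prime_pow hX d).mp h1
  obtain ⟨β, hβ, ⟨u2, hu2⟩⟩ := (dvd_prime_pow hG.prime (m + n')).mp h2
  -- degrees
  have h3 : a * ((u1 * u2 : (MvPolynomial (Fin (n + 1)) k)ˣ) : MvPolynomial (Fin (n + 1)) k) =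
      X j ^ α * G ^ β := by
    rw [← hu1, ← hu2, h12, Units.val_mul]; ring
  obtain ⟨c, hc0, hc⟩ := isUnit_iff_eq_C_of_isReduced.mp (u1 * u2).isUnit
  have h4 : X j ^ α * G ^ β ∈ hs k n (m * d) := by
    rw [← h3, hc]
    have := hs_mul ha (isHomogeneous_C (Fin (n + 1)) c)
    rwa [add_zero] at this
  have h5 : X j ^ α * G ^ β ∈ hs k n (α * 1 + β * d) :=
    hs_mul (hs_pow (isHomogeneous_X k j) α) (hs_pow hGd β)
  have h6 : X j ^ α * G ^ β ≠ 0 := mul_ne_zero (pow_ne_zero _ hX.ne_zero) (pow_ne_zero _ hG0)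
  have h7 : m * d = α * 1 + β * d := IsHomogeneous.inj_right h4 h5 h6
  rw [mul_one] at h7
  have h8 : α = 0 ∨ α = d := by
    have h9 : d ∣ α := by
      have h10 : d ∣ α + β * d := h7 ▸ Dvd.intro_left m rfl
      exact (Nat.dvd_add_left (Dvd.intro_left β rfl)).mp h10
    rcases Nat.eq_zero_or_pos α with h | h
    · exact Or.inl h
    · exact Or.inr (le_antisymm hα (Nat.le_of_dvd h h9))
  rcases h8 with h8 | h8
  · left
    rw [h8, pow_zero] at hu1
    have h9 : IsUnit a1 := IsUnit.of_mul_eq_one _ hu1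
    rw [h12]
    exact (h9.mul_left_dvd).mpr h2
  · right
    rw [h8] at hu1
    have h10 : Associated a1 (X j ^ d) := ⟨u1, hu1⟩
    have h9 : X j ^ d ∣ a := by
      rw [h12]
      exact h10.symm.dvd.mul_right a2
    obtain ⟨t, ht⟩ := h9
    refine ⟨t * G, mul_left_cancel₀ (pow_ne_zero d hX.ne_zero) ?_⟩
    rw [h, ht]
    ring

theorem degree_eq_one [hU : UniqueFactorizationMonoid Γ(PP k n, UG G)] {j : Fin (n + 1)}
    (hj : ¬ G ∣ X j) : d = 1 := by
  have hG0 := hG.ne_zero
  have hG0' : iY k n G ≠ 0 := iY_ne hG0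
  have hX : Prime (X j : MvPolynomial (Fin (n + 1)) k) := X_prime
  have hXG : ¬ (X j : MvPolynomial (Fin (n + 1)) k) ∣ G := not_X_dvd hG hj
  have hne := UG_nonempty hG
  -- another variable
  have hi : ∃ i, i ≠ j := by
    by_contra hcon
    push Not at hcon
    apply hXG
    have hP : (Ideal.span {(X j : MvPolynomial (Fin (n + 1)) k)}).IsPrime :=
      (Ideal.span_singleton_prime hX.ne_zero).mpr hX
    have h1 : (HomogeneousIdeal.irrelevant (hs k n)).toIdeal ≤
        Ideal.span {(X j : MvPolynomial (Fin (n + 1)) k)} := by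
      by_contra h2
      obtain ⟨i, hi⟩ := exists_X_notMem_PN _ h2
      rw [hcon i] at hi
      exact hi (Ideal.mem_span_singleton_self _)
    rw [← Ideal.mem_span_singleton]
    apply h1
    show _ ∈ HomogeneousIdeal.irrelevant _
    rw [HomogeneousIdeal.mem_irrelevant_iff, GradedRing.proj_apply,
      DirectSum.decompose_of_mem_ne _ hGd (by omega)]
  obtain ⟨i, hij⟩ := hi
  by_contra hd1
  have hd2 : 2 ≤ d := by omega
  obtain ⟨e, rfl⟩ : ∃ e, d = e + 2 := ⟨d - 2, by omega⟩
  -- the elements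
  have m1 : (X j : MvPolynomial (Fin (n + 1)) k) ^ (e + 2) ∈ hs k n (1 * (e + 2)) := by
    have := hs_pow (isHomogeneous_X k j) (e + 2)
    rw [one_mul]
    rwa [mul_one] at this
  have m2 : (X i : MvPolynomial (Fin (n + 1)) k) ^ (e + 2) ∈ hs k n (1 * (e + 2)) := by
    have := hs_pow (isHomogeneous_X k i) (e + 2)
    rw [one_mul]
    rwa [mul_one] at this
  have m3 : (X j : MvPolynomial (Fin (n + 1)) k) ^ (e + 1) * X i ∈ hs k n (1 * (e + 2)) := by
    have := hs_mul (hs_pow (isHomogeneous_X k j) (e + 1)) (isHomogeneous_X k i)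
    rwa [mul_one, ← one_mul (e + 1 + 1)] at this
  have m4 : (X i : MvPolynomial (Fin (n + 1)) k) ^ (e + 1) * X j ∈ hs k n (1 * (e + 2)) := by
    have := hs_mul (hs_pow (isHomogeneous_X k i) (e + 1)) (isHomogeneous_X k j)
    rwa [mul_one, ← one_mul (e + 1 + 1)] at this
  obtain ⟨z, hz⟩ := sec hG hd hGd 1 m1
  obtain ⟨w, hw⟩ := sec hG hd hGd 1 m2
  obtain ⟨t, ht⟩ := sec hG hd hGd 1 m3
  obtain ⟨t', ht'⟩ := sec hG hd hGd 1 m4
  -- `z` is irreducible
  have hzi : Irreducible z := by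
    refine ⟨fun hu => ?_, fun u v huv => ?_⟩
    · obtain ⟨y, hy⟩ := hu.exists_right_inv
      obtain ⟨m, a, ha, hya⟩ := rep hG hd hGd y
      have h1 := congrArg (fun s => kY k n (ev hne s)) hy
      simp only [map_mul, map_one] at h1
      rw [hz, hya, div_mul_div_comm,
        div_eq_one_iff_eq (mul_ne_zero (pow_ne_zero _ hG0') (pow_ne_zero _ hG0')), ← map_pow,
        ← map_pow, ← map_mul, ← map_mul] at h1
      have h2 := iY_inj h1
      have h3 : X j ∣ G ^ 1 * G ^ m := by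
        rw [← h2]
        exact (dvd_pow_self _ (by omega)).mul_right _
      rw [← pow_add] at h3
      exact hXG (hX.dvd_of_dvd_pow h3)
    · obtain ⟨m, a, ha, hua⟩ := rep hG hd hGd u
      obtain ⟨m', b, hb, hvb⟩ := rep hG hd hGd v
      have h1 := congrArg (fun s => kY k n (ev hne s)) huv
      simp only [map_mul] at h1
      rw [hz, hua, hvb, div_mul_div_comm, div_eq_div_iff (pow_ne_zero _ hG0')
        (mul_ne_zero (pow_ne_zero _ hG0') (pow_ne_zero _ hG0')), ← map_pow,
        ← map_pow, ← map_pow, ← map_mul, ← map_mul, ← map_mul, ← map_mul] at h1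
      have h2 := iY_inj h1
      rw [← pow_add, pow_one] at h2
      rcases dvd_pow_or hG hd hGd ha h2 with h3 | h3
      · exact Or.inl (isUnit_of_dvd hG hd hGd ha hua h3)
      · exact Or.inr (isUnit_of_dvd hG hd hGd hb hvb h3)
  have hzp : Prime z := UniqueFactorizationMonoid.irreducible_iff_prime.mp hzi
  have hzw : z * w = t * t' := by
    apply ev_injective hne
    apply kY_inj
    rw [map_mul, map_mul, map_mul, map_mul, hz, hw, ht, ht', div_mul_div_comm, div_mul_div_comm,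
      ← map_mul, ← map_mul]
    congr 2
    ring
  have key : ∀ N m : ℕ, ∀ b, X i ^ N * G ^ m = X j * b → False := by
    intro N m b h1
    have h2 : X j ∣ X i ^ N * G ^ m := ⟨b, h1⟩
    rcases hX.dvd_or_dvd h2 with h3 | h3
    · have h4 := hX.dvd_of_dvd_pow h3
      rw [X_dvd_X] at h4
      exact hij h4.symm
    · exact hXG (hX.dvd_of_dvd_pow h3)
  rcases hzp.dvd_or_dvd (⟨w, hzw.symm⟩ : z ∣ t * t') with ⟨y, hy⟩ | ⟨y, hy⟩
  · obtain ⟨m, b, hb, hyb⟩ := rep hG hd hGd y
    have h1 := congrArg (fun s => kY k n (ev hne s)) hy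
    simp only [map_mul] at h1
    rw [hz, ht, hyb, div_mul_div_comm, div_eq_div_iff (pow_ne_zero _ hG0')
        (mul_ne_zero (pow_ne_zero _ hG0') (pow_ne_zero _ hG0')), ← map_pow,
        ← map_pow, ← map_mul, ← map_mul, ← map_mul, ← map_mul] at h1
    have h2 := iY_inj h1
    refine key 1 m b (mul_left_cancel₀ (mul_ne_zero (pow_ne_zero (e + 1) hX.ne_zero) hG0) ?_)
    linear_combination h2
  · obtain ⟨m, b, hb, hyb⟩ := rep hG hd hGd y
    have h1 := congrArg (fun s => kY k n (ev hne s)) hy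
    simp only [map_mul] at h1
    rw [hz, ht', hyb, div_mul_div_comm, div_eq_div_iff (pow_ne_zero _ hG0')
        (mul_ne_zero (pow_ne_zero _ hG0') (pow_ne_zero _ hG0')), ← map_pow,
        ← map_pow, ← map_mul, ← map_mul, ← map_mul, ← map_mul] at h1
    have h2 := iY_inj h1
    refine key (e + 1) m (X j ^ e * b) (mul_left_cancel₀ (mul_ne_zero hX.ne_zero hG0) ?_)
    linear_combination h2

end

end

end Pool.Agent.W5h90.CP
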